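import Mathlib

/-!
# Absorption lemma: `ℝ × ℝ^ℕ` is homeomorphic to `[-1,1] × ℝ^ℕ` by a map that is the identity
where the first coordinate is at most `1/2` in absolute value.
-/

namespace Pool.Agent.H5.Absorb

open Filter Topology

noncomputable def tau (v : ℝ) : ℝ := max v 0 / (2 * (1 + max v 0))
noncomputable def tinv (x : ℝ) : ℝ := 2 * x / (1 - 2 * x)

theorem tau_nonneg (v : ℝ) : 0 ≤ tau v := by unfold tau; positivity

theorem tau_lt (v : ℝ) : tau v < 1 / 2 := by
  unfold tau
  have : 0 ≤ max v 0 := le_max_right _ _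
  rw [div_lt_iff₀ (by positivity)]; linarith

theorem tau_cont : Continuous tau := by
  unfold tau
  refine Continuous.div (by fun_prop) (by fun_prop) fun v => ?_
  have : 0 ≤ max v 0 := le_max_right _ _
  positivity

theorem tau_lip (a b : ℝ) : |tau a - tau b| ≤ |a - b| / 2 := by
  have h := abs_max_sub_max_le_abs a b 0
  have hA : 0 ≤ max a 0 := le_max_right _ _
  have hB : 0 ≤ max b 0 := le_max_right _ _
  unfold tau
  generalize max a 0 = A at *
  generalize max b 0 = B at *
  have h1 : A / (2 * (1 + A)) - B / (2 * (1 + B)) = (A - B) / (2 * ((1 + A) * (1 + B))) := by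
    field_simp; ring
  rw [h1, abs_div]
  have h2 : |2 * ((1 + A) * (1 + B))| = 2 * ((1 + A) * (1 + B)) := abs_of_pos (by positivity)
  rw [h2]
  calc |A - B| / (2 * ((1 + A) * (1 + B))) ≤ |A - B| / 2 := by
        apply div_le_div_of_nonneg_left (abs_nonneg _) (by norm_num)
        nlinarith [mul_nonneg hA hB]
    _ ≤ |a - b| / 2 := by linarith

theorem tau_mono {a b : ℝ} (h : a ≤ b) : tau a ≤ tau b := by
  have h1 : max a 0 ≤ max b 0 := max_le_max_right 0 h
  have hA : 0 ≤ max a 0 := le_max_right _ _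
  unfold tau
  generalize max a 0 = A at *
  generalize max b 0 = B at *
  rw [div_le_div_iff₀ (by positivity) (by linarith)]
  nlinarith

theorem tinv_nonneg {x : ℝ} (h0 : 0 ≤ x) (h1 : x < 1 / 2) : 0 ≤ tinv x := by
  unfold tinv
  apply div_nonneg (by linarith) (by linarith)

theorem tau_tinv {x : ℝ} (h0 : 0 ≤ x) (h1 : x < 1 / 2) : tau (tinv x) = x := by
  have h := tinv_nonneg h0 h1
  unfold tau
  rw [max_eq_left h]
  unfold tinv
  have h2 : 1 - 2 * x ≠ 0 := by linarith
  have h3 : 1 + 2 * x / (1 - 2 * x) = 1 / (1 - 2 * x) := by field_simp; ring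
  rw [h3]
  field_simp

theorem tinv_tau {v : ℝ} (h : 0 ≤ v) : tinv (tau v) = v := by
  unfold tau tinv
  rw [max_eq_left h]
  have h1 : 1 + v ≠ 0 := by linarith
  have h2 : 1 - 2 * (v / (2 * (1 + v))) = 1 / (1 + v) := by field_simp; ring
  rw [h2]
  field_simp

theorem min_lt (x b : ℝ) : min x (tau b) < 1 / 2 := lt_of_le_of_lt (min_le_right _ _) (tau_lt b)

theorem tinv_min_cont {X : Type*} [TopologicalSpace X] {f g : X → ℝ} (hf : Continuous f)
    (hg : Continuous g) : Continuous fun x => tinv (min (f x) (tau (g x))) := by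
  unfold tinv
  have h := tau_cont.comp hg
  have h' : Continuous fun x => min (f x) (tau (g x)) := hf.min h
  refine Continuous.div (by fun_prop) (by fun_prop) fun x => ?_
  have := min_lt (f x) (g x)
  linarith

/-- finite approximations -/
noncomputable def V (u : ℕ → ℝ) : ℕ → ℕ → ℝ
  | 0, _ => 0
  | m + 1, i => max (u i) 0 + tau (V u m (i + 1))

theorem V_cont (m : ℕ) : ∀ i, Continuous fun u : ℕ → ℝ => V u m i := by
  induction m with
  | zero => intro i; exact continuous_const
  | succ m ih =>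
    intro i
    exact ((continuous_apply i).max continuous_const).add (tau_cont.comp (ih (i + 1)))

theorem V_diff (u : ℕ → ℝ) (m : ℕ) : ∀ i, |V u (m + 2) i - V u (m + 1) i| ≤ (1 / 2 : ℝ) ^ m := by
  induction m with
  | zero =>
    intro i
    simp only [V, add_sub_add_left_eq_sub, pow_zero]
    have h1 := tau_nonneg (max (u (i + 1)) 0 + tau 0)
    have h2 := tau_lt (max (u (i + 1)) 0 + tau 0)
    have h3 := tau_nonneg 0
    have h4 := tau_lt 0
    rw [abs_le]; constructor <;> linarith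
  | succ m ih =>
    intro i
    have h := ih (i + 1)
    have h' := tau_lip (V u (m + 2) (i + 1)) (V u (m + 1) (i + 1))
    change |(max (u i) 0 + tau (V u (m + 2) (i + 1))) - (max (u i) 0 + tau (V u (m + 1) (i + 1)))| ≤ _
    rw [add_sub_add_left_eq_sub, pow_succ]
    linarith

noncomputable def W (u : ℕ → ℝ) (i : ℕ) : ℝ :=
  V u 1 i + ∑' m : ℕ, (V u (m + 2) i - V u (m + 1) i)

theorem summ : Summable fun m : ℕ => (1 / 2 : ℝ) ^ m := summable_geometric_two

theorem W_cont (i : ℕ) : Continuous fun u => W u i := by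
  unfold W
  refine (V_cont 1 i).add (continuous_tsum (fun m => (V_cont _ i).sub (V_cont _ i)) summ ?_)
  intro m u
  rw [Real.norm_eq_abs]
  exact V_diff u m i

theorem W_tendsto (u : ℕ → ℝ) (i : ℕ) : Tendsto (fun m => V u m i) atTop (𝓝 (W u i)) := by
  have hs : Summable fun m : ℕ => V u (m + 2) i - V u (m + 1) i :=
    Summable.of_norm_bounded summ fun m => by rw [Real.norm_eq_abs]; exact V_diff u m i
  have h1 := hs.hasSum.tendsto_sum_nat
  have h2 : Tendsto (fun n => V u 1 i + ∑ m ∈ Finset.range n, (V u (m + 2) i - V u (m + 1) i))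
      atTop (𝓝 (W u i)) := tendsto_const_nhds.add h1
  have h3 : ∀ n, V u 1 i + ∑ m ∈ Finset.range n, (V u (m + 2) i - V u (m + 1) i) = V u (n + 1) i := by
    intro n
    rw [Finset.sum_range_sub (fun m => V u (m + 1) i)]
    ring
  simp only [h3] at h2
  exact (tendsto_add_atTop_iff_nat 1).1 h2

theorem W_rec (u : ℕ → ℝ) (i : ℕ) : W u i = max (u i) 0 + tau (W u (i + 1)) := by
  have h1 : Tendsto (fun m => V u (m + 1) i) atTop (𝓝 (W u i)) :=
    (tendsto_add_atTop_iff_nat 1).2 (W_tendsto u i)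
  have h2 : Tendsto (fun m => V u (m + 1) i) atTop (𝓝 (max (u i) 0 + tau (W u (i + 1)))) :=
    tendsto_const_nhds.add ((tau_cont.tendsto _).comp (W_tendsto u (i + 1)))
  exact tendsto_nhds_unique h1 h2

theorem W_nonneg (u : ℕ → ℝ) (i : ℕ) : 0 ≤ W u i := by
  rw [W_rec]
  exact add_nonneg (le_max_right _ _) (tau_nonneg _)

theorem W_unique {u c : ℕ → ℝ} (h : ∀ i, c i = max (u i) 0 + tau (c (i + 1))) : c = W u := by
  have key : ∀ m i, |c i - W u i| ≤ (1 / 2 : ℝ) ^ m := by
    intro m
    induction m with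
    | zero =>
      intro i
      rw [h i, W_rec u i, add_sub_add_left_eq_sub, pow_zero]
      have h1 := tau_nonneg (c (i + 1))
      have h2 := tau_lt (c (i + 1))
      have h3 := tau_nonneg (W u (i + 1))
      have h4 := tau_lt (W u (i + 1))
      rw [abs_le]; constructor <;> linarith
    | succ m ih =>
      intro i
      rw [h i, W_rec u i, add_sub_add_left_eq_sub, pow_succ]
      have h1 := ih (i + 1)
      have h2 := tau_lip (c (i + 1)) (W u (i + 1))
      linarith
  ext i
  have h1 : |c i - W u i| ≤ 0 := by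
    refine ge_of_tendsto' (tendsto_pow_atTop_nhds_zero_of_lt_one (by norm_num) (by norm_num : (1 / 2 : ℝ) < 1)) ?_
    intro m; exact key m i
  have h2 := abs_nonpos_iff.1 h1
  linarith

noncomputable def C (a : ℕ → ℝ) : ℕ → ℝ
  | 0 => a 0
  | i + 1 => tinv (min (C a i) (tau (a (i + 1))))

theorem C_cont (i : ℕ) : Continuous fun a => C a i := by
  induction i with
  | zero => exact continuous_apply 0
  | succ i ih => exact tinv_min_cont ih (continuous_apply (i + 1))

theorem C_nonneg {a : ℕ → ℝ} (ha : ∀ i, 0 ≤ a i) (i : ℕ) : 0 ≤ C a i := by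
  induction i with
  | zero => exact ha 0
  | succ i ih => exact tinv_nonneg (le_min ih (tau_nonneg _)) (min_lt _ _)

noncomputable def Lam (a : ℕ → ℝ) (i : ℕ) : ℝ :=
  (C a i - tau (C a (i + 1))) - (a (i + 1) - C a (i + 1))

noncomputable def LamI (u : ℕ → ℝ) : ℕ → ℝ
  | 0 => W u 0
  | i + 1 => max (-(u i)) 0 + W u (i + 1)

theorem Lam_cont : Continuous Lam := by
  refine continuous_pi fun i => ?_
  exact ((C_cont i).sub (tau_cont.comp (C_cont (i + 1)))).sub
    ((continuous_apply (i + 1)).sub (C_cont (i + 1)))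

theorem LamI_cont : Continuous LamI := by
  refine continuous_pi fun i => ?_
  cases i with
  | zero => exact W_cont 0
  | succ i => exact ((continuous_apply i).neg.max continuous_const).add (W_cont (i + 1))

theorem LamI_nonneg (u : ℕ → ℝ) (i : ℕ) : 0 ≤ LamI u i := by
  cases i with
  | zero => exact W_nonneg u 0
  | succ i => exact add_nonneg (le_max_right _ _) (W_nonneg u _)

theorem C_LamI (u : ℕ → ℝ) (i : ℕ) : C (LamI u) i = W u i := by
  induction i with
  | zero => rfl
  | succ i ih =>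
    change tinv (min (C (LamI u) i) (tau (max (-(u i)) 0 + W u (i + 1)))) = _
    rw [ih]
    have h : min (W u i) (tau (max (-(u i)) 0 + W u (i + 1))) = tau (W u (i + 1)) := by
      rw [W_rec u i]
      rcases le_total 0 (u i) with h0 | h0
      · rw [max_eq_left h0, max_eq_right (by linarith : -(u i) ≤ 0), zero_add]
        exact min_eq_right (by linarith)
      · rw [max_eq_right h0, max_eq_left (by linarith : 0 ≤ -(u i)), zero_add]
        exact min_eq_left (tau_mono (by linarith))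
    rw [h, tinv_tau (W_nonneg _ _)]

theorem Lam_LamI (u : ℕ → ℝ) : Lam (LamI u) = u := by
  ext i
  unfold Lam
  rw [C_LamI, C_LamI]
  change W u i - tau (W u (i + 1)) - (max (-(u i)) 0 + W u (i + 1) - W u (i + 1)) = u i
  rw [W_rec u i]
  rcases le_total 0 (u i) with h0 | h0
  · rw [max_eq_left h0, max_eq_right (by linarith : -(u i) ≤ 0)]; ring
  · rw [max_eq_right h0, max_eq_left (by linarith : 0 ≤ -(u i))]; ring

/-- the two-variable step: `x, b ≥ 0`, `v = tinv (min x (tau b))`, `u = (x - tau v) - (b - v)` -/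
theorem step {x b : ℝ} (hx : 0 ≤ x) (hb : 0 ≤ b) :
    let v := tinv (min x (tau b))
    let u := (x - tau v) - (b - v)
    x = max u 0 + tau v ∧ b = max (-u) 0 + v := by
  intro v u
  have h0 : 0 ≤ min x (tau b) := le_min hx (tau_nonneg _)
  have htv : tau v = min x (tau b) := tau_tinv h0 (min_lt _ _)
  have hv : 0 ≤ v := tinv_nonneg h0 (min_lt _ _)
  rcases le_total x (tau b) with h | h
  · rw [min_eq_left h] at htv
    have hvb : v ≤ b := by
      by_contra hc
      push Not at hc
      have h1 : tau b ≤ tau v := tau_mono hc.le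
      have h2 : tau v = tau b := le_antisymm (by rw [htv]; exact h) h1
      have h3 : v = b := by rw [← tinv_tau hv, ← tinv_tau hb, h2]
      linarith
    have hu : u = -(b - v) := by change (x - tau v) - (b - v) = _; rw [htv]; ring
    rw [hu, max_eq_right (by linarith : -(b - v) ≤ 0), max_eq_left (by linarith : 0 ≤ -(-(b - v))), htv]
    constructor <;> ring
  · have hvb : v = b := by
      change tinv (min x (tau b)) = b
      rw [min_eq_right h, tinv_tau hb]
    have hu : u = x - tau b := by change (x - tau v) - (b - v) = _; rw [hvb]; ring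
    rw [hu, hvb, max_eq_left (by linarith : 0 ≤ x - tau b), max_eq_right (by linarith : -(x - tau b) ≤ 0)]
    constructor <;> ring

theorem LamI_Lam {a : ℕ → ℝ} (ha : ∀ i, 0 ≤ a i) : LamI (Lam a) = a := by
  have h : ∀ i, C a i = max (Lam a i) 0 + tau (C a (i + 1)) ∧
      a (i + 1) = max (-(Lam a i)) 0 + C a (i + 1) :=
    fun i => step (C_nonneg ha i) (ha (i + 1))
  have hW : C a = W (Lam a) := W_unique fun i => (h i).1
  ext i
  cases i with
  | zero => change W (Lam a) 0 = a 0; rw [← hW]; rfl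
  | succ i => change max (-(Lam a i)) 0 + W (Lam a) (i + 1) = _; rw [← hW]; exact (h i).2.symm

/-- `K : [0,1] × ℝ^ℕ → (-∞,1] × ℝ^ℕ` -/
noncomputable def K (a : ℝ) (f : ℕ → ℝ) : ℝ × (ℕ → ℝ) :=
  ((a - tau (tinv (min a (tau (LamI f 0))))) / (1 - tau (tinv (min a (tau (LamI f 0)))))
      - (LamI f 0 - tinv (min a (tau (LamI f 0)))),
    Lam (Function.update (LamI f) 0 (tinv (min a (tau (LamI f 0))))))

noncomputable def KI (u : ℝ) (f : ℕ → ℝ) : ℝ × (ℕ → ℝ) :=
  (tau (LamI f 0) + max u 0 * (1 - tau (LamI f 0)),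
    Lam (Function.update (LamI f) 0 (LamI f 0 + max (-u) 0)))

theorem K_cont {X : Type*} [TopologicalSpace X] {a : X → ℝ} {f : X → ℕ → ℝ} (ha : Continuous a)
    (hf : Continuous f) : Continuous fun x => K (a x) (f x) := by
  unfold K
  have h1 : Continuous fun x => LamI (f x) := LamI_cont.comp hf
  have h0 : Continuous fun x => LamI (f x) 0 := continuous_pi_iff.1 h1 0
  have h2 : Continuous fun x => tinv (min (a x) (tau (LamI (f x) 0))) := tinv_min_cont ha h0
  have h3 := tau_cont.comp h2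
  refine Continuous.prodMk ?_ (Lam_cont.comp (h1.update 0 h2))
  refine Continuous.sub (Continuous.div (ha.sub h3) (continuous_const.sub h3) ?_) (h0.sub h2)
  intro x
  have := tau_lt (tinv (min (a x) (tau (LamI (f x) 0))))
  linarith

theorem KI_cont {X : Type*} [TopologicalSpace X] {a : X → ℝ} {f : X → ℕ → ℝ} (ha : Continuous a)
    (hf : Continuous f) : Continuous fun x => KI (a x) (f x) := by
  unfold KI
  have h1 : Continuous fun x => LamI (f x) := LamI_cont.comp hf
  have h0 : Continuous fun x => LamI (f x) 0 := continuous_pi_iff.1 h1 0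
  have h3 := tau_cont.comp h0
  refine Continuous.prodMk ?_ (Lam_cont.comp (h1.update 0 ?_))
  · exact h3.add ((ha.max continuous_const).mul (continuous_const.sub h3))
  · exact h0.add (ha.neg.max continuous_const)

theorem upd_nonneg {c : ℕ → ℝ} (hc : ∀ i, 0 ≤ c i) {v : ℝ} (hv : 0 ≤ v) (i : ℕ) :
    0 ≤ Function.update c 0 v i := by
  by_cases h : i = 0
  · subst h; simpa using hv
  · rw [Function.update_of_ne h]; exact hc i

theorem KI_K {a : ℝ} (h0 : 0 ≤ a) (h1 : a ≤ 1) (f : ℕ → ℝ) : KI (K a f).1 (K a f).2 = (a, f) := by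
  have hc := LamI_nonneg f
  set c := LamI f with hcdef
  set v := tinv (min a (tau (c 0))) with hv
  have hm0 : 0 ≤ min a (tau (c 0)) := le_min h0 (tau_nonneg _)
  have hv0 : 0 ≤ v := tinv_nonneg hm0 (min_lt _ _)
  have htv : tau v = min a (tau (c 0)) := tau_tinv hm0 (min_lt _ _)
  have htl := tau_lt v
  have hpos : 0 < 1 - tau v := by linarith
  have hK2 : (K a f).2 = Lam (Function.update c 0 v) := rfl
  have hK1 : (K a f).1 = (a - tau v) / (1 - tau v) - (c 0 - v) := rfl
  have hL : LamI (K a f).2 = Function.update c 0 v := by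
    rw [hK2]; exact LamI_Lam (upd_nonneg hc hv0)
  unfold KI
  rw [hL, hK1]
  simp only [Function.update_self, Function.update_idem]
  rcases le_total a (tau (c 0)) with h | h
  · have hva : tau v = a := by rw [htv, min_eq_left h]
    have hvc : v ≤ c 0 := by
      by_contra hcon
      push Not at hcon
      have h3 : tau v = tau (c 0) := le_antisymm (by rw [hva]; exact h) (tau_mono hcon.le)
      have h4 : v = c 0 := by rw [← tinv_tau hv0, ← tinv_tau (hc 0), h3]
      linarith
    rw [hva]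
    have hz : (a - a) / (1 - a) - (c 0 - v) = -(c 0 - v) := by simp
    rw [hz, max_eq_right (by linarith : -(c 0 - v) ≤ 0), neg_neg,
      max_eq_left (by linarith : 0 ≤ c 0 - v)]
    have : v + (c 0 - v) = c 0 := by ring
    rw [this, Function.update_eq_self, hcdef, Lam_LamI]
    simp
  · have hvc : v = c 0 := by rw [hv, min_eq_right h, tinv_tau (hc 0)]
    rw [hvc] at hpos ⊢
    have hq : 0 ≤ (a - tau (c 0)) / (1 - tau (c 0)) := div_nonneg (by linarith) hpos.le
    have hz : (a - tau (c 0)) / (1 - tau (c 0)) - (c 0 - c 0) = (a - tau (c 0)) / (1 - tau (c 0)) := by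
      simp
    rw [hz, max_eq_left hq, max_eq_right (by linarith : -((a - tau (c 0)) / (1 - tau (c 0))) ≤ 0),
      add_zero, Function.update_eq_self, hcdef, Lam_LamI, ← hcdef]
    rw [div_mul_cancel₀ _ hpos.ne']
    simp

theorem KI_mem (u : ℝ) (h1 : u ≤ 1) (f : ℕ → ℝ) : 0 ≤ (KI u f).1 ∧ (KI u f).1 ≤ 1 := by
  have h2 := tau_nonneg (LamI f 0)
  have h3 := tau_lt (LamI f 0)
  have h4 : 0 ≤ max u 0 := le_max_right _ _
  have h5 : max u 0 ≤ 1 := max_le h1 zero_le_one
  change 0 ≤ tau (LamI f 0) + max u 0 * (1 - tau (LamI f 0)) ∧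
    tau (LamI f 0) + max u 0 * (1 - tau (LamI f 0)) ≤ 1
  constructor <;> nlinarith

theorem K_le {a : ℝ} (h0 : 0 ≤ a) (h1 : a ≤ 1) (f : ℕ → ℝ) : (K a f).1 ≤ 1 := by
  have hc := LamI_nonneg f
  set c := LamI f with hcdef
  set v := tinv (min a (tau (c 0))) with hv
  have hm0 : 0 ≤ min a (tau (c 0)) := le_min h0 (tau_nonneg _)
  have hv0 : 0 ≤ v := tinv_nonneg hm0 (min_lt _ _)
  have htv : tau v = min a (tau (c 0)) := tau_tinv hm0 (min_lt _ _)
  have htl := tau_lt v
  have hpos : 0 < 1 - tau v := by linarith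
  have hvc : v ≤ c 0 := by
    by_contra hcon
    push Not at hcon
    have h3 : tau v = tau (c 0) :=
      le_antisymm (by rw [htv]; exact min_le_right _ _) (tau_mono hcon.le)
    have h4 : v = c 0 := by rw [← tinv_tau hv0, ← tinv_tau (hc 0), h3]
    linarith
  have hK1 : (K a f).1 = (a - tau v) / (1 - tau v) - (c 0 - v) := rfl
  rw [hK1]
  have : (a - tau v) / (1 - tau v) ≤ 1 := by rw [div_le_one hpos]; linarith
  linarith

theorem K_KI {u : ℝ} (h1 : u ≤ 1) (f : ℕ → ℝ) : K (KI u f).1 (KI u f).2 = (u, f) := by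
  have hc := LamI_nonneg f
  set c := LamI f with hcdef
  have hm : 0 ≤ max (-u) 0 := le_max_right _ _
  have hK1 : (KI u f).1 = tau (c 0) + max u 0 * (1 - tau (c 0)) := rfl
  have hK2 : (KI u f).2 = Lam (Function.update c 0 (c 0 + max (-u) 0)) := rfl
  have hL : LamI (KI u f).2 = Function.update c 0 (c 0 + max (-u) 0) := by
    rw [hK2]; exact LamI_Lam (upd_nonneg hc (add_nonneg (hc 0) hm))
  have htl := tau_lt (c 0)
  have hpos : 0 < 1 - tau (c 0) := by linarith
  have hmin : tinv (min (tau (c 0) + max u 0 * (1 - tau (c 0))) (tau (c 0 + max (-u) 0))) = c 0 := by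
    have h : min (tau (c 0) + max u 0 * (1 - tau (c 0))) (tau (c 0 + max (-u) 0)) = tau (c 0) := by
      rcases le_total 0 u with h0 | h0
      · rw [max_eq_left h0, max_eq_right (by linarith : -u ≤ 0), add_zero]
        exact min_eq_right (by nlinarith)
      · rw [max_eq_right h0, max_eq_left (by linarith : 0 ≤ -u), zero_mul, add_zero]
        exact min_eq_left (tau_mono (by linarith))
    rw [h, tinv_tau (hc 0)]
  unfold K
  rw [hL, hK1]
  simp only [Function.update_self, Function.update_idem]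
  rw [hmin, Function.update_eq_self, hcdef, Lam_LamI, ← hcdef]
  ext1
  · simp only
    rw [add_sub_cancel_left, mul_div_assoc, div_self hpos.ne', mul_one, add_sub_cancel_left]
    rcases le_total 0 u with h0 | h0
    · rw [max_eq_left h0, max_eq_right (by linarith : -u ≤ 0)]; ring
    · rw [max_eq_right h0, max_eq_left (by linarith : 0 ≤ -u)]; ring
  · rfl

theorem K_one (f : ℕ → ℝ) : K 1 f = (1, f) := by
  have h := K_KI (u := 1) le_rfl f
  have h2 : KI 1 f = (1, f) := by
    unfold KI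
    rw [max_eq_left (zero_le_one), max_eq_right (by norm_num : (-1 : ℝ) ≤ 0), add_zero,
      Function.update_eq_self, Lam_LamI]
    ext1
    · simp
    · rfl
  rw [h2] at h
  exact h

theorem KI_one (f : ℕ → ℝ) : KI 1 f = (1, f) := by
  unfold KI
  rw [max_eq_left (zero_le_one), max_eq_right (by norm_num : (-1 : ℝ) ≤ 0), add_zero,
    Function.update_eq_self, Lam_LamI]
  ext1
  · simp
  · rfl

noncomputable def cl (x : ℝ) : ℝ := max (-(1 / 2)) (min x (1 / 2))

theorem cl_cont : Continuous cl := by unfold cl; fun_prop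

theorem cl_abs (x : ℝ) : |cl x| ≤ 1 / 2 := by
  unfold cl
  rw [abs_le]
  exact ⟨le_max_left _ _, max_le (by norm_num) (min_le_right _ _)⟩

noncomputable def sc (x : ℝ) : ℝ := min 1 (2 * (1 - |x|))

theorem sc_cont : Continuous sc := by unfold sc; fun_prop

noncomputable def Cb (p : ℝ × (ℕ → ℝ)) : ℝ × (ℕ → ℝ) :=
  (cl p.1 * (2 - (K (sc p.1) p.2).1), (K (sc p.1) p.2).2)

noncomputable def Cf (p : ℝ × (ℕ → ℝ)) : ℝ × (ℕ → ℝ) :=
  (cl p.1 * (2 - (KI (sc p.1) p.2).1), (KI (sc p.1) p.2).2)

theorem Cb_cont : Continuous Cb := by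
  unfold Cb
  have h := K_cont (sc_cont.comp (continuous_fst : Continuous fun p : ℝ × (ℕ → ℝ) => p.1))
    (continuous_snd : Continuous fun p : ℝ × (ℕ → ℝ) => p.2)
  exact ((cl_cont.comp continuous_fst).mul (continuous_const.sub h.fst)).prodMk h.snd

theorem Cf_cont : Continuous Cf := by
  unfold Cf
  have h := KI_cont (sc_cont.comp (continuous_fst : Continuous fun p : ℝ × (ℕ → ℝ) => p.1))
    (continuous_snd : Continuous fun p : ℝ × (ℕ → ℝ) => p.2)
  exact ((cl_cont.comp continuous_fst).mul (continuous_const.sub h.fst)).prodMk h.snd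

theorem sc_le (x : ℝ) : sc x ≤ 1 := min_le_left _ _
theorem sc_small {x : ℝ} (h : |x| ≤ 1 / 2) : sc x = 1 := min_eq_left (by linarith)
theorem cl_small {x : ℝ} (h : |x| ≤ 1 / 2) : cl x = x := by
  rw [abs_le] at h
  unfold cl
  rw [min_eq_left h.2, max_eq_right h.1]

theorem Cb_small (p : ℝ × (ℕ → ℝ)) (h : |p.1| ≤ 1 / 2) : Cb p = p := by
  unfold Cb
  rw [sc_small h, cl_small h, K_one]
  ext1
  · simp only; ring
  · rfl

theorem Cf_small (p : ℝ × (ℕ → ℝ)) (h : |p.1| ≤ 1 / 2) : Cf p = p := by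
  unfold Cf
  rw [sc_small h, cl_small h, KI_one]
  ext1
  · simp only; ring
  · rfl

/-- large coordinate: sign bookkeeping -/
theorem big {x t : ℝ} (hx : 1 / 2 < |x|) (ht : t ≤ 1) :
    sc (cl x * (2 - t)) = t ∧ cl (cl x * (2 - t)) = cl x ∧ cl x * (2 - sc x) = x := by
  have hs : sc x = 2 * (1 - |x|) := min_eq_right (by linarith)
  rcases le_total 0 x with h0 | h0
  · rw [abs_of_nonneg h0] at hx hs
    have hc : cl x = 1 / 2 := by
      unfold cl; rw [min_eq_right hx.le, max_eq_right (by norm_num)]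
    rw [hc, hs]
    have h1 : |1 / 2 * (2 - t)| = 1 / 2 * (2 - t) := abs_of_nonneg (by linarith)
    refine ⟨?_, ?_, by ring⟩
    · unfold sc
      rw [h1, min_eq_right (by linarith)]
      ring
    · unfold cl
      rw [min_eq_right (by linarith), max_eq_right (by norm_num)]
  · rw [abs_of_nonpos h0] at hx hs
    have hc : cl x = -(1 / 2) := by
      unfold cl; rw [min_eq_left (by linarith), max_eq_left (by linarith)]
    rw [hc, hs]
    have h1 : |-(1 / 2) * (2 - t)| = 1 / 2 * (2 - t) := by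
      rw [neg_mul, abs_neg]; exact abs_of_nonneg (by linarith)
    refine ⟨?_, ?_, by ring⟩
    · unfold sc
      rw [h1, min_eq_right (by linarith)]
      ring
    · unfold cl
      rw [min_eq_left (by linarith), max_eq_left (by linarith)]

theorem Cb_Cf (p : ℝ × (ℕ → ℝ)) : Cb (Cf p) = p := by
  by_cases h : |p.1| ≤ 1 / 2
  · rw [Cf_small p h, Cb_small p h]
  · push Not at h
    have hm := KI_mem (sc p.1) (sc_le _) p.2
    obtain ⟨h1, h2, h3⟩ := big h hm.2
    have e1 : (Cf p).1 = cl p.1 * (2 - (KI (sc p.1) p.2).1) := rfl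
    have e2 : (Cf p).2 = (KI (sc p.1) p.2).2 := rfl
    unfold Cb
    rw [e1, e2, h1, h2, K_KI (sc_le _)]
    ext1
    · exact h3
    · rfl

theorem Cf_Cb (p : ℝ × (ℕ → ℝ)) (hp : |p.1| ≤ 1) : Cf (Cb p) = p := by
  by_cases h : |p.1| ≤ 1 / 2
  · rw [Cb_small p h, Cf_small p h]
  · push Not at h
    have hs0 : 0 ≤ sc p.1 := le_min zero_le_one (by linarith)
    have hm := K_le hs0 (sc_le _) p.2
    obtain ⟨h1, h2, h3⟩ := big h hm
    have e1 : (Cb p).1 = cl p.1 * (2 - (K (sc p.1) p.2).1) := rfl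
    have e2 : (Cb p).2 = (K (sc p.1) p.2).2 := rfl
    unfold Cf
    rw [e1, e2, h1, h2, KI_K hs0 (sc_le _)]
    ext1
    · exact h3
    · rfl

theorem Cf_abs (p : ℝ × (ℕ → ℝ)) : |(Cf p).1| ≤ 1 := by
  have hm := KI_mem (sc p.1) (sc_le _) p.2
  have hc := cl_abs p.1
  change |cl p.1 * (2 - (KI (sc p.1) p.2).1)| ≤ 1
  rw [abs_mul, abs_of_nonneg (by linarith : 0 ≤ 2 - (KI (sc p.1) p.2).1)]
  nlinarith [abs_nonneg (cl p.1)]

theorem absorb : ∃ Cb Cf : ℝ × (ℕ → ℝ) → ℝ × (ℕ → ℝ), Continuous Cb ∧ Continuous Cf ∧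
    (∀ p, |(Cf p).1| ≤ 1) ∧ (∀ p, Cb (Cf p) = p) ∧ (∀ p, |p.1| ≤ 1 → Cf (Cb p) = p) ∧
    (∀ p, |p.1| ≤ 1 / 2 → Cf p = p) ∧ (∀ p, |p.1| ≤ 1 / 2 → Cb p = p) :=
  ⟨Cb, Cf, Cb_cont, Cf_cont, Cf_abs, Cb_Cf, Cf_Cb, Cf_small, Cb_small⟩

end Pool.Agent.H5.Absorb
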