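import Pool.Agent.H5.OPt
set_option autoImplicit false
open Filter Topology Set

namespace Pool.Agent.H5.Aleph
open Pool.Agent.H5.OPt

/-- nodes of the binary tree -/
abbrev T : Type := Σ n : ℕ, (Fin n → Bool)

/-- the node of length `n` on the branch `b` -/
def node (b : ℕ → Bool) (n : ℕ) : T := ⟨n, fun i => b i⟩

/-- index set of the tall space -/
abbrev DX : Type := Σ p : ℕ × T, Fin (2 * p.2.1 + 1)

open Classical in
noncomputable def blk (A : Set DX) (p : ℕ × T) : Finset (Fin (2 * p.2.1 + 1)) :=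
  Finset.univ.filter (fun i => (⟨p, i⟩ : DX) ∈ A)

lemma mem_blk {A : Set DX} {p : ℕ × T} {i : Fin (2 * p.2.1 + 1)} :
    i ∈ blk A p ↔ (⟨p, i⟩ : DX) ∈ A := by
  classical
  unfold blk
  rw [Finset.mem_filter]
  exact ⟨fun h => h.2, fun h => ⟨Finset.mem_univ _, h⟩⟩

lemma blk_le (A : Set DX) (p : ℕ × T) : (blk A p).card ≤ 2 * p.2.1 + 1 := by
  have := Finset.card_le_univ (blk A p)
  rwa [Fintype.card_fin] at this

def smallX (A : Set DX) : Prop := ∀ (k : ℕ) (b : ℕ → Bool), ∃ c, ∀ n, (blk A (k, node b n)).card ≤ c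

lemma smallX_of_le_one {A : Set DX} (h : ∀ p, (blk A p).card ≤ 1) : smallX A :=
  fun k b => ⟨1, fun n => h _⟩

def IX : Idl DX where
  small := smallX
  empty := smallX_of_le_one (fun p => by
    have : blk ∅ p = ∅ := by
      rw [Finset.eq_empty_iff_forall_notMem]
      intro i hi
      exact mem_blk.1 hi
    rw [this]; simp)
  mono := fun hAB hB k b => by
    obtain ⟨c, hc⟩ := hB k b
    exact ⟨c, fun n => le_trans (Finset.card_le_card (fun i hi => mem_blk.2 (hAB (mem_blk.1 hi))))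
      (hc n)⟩
  union := fun {A B} hA hB k b => by
    classical
    obtain ⟨c, hc⟩ := hA k b
    obtain ⟨c', hc'⟩ := hB k b
    refine ⟨c + c', fun n => ?_⟩
    have : blk (A ∪ B) (k, node b n) ⊆ blk A (k, node b n) ∪ blk B (k, node b n) := by
      intro i hi
      rw [Finset.mem_union, mem_blk, mem_blk]
      exact mem_blk.1 hi
    have h1 := Finset.card_le_card this
    have h2 := Finset.card_union_le (blk A (k, node b n)) (blk B (k, node b n))
    have h3 := hc n
    have h4 := hc' n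
    omega
  single := fun d => smallX_of_le_one (fun p => by
    rw [Finset.card_le_one]
    intro i hi i' hi'
    have h1 := mem_blk.1 hi
    have h2 := mem_blk.1 hi'
    rw [mem_singleton_iff] at h1 h2
    have h3 := h1.trans h2.symm
    simpa using h3)

def smallT (A : Set T) : Prop := ∀ b : ℕ → Bool, ∃ c, ∀ n, c ≤ n → node b n ∉ A

def IY : Idl (DX ⊕ T) where
  small A := IX.small {d | Sum.inl d ∈ A} ∧ smallT {t | Sum.inr t ∈ A}
  empty := ⟨by simpa using IX.empty, fun b => ⟨0, fun n _ h => h⟩⟩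
  mono := fun hAB hB => ⟨IX.mono (fun d hd => hAB hd) hB.1, fun b => by
    obtain ⟨c, hc⟩ := hB.2 b
    exact ⟨c, fun n hn h => hc n hn (hAB h)⟩⟩
  union := fun {A B} hA hB => ⟨IX.mono (fun d hd => hd) (IX.union hA.1 hB.1), fun b => by
    obtain ⟨c, hc⟩ := hA.2 b
    obtain ⟨c', hc'⟩ := hB.2 b
    refine ⟨c + c', fun n hn h => ?_⟩
    rcases h with h | h
    · exact hc n (by omega) h
    · exact hc' n (by omega) h⟩
  single := fun d => by
    rcases d with d | t
    · refine ⟨IX.mono (fun e he => ?_) (IX.single d), fun b => ⟨0, fun n _ h => ?_⟩⟩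
      · have : (Sum.inl e : DX ⊕ T) = Sum.inl d := he
        exact Sum.inl_injective this
      · have : (Sum.inr (node b n) : DX ⊕ T) = Sum.inl d := h
        cases this
    · refine ⟨IX.mono (fun e he => ?_) IX.empty, fun b => ⟨t.1 + 1, fun n hn h => ?_⟩⟩
      · have : (Sum.inl e : DX ⊕ T) = Sum.inr t := he
        cases this
      · have h1 : (Sum.inr (node b n) : DX ⊕ T) = Sum.inr t := h
        have h2 := Sum.inr_injective h1
        have h3 : n = t.1 := congrArg Sigma.fst h2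
        omega

abbrev X : Type := Pt IX
abbrev Y : Type := Pt IY

/-! ### the homeomorphism -/

/-- median of a function on the block `p` -/
noncomputable def mX (f : X → ℝ) (p : ℕ × T) : ℝ :=
  med p.2.1 (fun i : Fin (2 * p.2.1 + 1) => f (pin IX ⟨p, i⟩))

noncomputable def mY (g : Y → ℝ) (p : ℕ × T) : ℝ :=
  med p.2.1 (fun i : Fin (2 * p.2.1 + 1) => g (pin IY (Sum.inl ⟨p, i⟩)))

noncomputable def src (g : Y → ℝ) : ℕ × T → ℝ
  | (0, t) => g (pin IY (Sum.inr t))
  | (k + 1, t) => mY g (k, t)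

noncomputable def toX (g : Y → ℝ) : X → ℝ :=
  pcase (g (pinf IY)) (fun d => g (pin IY (Sum.inl d)) - mY g d.1 + src g d.1)

noncomputable def toY (f : X → ℝ) : Y → ℝ :=
  pcase (f (pinf IX)) (Sum.elim
    (fun d => f (pin IX d) - mX f d.1 + mX f (d.1.1 + 1, d.1.2))
    (fun t => mX f (0, t)))

lemma hcard (n : ℕ) : Fintype.card (Fin (2 * n + 1)) = 2 * n + 1 := Fintype.card_fin _
lemma hlt (n : ℕ) : n < Fintype.card (Fin (2 * n + 1)) := by rw [hcard]; omega

lemma mX_toX (g : Y → ℝ) (p : ℕ × T) : mX (toX g) p = src g p := by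
  unfold mX
  have : (fun i : Fin (2 * p.2.1 + 1) => toX g (pin IX ⟨p, i⟩))
      = fun i => g (pin IY (Sum.inl ⟨p, i⟩)) + (- mY g p + src g p) := by
    funext i
    show g (pin IY (Sum.inl ⟨p, i⟩)) - mY g p + src g p = _
    ring
  rw [this, med_add (hlt _)]
  show mY g p + (- mY g p + src g p) = _
  ring

lemma mY_toY (f : X → ℝ) (p : ℕ × T) : mY (toY f) p = mX f (p.1 + 1, p.2) := by
  unfold mY
  have : (fun i : Fin (2 * p.2.1 + 1) => toY f (pin IY (Sum.inl ⟨p, i⟩)))
      = fun i => f (pin IX ⟨p, i⟩) + (- mX f p + mX f (p.1 + 1, p.2)) := by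
    funext i
    show f (pin IX ⟨p, i⟩) - mX f p + mX f (p.1 + 1, p.2) = _
    ring
  rw [this, med_add (hlt _)]
  show mX f p + (- mX f p + mX f (p.1 + 1, p.2)) = _
  ring

lemma toY_toX (g : Y → ℝ) : toY (toX g) = g := by
  funext y
  rcases Ptcases y with rfl | ⟨d | t, rfl⟩
  · rfl
  · obtain ⟨⟨k, t⟩, i⟩ := d
    show toX g (pin IX ⟨(k, t), i⟩) - mX (toX g) (k, t) + mX (toX g) (k + 1, t) = _
    rw [mX_toX, mX_toX]
    show g (pin IY (Sum.inl ⟨(k, t), i⟩)) - mY g (k, t) + src g (k, t) - src g (k, t)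
      + mY g (k, t) = _
    ring
  · show mX (toX g) (0, t) = _
    rw [mX_toX]
    rfl

lemma toX_toY (f : X → ℝ) : toX (toY f) = f := by
  funext y
  rcases Ptcases y with rfl | ⟨⟨⟨k, t⟩, i⟩, rfl⟩
  · rfl
  · have hs : src (toY f) (k, t) = mX f (k, t) := by
      cases k with
      | zero => rfl
      | succ k => exact mY_toY f (k, t)
    show toY f (pin IY (Sum.inl ⟨(k, t), i⟩)) - mY (toY f) (k, t) + src (toY f) (k, t) = _
    rw [hs, mY_toY]
    show f (pin IX ⟨(k, t), i⟩) - mX f (k, t) + mX f (k + 1, t) - mX f (k + 1, t) + mX f (k, t) = _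
    ring

/-- union of blocks which eventually leaves every branch -/
lemma small_blocks {B : Set (ℕ × T)} (hB : ∀ k (b : ℕ → Bool), ∃ c, ∀ n, c ≤ n → (k, node b n) ∉ B) :
    IX.small {d : DX | d.1 ∈ B} := by
  intro k b
  obtain ⟨c, hc⟩ := hB k b
  refine ⟨2 * c + 1, fun n => ?_⟩
  by_cases hn : c ≤ n
  · have : blk {d : DX | d.1 ∈ B} (k, node b n) = ∅ := by
      rw [Finset.eq_empty_iff_forall_notMem]
      intro i hi
      exact hc n hn (mem_blk.1 hi)
    rw [this]; simp
  · refine le_trans (blk_le _ _) ?_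
    show 2 * n + 1 ≤ 2 * c + 1
    omega

lemma big_eq (ε : ℝ) (p : ℕ × T) (x : DX → ℝ) :
    big ε (fun i : Fin (2 * p.2.1 + 1) => x ⟨p, i⟩) = (blk {d | ε < |x d|} p).card := by
  classical
  unfold big blk
  congr 1

lemma med_small {x : DX → ℝ} {ε : ℝ} (hx : IX.small {d | ε < |x d|}) (k : ℕ) (b : ℕ → Bool) :
    ∃ c, ∀ n, c ≤ n → |med n (fun i : Fin (2 * n + 1) => x ⟨(k, node b n), i⟩)| ≤ ε := by
  obtain ⟨c, hc⟩ := hx k b
  refine ⟨c, fun n hn => med_abs_le (hcard n) ?_⟩
  have := big_eq ε (k, node b n) x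
  exact le_trans (le_of_eq this) (le_trans (hc n) hn)

lemma med_sub {n : ℕ} (x : Fin (2 * n + 1) → ℝ) (a : ℝ) :
    med n (fun i => x i - a) = med n x - a := by
  have := med_add (h := n) (hlt n) x (-a)
  simpa [sub_eq_add_neg] using this

lemma toX_cont {g : Y → ℝ} (hg : Continuous g) : Continuous (toX g) := by
  rw [cont_iff] at hg ⊢
  intro ε hε
  set a := g (pinf IY) with ha
  have h1 := (hg (ε / 3) (by positivity)).1
  have h2 := (hg (ε / 3) (by positivity)).2
  -- the function on DX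
  have hm : ∀ k (b : ℕ → Bool), ∃ c, ∀ n, c ≤ n → |mY g (k, node b n) - a| ≤ ε / 3 := by
    intro k b
    obtain ⟨c, hc⟩ := med_small (x := fun d => g (pin IY (Sum.inl d)) - a) h1 k b
    refine ⟨c, fun n hn => ?_⟩
    have := hc n hn
    rw [med_sub] at this
    exact this
  have A2 := small_blocks (B := {p | ε / 3 < |mY g p - a|}) (fun k b => by
    obtain ⟨c, hc⟩ := hm k b
    exact ⟨c, fun n hn h => absurd (hc n hn) (not_le.2 h)⟩)
  have A3 := small_blocks (B := {p | ε / 3 < |src g p - a|}) (fun k b => by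
    cases k with
    | zero =>
        obtain ⟨c, hc⟩ := h2 b
        exact ⟨c, fun n hn h => hc n hn h⟩
    | succ k =>
        obtain ⟨c, hc⟩ := hm k b
        exact ⟨c, fun n hn h => absurd (hc n hn) (not_le.2 h)⟩)
  refine IX.mono ?_ (IX.union (IX.union h1 A2) A3)
  intro d hd
  have hd' : ε < |g (pin IY (Sum.inl d)) - mY g d.1 + src g d.1 - a| := hd
  by_contra hcon
  rw [mem_union, mem_union, not_or, not_or] at hcon
  obtain ⟨⟨c1, c2⟩, c3⟩ := hcon
  have c1' : |g (pin IY (Sum.inl d)) - a| ≤ ε / 3 := not_lt.1 c1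
  have c2' : |mY g d.1 - a| ≤ ε / 3 := not_lt.1 c2
  have c3' : |src g d.1 - a| ≤ ε / 3 := not_lt.1 c3
  have e : g (pin IY (Sum.inl d)) - mY g d.1 + src g d.1 - a
      = (g (pin IY (Sum.inl d)) - a) - (mY g d.1 - a) + (src g d.1 - a) := by ring
  rw [e] at hd'
  have t1 := abs_add_le ((g (pin IY (Sum.inl d)) - a) - (mY g d.1 - a)) (src g d.1 - a)
  have t2 := abs_sub (g (pin IY (Sum.inl d)) - a) (mY g d.1 - a)
  linarith

lemma toY_cont {f : X → ℝ} (hf : Continuous f) : Continuous (toY f) := by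
  rw [cont_iff] at hf ⊢
  intro ε hε
  set a := f (pinf IX) with ha
  have h1 := hf (ε / 3) (by positivity)
  have hm : ∀ k (b : ℕ → Bool), ∃ c, ∀ n, c ≤ n → |mX f (k, node b n) - a| ≤ ε / 3 := by
    intro k b
    obtain ⟨c, hc⟩ := med_small (x := fun d => f (pin IX d) - a) h1 k b
    refine ⟨c, fun n hn => ?_⟩
    have := hc n hn
    rw [med_sub] at this
    exact this
  have A2 := small_blocks (B := {p | ε / 3 < |mX f p - a|}) (fun k b => by
    obtain ⟨c, hc⟩ := hm k b
    exact ⟨c, fun n hn h => absurd (hc n hn) (not_le.2 h)⟩)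
  have A3 := small_blocks (B := {p | ε / 3 < |mX f (p.1 + 1, p.2) - a|}) (fun k b => by
    obtain ⟨c, hc⟩ := hm (k + 1) b
    exact ⟨c, fun n hn h => absurd (hc n hn) (not_le.2 h)⟩)
  constructor
  · refine IX.mono ?_ (IX.union (IX.union h1 A2) A3)
    intro d hd
    have hd' : ε < |f (pin IX d) - mX f d.1 + mX f (d.1.1 + 1, d.1.2) - a| := hd
    by_contra hcon
    rw [mem_union, mem_union, not_or, not_or] at hcon
    obtain ⟨⟨c1, c2⟩, c3⟩ := hcon
    have c1' : |f (pin IX d) - a| ≤ ε / 3 := not_lt.1 c1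
    have c2' : |mX f d.1 - a| ≤ ε / 3 := not_lt.1 c2
    have c3' : |mX f (d.1.1 + 1, d.1.2) - a| ≤ ε / 3 := not_lt.1 c3
    have e : f (pin IX d) - mX f d.1 + mX f (d.1.1 + 1, d.1.2) - a
        = (f (pin IX d) - a) - (mX f d.1 - a) + (mX f (d.1.1 + 1, d.1.2) - a) := by ring
    rw [e] at hd'
    have t1 := abs_add_le ((f (pin IX d) - a) - (mX f d.1 - a)) (mX f (d.1.1 + 1, d.1.2) - a)
    have t2 := abs_sub (f (pin IX d) - a) (mX f d.1 - a)
    linarith
  · intro b
    obtain ⟨c, hc⟩ := hm 0 b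
    refine ⟨c, fun n hn h => ?_⟩
    have h' : ε < |mX f (0, node b n) - a| := h
    have := hc n hn
    linarith

lemma mX_uc {α : Type*} [UniformSpace α] {f : α → X → ℝ}
    (hf : ∀ x, UniformContinuous (fun a => f a x)) (p : ℕ × T) :
    UniformContinuous (fun a => mX (f a) p) :=
  (med_uc (hlt p.2.1)).comp (uniformContinuous_pi.2 (fun i => hf _))

lemma mY_uc {α : Type*} [UniformSpace α] {g : α → Y → ℝ}
    (hg : ∀ x, UniformContinuous (fun a => g a x)) (p : ℕ × T) :
    UniformContinuous (fun a => mY (g a) p) :=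
  (med_uc (hlt p.2.1)).comp (uniformContinuous_pi.2 (fun i => hg _))

lemma toX_uc {α : Type*} [UniformSpace α] {g : α → Y → ℝ}
    (hg : ∀ x, UniformContinuous (fun a => g a x)) (x : X) :
    UniformContinuous (fun a => toX (g a) x) := by
  rcases Ptcases x with rfl | ⟨⟨⟨k, t⟩, i⟩, rfl⟩
  · exact hg _
  · have hs : UniformContinuous (fun a => src (g a) (k, t)) := by
      cases k with
      | zero => exact hg _
      | succ k => exact mY_uc hg (k, t)
    exact ((hg _).sub (mY_uc hg (k, t))).add hs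

lemma toY_uc {α : Type*} [UniformSpace α] {f : α → X → ℝ}
    (hf : ∀ x, UniformContinuous (fun a => f a x)) (y : Y) :
    UniformContinuous (fun a => toY (f a) y) := by
  rcases Ptcases y with rfl | ⟨d | t, rfl⟩
  · exact hf _
  · exact ((hf _).sub (mX_uc hf d.1)).add (mX_uc hf (d.1.1 + 1, d.1.2))
  · exact mX_uc hf (0, t)

/-- uniform homeomorphism of the full products -/
noncomputable def ue0 : UniformEquiv (X → ℝ) (Y → ℝ) where
  toFun := toY
  invFun := toX
  left_inv := toX_toY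
  right_inv := toY_toX
  uniformContinuous_toFun := by
    rw [uniformContinuous_pi]
    exact fun y => toY_uc (fun x => (uniformContinuous_pi.1 uniformContinuous_id) x) y
  uniformContinuous_invFun := by
    rw [uniformContinuous_pi]
    exact fun x => toX_uc (fun y => (uniformContinuous_pi.1 uniformContinuous_id) y) x

noncomputable def ue : UniformEquiv {f : X → ℝ // Continuous f} {g : Y → ℝ // Continuous g} where
  toFun f := ⟨toY f.1, toY_cont f.2⟩
  invFun g := ⟨toX g.1, toX_cont g.2⟩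
  left_inv f := Subtype.ext (toX_toY f.1)
  right_inv g := Subtype.ext (toY_toX g.1)
  uniformContinuous_toFun := by
    refine UniformContinuous.subtype_mk ?_ _
    rw [uniformContinuous_pi]
    exact fun y => toY_uc (fun x => (uniformContinuous_pi.1 uniformContinuous_subtype_val) x) y
  uniformContinuous_invFun := by
    refine UniformContinuous.subtype_mk ?_ _
    rw [uniformContinuous_pi]
    exact fun x => toX_uc (fun y => (uniformContinuous_pi.1 uniformContinuous_subtype_val) y) x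

lemma image_eq : toY '' {f : X → ℝ | Continuous f} = {g : Y → ℝ | Continuous g} := by
  ext g
  constructor
  · rintro ⟨f, hf, rfl⟩
    exact toY_cont hf
  · intro hg
    exact ⟨toX g, toX_cont hg, toY_toX g⟩

/-! ### `X` has only finite compact sets -/

lemma tallX (A : Set DX) (hA : A.Infinite) : ∃ B ⊆ A, B.Infinite ∧ IX.small B := by
  classical
  -- the least element of each nonempty block
  let B : Set DX := {d | d ∈ A ∧ ∀ i : Fin (2 * d.1.2.1 + 1), (⟨d.1, i⟩ : DX) ∈ A → d.2 ≤ i}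
  refine ⟨B, fun d hd => hd.1, ?_, ?_⟩
  · intro hfin
    apply hA
    have h1 : (Sigma.fst '' B).Finite := hfin.image _
    have h2 : A ⊆ ⋃ p ∈ Sigma.fst '' B, Set.range (fun i : Fin (2 * p.2.1 + 1) => (⟨p, i⟩ : DX)) := by
      rintro ⟨p, i⟩ hpi
      rw [mem_iUnion₂]
      have hne : (blk A p).Nonempty := ⟨i, mem_blk.2 hpi⟩
      obtain ⟨i0, hi0, hmin⟩ := Finset.exists_min_image _ (fun i => i) hne
      refine ⟨p, ⟨⟨p, i0⟩, ⟨mem_blk.1 hi0, fun i' hi' => hmin i' (mem_blk.2 hi')⟩, rfl⟩, i, rfl⟩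
    exact (h1.biUnion (fun p _ => Set.finite_range _)).subset h2
  · apply smallX_of_le_one
    intro p
    rw [Finset.card_le_one]
    intro i hi i' hi'
    have h1 : (⟨p, i⟩ : DX) ∈ B := mem_blk.1 hi
    have h2 : (⟨p, i'⟩ : DX) ∈ B := mem_blk.1 hi'
    exact le_antisymm (h1.2 i' h2.1) (h2.2 i h1.1)

lemma compactX {K : Set X} (hK : IsCompact K) : K.Finite := compact_finite tallX hK

instance : Countable X := inferInstanceAs (Countable (Option DX))

/-! ### `Y` has no countable `k`-network -/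

def onb (b : ℕ → Bool) (t : T) : Prop := ∀ i : Fin t.1, t.2 i = b i

def agree (b : ℕ → Bool) (M : ℕ) (t : T) : Prop := M ≤ t.1 ∧ ∀ i : Fin t.1, i.1 < M → t.2 i = b i

lemma onb_iff {b : ℕ → Bool} {t : T} (h : onb b t) : t = node b t.1 := by
  obtain ⟨n, s⟩ := t
  have : s = fun i : Fin n => b i := funext (fun i => h i)
  subst this
  rfl

def nd (t : T) : Y := pin IY (Sum.inr t)

def Bad (N : Set Y) (t : T) : Set (ℕ → Bool) :=
  {b | onb b t ∧ {n | nd (node b n) ∈ N}.Infinite ∧ ∀ t', agree b t.1 t' → nd t' ∈ N → onb b t'}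

lemma Bad_sub (N : Set Y) (t : T) : (Bad N t).Subsingleton := by
  intro b hb b' hb'
  funext i
  obtain ⟨n, hn, hni⟩ := hb.2.1.exists_gt (max i t.1)
  have h1 : i < n := lt_of_le_of_lt (le_max_left _ _) hni
  have h2 : t.1 < n := lt_of_le_of_lt (le_max_right _ _) hni
  have hag : agree b' t.1 (node b n) := by
    refine ⟨h2.le, fun j hj => ?_⟩
    show b j = b' j
    have e1 := hb.1 ⟨j.1, hj⟩
    have e2 := hb'.1 ⟨j.1, hj⟩
    exact e1.symm.trans e2
  exact hb'.2.2 (node b n) hag hn ⟨i, h1⟩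

lemma compact_branch (b : ℕ → Bool) :
    IsCompact (insert (pinf IY) (Set.range (fun n => nd (node b n)))) := by
  apply Filter.Tendsto.isCompact_insert_range
  rw [tendsto_nhds]
  intro U hU h0
  obtain ⟨c, hc⟩ := (hU h0).2 b
  refine mem_atTop_sets.2 ⟨c, fun n hn => ?_⟩
  by_contra hcon
  exact hc n hn hcon

theorem no_network (N : Set (Set Y)) (hN : N.Countable) (H : ∀ K U : Set Y, IsCompact K → IsOpen U →
    K ⊆ U → ∃ F : Set (Set Y), F.Finite ∧ F ⊆ N ∧ K ⊆ ⋃₀ F ∧ ⋃₀ F ⊆ U) : False := by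
  classical
  obtain ⟨f, hf⟩ := Set.countable_iff_exists_subset_range.1 hN
  have hcount : (⋃ p : ℕ × T, Bad (f p.1) p.2).Countable :=
    Set.countable_iUnion (fun p => (Bad_sub _ _).countable)
  obtain ⟨b, hb⟩ : ∃ b, b ∉ ⋃ p : ℕ × T, Bad (f p.1) p.2 := by
    by_contra hcon
    push Not at hcon
    have : (Set.univ : Set (ℕ → Bool)).Countable := hcount.mono (fun b _ => hcon b)
    rw [Set.countable_univ_iff] at this
    obtain ⟨e, he⟩ := exists_surjective_nat (ℕ → Bool)
    obtain ⟨n, hn⟩ := he (fun n => !(e n n))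
    have := congrFun hn n
    simp at this
  have hb' : ∀ j t, onb b t → {n | nd (node b n) ∈ f j}.Infinite →
      ∃ t', agree b t.1 t' ∧ nd t' ∈ f j ∧ ¬ onb b t' := by
    intro j t h1 h2
    by_contra hcon
    push Not at hcon
    exact hb (mem_iUnion.2 ⟨(j, t), h1, h2, fun t' h3 h4 => hcon t' h3 h4⟩)
  have hch : ∀ j, ∃ t' : T, {n | nd (node b n) ∈ f j}.Infinite →
      (agree b j t' ∧ nd t' ∈ f j ∧ ¬ onb b t') := by
    intro j
    by_cases hinf : {n | nd (node b n) ∈ f j}.Infinite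
    · obtain ⟨t', ht'⟩ := hb' j (node b j) (fun i => rfl) hinf
      exact ⟨t', fun _ => ht'⟩
    · exact ⟨node b 0, fun h => absurd h hinf⟩
  choose τ hτ using hch
  let J : Set ℕ := {j | {n | nd (node b n) ∈ f j}.Infinite}
  let U : Set Y := {y | ∀ j ∈ J, y ≠ nd (τ j)}
  have hU : IsOpen U := by
    rw [OPt.isOpen_iff]
    intro _
    constructor
    · refine IX.mono ?_ IX.empty
      intro d hd
      apply hd
      intro j _ h
      have : (Sum.inl d : DX ⊕ T) = Sum.inr (τ j) := pin_inj h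
      cases this
    · intro c
      by_cases hcb : c = b
      · refine ⟨0, fun n _ h => ?_⟩
        apply h
        intro j hj h2
        have h3 : node c n = τ j := Sum.inr_injective (pin_inj h2)
        apply (hτ j hj).2.2
        rw [← h3, hcb]
        exact fun i => rfl
      · obtain ⟨L, hL⟩ : ∃ L, c L ≠ b L := by
          by_contra hcon
          push Not at hcon
          exact hcb (funext hcon)
        -- only j ≤ L can occur
        obtain ⟨M, hM⟩ := ((Set.finite_Iic L).image (fun j => (τ j).1)).bddAbove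
        refine ⟨M + 1, fun n hn h => ?_⟩
        apply h
        intro j hj h2
        have h3 : node c n = τ j := Sum.inr_injective (pin_inj h2)
        have h4 := (hτ j hj).1
        by_cases hjL : j ≤ L
        · have h5 : (τ j).1 ≤ M := hM ⟨j, hjL, rfl⟩
          have h6 : (node c n).1 = (τ j).1 := congrArg Sigma.fst h3
          have h7 : n = (τ j).1 := h6
          omega
        · push Not at hjL
          rw [← h3] at h4
          have hLn : L < (node c n).1 := lt_of_lt_of_le hjL h4.1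
          have := h4.2 ⟨L, hLn⟩ hjL
          exact hL this
  have hKU : insert (pinf IY) (Set.range (fun n => nd (node b n))) ⊆ U := by
    rintro y (rfl | ⟨n, rfl⟩)
    · intro j _ h
      exact pin_ne _ h.symm
    · intro j hj h
      have h3 : node b n = τ j := Sum.inr_injective (pin_inj h)
      apply (hτ j hj).2.2
      rw [← h3]
      exact fun i => rfl
  obtain ⟨F, hFf, hFN, hKF, hFU⟩ := H _ U (compact_branch b) hU hKU
  -- pigeonhole
  have hcov : (Set.univ : Set ℕ) ⊆ ⋃ S ∈ F, {n | nd (node b n) ∈ S} := by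
    intro n _
    obtain ⟨S, hS, hn⟩ := hKF (Or.inr ⟨n, rfl⟩)
    rw [mem_iUnion₂]
    exact ⟨S, hS, hn⟩
  obtain ⟨S, hS, hSinf⟩ : ∃ S ∈ F, {n | nd (node b n) ∈ S}.Infinite := by
    by_contra hcon
    push Not at hcon
    have : (⋃ S ∈ F, {n | nd (node b n) ∈ S}).Finite :=
      hFf.biUnion (fun S hS => hcon S hS)
    exact Set.infinite_univ (this.subset hcov)
  obtain ⟨j, hj⟩ := hf (hFN hS)
  have hjJ : j ∈ J := by
    show {n | nd (node b n) ∈ f j}.Infinite
    rw [hj]
    exact hSinf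
  have h1 : nd (τ j) ∈ S := by
    rw [← hj]
    exact (hτ j hjJ).2.1
  exact hFU ⟨S, hS, h1⟩ j hjJ rfl

theorem main1 :
    ¬ (∀ (X Y : Type) [TopologicalSpace X] [TopologicalSpace Y] [T35Space X] [T35Space Y],
      (∃ N : Set (Set X), N.Countable ∧
        ∀ K U : Set X, IsCompact K → IsOpen U → K ⊆ U →
          ∃ F : Finset (Set X), (↑F : Set (Set X)) ⊆ N ∧
            K ⊆ ⋃₀ (↑F : Set (Set X)) ∧ ⋃₀ (↑F : Set (Set X)) ⊆ U) →
      Nonempty (UniformEquiv {f : X → ℝ // Continuous f} {g : Y → ℝ // Continuous g}) →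
      (∃ N : Set (Set Y), N.Countable ∧
        ∀ K U : Set Y, IsCompact K → IsOpen U → K ⊆ U →
          ∃ F : Finset (Set Y), (↑F : Set (Set Y)) ⊆ N ∧
            K ⊆ ⋃₀ (↑F : Set (Set Y)) ∧ ⋃₀ (↑F : Set (Set Y)) ⊆ U)) := by
  classical
  intro H
  obtain ⟨N, hN, hN2⟩ := H X Y ⟨Set.range (fun x : X => ({x} : Set X)), Set.countable_range _, by
    intro K U hK _ hKU
    have hfin := compactX hK
    refine ⟨hfin.toFinset.image (fun x => ({x} : Set X)), ?_, ?_, ?_⟩
    · intro S hS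
      rw [Finset.mem_coe, Finset.mem_image] at hS
      obtain ⟨x, _, rfl⟩ := hS
      exact ⟨x, rfl⟩
    · intro x hx
      exact ⟨{x}, by
        rw [Finset.mem_coe, Finset.mem_image]
        exact ⟨x, hfin.mem_toFinset.2 hx, rfl⟩, rfl⟩
    · rintro x ⟨S, hS, hxS⟩
      rw [Finset.mem_coe, Finset.mem_image] at hS
      obtain ⟨x', hx', rfl⟩ := hS
      rw [mem_singleton_iff.1 hxS]
      exact hKU (hfin.mem_toFinset.1 hx')⟩ ⟨ue⟩
  refine no_network N hN (fun K U hK hU hKU => ?_)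
  obtain ⟨F, h1, h2, h3⟩ := hN2 K U hK hU hKU
  exact ⟨↑F, F.finite_toSet, h1, h2, h3⟩

theorem main2 :
    ¬ (∀ (X Y : Type) [TopologicalSpace X] [TopologicalSpace Y] [T35Space X] [T35Space Y],
      (∃ φ : (X → ℝ) ≃ₜ (Y → ℝ),
          φ '' {f : X → ℝ | Continuous f} = {g : Y → ℝ | Continuous g}) →
      (∃ 𝒩 : Set (Set X), 𝒩.Countable ∧
          ∀ K U : Set X, IsCompact K → IsOpen U → K ⊆ U →
            ∃ F : Set (Set X), F.Finite ∧ F ⊆ 𝒩 ∧ K ⊆ ⋃₀ F ∧ ⋃₀ F ⊆ U) →
      (∃ 𝒩 : Set (Set Y), 𝒩.Countable ∧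
          ∀ K U : Set Y, IsCompact K → IsOpen U → K ⊆ U →
            ∃ F : Set (Set Y), F.Finite ∧ F ⊆ 𝒩 ∧ K ⊆ ⋃₀ F ∧ ⋃₀ F ⊆ U)) := by
  classical
  intro H
  obtain ⟨N, hN, hN2⟩ := H X Y ⟨ue0.toHomeomorph, image_eq⟩
    ⟨Set.range (fun x : X => ({x} : Set X)), Set.countable_range _, by
      intro K U hK _ hKU
      refine ⟨(fun x => ({x} : Set X)) '' K, (compactX hK).image _, ?_, ?_, ?_⟩
      · rintro S ⟨x, _, rfl⟩
        exact ⟨x, rfl⟩
      · intro x hx
        exact ⟨{x}, ⟨x, hx, rfl⟩, rfl⟩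
      · rintro x ⟨S, ⟨x', hx', rfl⟩, hxS⟩
        rw [mem_singleton_iff.1 hxS]
        exact hKU hx'⟩
  exact no_network N hN hN2

end Pool.Agent.H5.Aleph
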