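import Mathlib

set_option autoImplicit false

open Set Filter Topology Cardinal

namespace Pool.Agent.H5.CubeIm

/-- iterated power sets -/
def S : ℕ → Type
  | 0 => ℕ
  | n + 1 => Set (S n)

/-- the index set of the cube -/
abbrev T : Type := Σ n, Set (S n)

/-- the exponent -/
abbrev I : Type := Σ n, S n

theorem card_T_le : #T ≤ #I := by
  let f : T → I := fun t => ⟨t.1 + 1, t.2⟩
  apply mk_le_of_injective (f := f)
  rintro ⟨n, A⟩ ⟨m, B⟩ h
  have h1 : n + 1 = m + 1 := congrArg Sigma.fst h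
  have h3 : n = m := by omega
  subst h3
  have h2 : A = B := eq_of_heq (Sigma.mk.inj h).2
  rw [h2]

theorem infinite_T : Infinite T :=
  Infinite.of_injective (fun n : ℕ => (⟨n, ∅⟩ : T)) (fun a b h => by
    have := congrArg Sigma.fst h
    exact this)

theorem unc_I : ℵ₀ < #I := by
  have h1 : #(Set ℕ) ≤ #I := by
    apply mk_le_of_injective (f := fun A : Set ℕ => (⟨1, A⟩ : I))
    intro A B h
    exact eq_of_heq (Sigma.mk.inj h).2
  refine lt_of_lt_of_le ?_ h1
  rw [mk_set, mk_nat]
  exact cantor ℵ₀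

/-- the canonical points -/
noncomputable def e (i : I) : T → Bool := by
  classical
  exact fun t => if h : i.1 = t.1 then decide (cast (congrArg S h) i.2 ∈ t.2) else false

theorem e_same (n : ℕ) (s : S n) (A : Set (S n)) : e ⟨n, s⟩ ⟨n, A⟩ = true ↔ s ∈ A := by
  classical
  unfold e
  simp

theorem e_ne (n m : ℕ) (h : n ≠ m) (s : S n) (A : Set (S m)) : e ⟨n, s⟩ ⟨m, A⟩ = false := by
  classical
  unfold e
  simp [h]

/-- the map onto the cube exists -/
theorem exists_onto : ∃ φ : {f : (T → Bool) → ℝ // Continuous f} → (I → unitInterval),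
    Continuous φ ∧ Function.Surjective φ := by
  classical
  obtain ⟨h, hc, hs⟩ := exists_nat_bool_continuous_surjective_of_compact unitInterval
  let h0 : ℝ := h (fun _ => false)
  refine ⟨fun f i => projIcc 0 1 zero_le_one ((2 : ℝ) ^ i.1 * f.1 (e i) + h0), ?_, ?_⟩
  · apply continuous_pi
    intro i
    apply continuous_projIcc.comp
    exact (continuous_const.mul ((continuous_apply _).comp continuous_subtype_val)).add
      continuous_const
  · intro g
    choose c hcg using fun i : I => hs (g i)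
    let A : (n : ℕ) → (k : ℕ) → Set (S n) := fun n k => {s | c ⟨n, s⟩ k = true}
    let Fn : ℕ → (T → Bool) → ℝ := fun n x => (h (fun k => x ⟨n, A n k⟩) : ℝ)
    have hFn : ∀ n, Continuous (Fn n) := by
      intro n
      apply continuous_subtype_val.comp
      apply hc.comp
      apply continuous_pi
      intro k
      exact continuous_apply _
    have hF01 : ∀ n x, 0 ≤ Fn n x ∧ Fn n x ≤ 1 := fun n x => (h _).2
    have hh0 : 0 ≤ h0 ∧ h0 ≤ 1 := (h _).2
    let F : (T → Bool) → ℝ := fun x => ∑' n, (1 / 2 : ℝ) ^ n * (Fn n x - h0)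
    have hF : Continuous F := by
      apply continuous_tsum (f := fun n x => (1 / 2 : ℝ) ^ n * (Fn n x - h0))
        (fun n => continuous_const.mul ((hFn n).sub continuous_const)) summable_geometric_two
      intro n x
      have h1 := hF01 n x
      rw [norm_mul, Real.norm_eq_abs, Real.norm_eq_abs, abs_of_pos (by positivity)]
      have h2 : |Fn n x - h0| ≤ 1 := by
        rw [abs_le]
        constructor <;> linarith [h1.1, h1.2, hh0.1, hh0.2]
      calc (1 / 2 : ℝ) ^ n * |Fn n x - h0| ≤ (1 / 2 : ℝ) ^ n * 1 := by gcongr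
        _ = (1 / 2 : ℝ) ^ n := mul_one _
    refine ⟨⟨F, hF⟩, ?_⟩
    funext i
    obtain ⟨n, s⟩ := i
    have h3 : F (e ⟨n, s⟩) = (1 / 2 : ℝ) ^ n * ((g ⟨n, s⟩ : ℝ) - h0) := by
      show ∑' m, (1 / 2 : ℝ) ^ m * (Fn m (e ⟨n, s⟩) - h0) = _
      rw [tsum_eq_single n]
      · have h4 : Fn n (e ⟨n, s⟩) = g ⟨n, s⟩ := by
          show (h (fun k => e ⟨n, s⟩ ⟨n, A n k⟩) : ℝ) = _
          have h5 : (fun k => e ⟨n, s⟩ ⟨n, A n k⟩) = c ⟨n, s⟩ := by
            funext k
            have h6 := e_same n s (A n k)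
            by_cases h7 : c ⟨n, s⟩ k = true
            · rw [h7, h6]
              exact h7
            · have h8 : ¬ e ⟨n, s⟩ ⟨n, A n k⟩ = true := fun h9 => h7 (h6.1 h9)
              rw [Bool.not_eq_true] at h7 h8
              rw [h7, h8]
          rw [h5, hcg]
        rw [h4]
      · intro m hm
        have h4 : Fn m (e ⟨n, s⟩) = h0 := by
          show (h (fun k => e ⟨n, s⟩ ⟨m, A m k⟩) : ℝ) = _
          have h5 : (fun k => e ⟨n, s⟩ ⟨m, A m k⟩) = fun _ => false := by
            funext k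
            exact e_ne n m (Ne.symm hm) s _
          rw [h5]
        rw [h4, sub_self, mul_zero]
    show projIcc 0 1 zero_le_one ((2 : ℝ) ^ n * F (e ⟨n, s⟩) + h0) = g ⟨n, s⟩
    rw [h3]
    have h10 : (2 : ℝ) ^ n * ((1 / 2 : ℝ) ^ n * ((g ⟨n, s⟩ : ℝ) - h0)) + h0 = g ⟨n, s⟩ := by
      rw [← mul_assoc, ← mul_pow]
      norm_num
    rw [h10, projIcc_val]

/-- cylinders -/
def cyl (c : Finset (T × Bool)) : Set (T → Bool) := {x | ∀ q ∈ c, x q.1 = q.2}

theorem cyl_open (c : Finset (T × Bool)) : IsOpen (cyl c) := by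
  have : cyl c = ⋂ q ∈ c, {x : T → Bool | x q.1 = q.2} := by
    ext x; simp [cyl]
  rw [this]
  apply isOpen_biInter_finset
  intro q _
  have h : Continuous (fun x : T → Bool => x q.1) := continuous_apply q.1
  exact (isOpen_discrete ({q.2} : Set Bool)).preimage h

theorem exists_cyl (x : T → Bool) (U : Set (T → Bool)) (hU : U ∈ 𝓝 x) :
    ∃ c, x ∈ cyl c ∧ cyl c ⊆ U := by
  classical
  rw [nhds_pi, Filter.mem_pi'] at hU
  obtain ⟨J, t, ht, htU⟩ := hU
  refine ⟨J.image (fun j => (j, x j)), ?_, ?_⟩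
  · intro q hq
    obtain ⟨j, _, rfl⟩ := Finset.mem_image.1 hq
    rfl
  · intro y hy
    apply htU
    intro j hj
    have h1 : y j = x j := hy (j, x j) (Finset.mem_image_of_mem _ hj)
    rw [h1]
    exact mem_of_mem_nhds (ht j)

theorem no_D (D : Set (T → Bool)) (hD : DiscreteTopology D) (hcard : #D = #I)
    (hext : ∀ g : D → ℝ, Continuous g → (∃ M : ℝ, ∀ x : D, |g x| ≤ M) →
          ∃ G : (T → Bool) → ℝ, Continuous G ∧ ∀ x : D, G (x : T → Bool) = g x) : False := by
  classical
  have := infinite_T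
  have key : ∀ A : Set D, ∃ P : Finset (Finset (T × Bool)),
      ∀ x : D, (∃ c ∈ P, x.1 ∈ cyl c) ↔ x ∈ A := by
    intro A
    obtain ⟨G, hG, hGA⟩ := hext (fun x => if x ∈ A then 1 else 0) continuous_of_discreteTopology
      ⟨1, fun x => by split_ifs <;> simp⟩
    have hK : IsCompact {x | 1 ≤ G x} := (isClosed_le continuous_const hG).isCompact
    have hO : IsOpen {x | 1 / 2 < G x} := isOpen_lt continuous_const hG
    have hch : ∀ x : (T → Bool), x ∈ {x | 1 ≤ G x} → ∃ c, x ∈ cyl c ∧ cyl c ⊆ {x | 1 / 2 < G x} := by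
      intro x hx
      apply exists_cyl
      apply hO.mem_nhds
      have : 1 ≤ G x := hx
      show 1 / 2 < G x
      linarith
    choose! c hc1 hc2 using hch
    obtain ⟨t, ht1, ht2⟩ := hK.elim_nhds_subcover (fun x => cyl (c x))
      (fun x hx => (cyl_open _).mem_nhds (hc1 x hx))
    refine ⟨t.image c, ?_⟩
    intro x
    have hx := hGA x
    constructor
    · rintro ⟨c', hc', hxc⟩
      obtain ⟨z, hz, rfl⟩ := Finset.mem_image.1 hc'
      have h1 : 1 / 2 < G x := hc2 z (ht1 z hz) hxc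
      by_contra hcon
      rw [if_neg hcon] at hx
      rw [hx] at h1
      norm_num at h1
    · intro hxA
      rw [if_pos hxA] at hx
      have h1 : x.1 ∈ ⋃ z ∈ t, cyl (c z) := ht2 (show 1 ≤ G x by rw [hx])
      simp only [mem_iUnion] at h1
      obtain ⟨z, hz, hxz⟩ := h1
      exact ⟨c z, Finset.mem_image_of_mem _ hz, hxz⟩
  choose P hP using key
  have hinj : Function.Injective P := by
    intro A B hAB
    ext x
    rw [← hP A x, hAB, hP B x]
  have h1 : #(Set D) ≤ #(Finset (Finset (T × Bool))) := mk_le_of_injective hinj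
  rw [mk_finset_of_infinite, mk_finset_of_infinite, mk_set, hcard] at h1
  have h2 : #(T × Bool) ≤ #T := by
    rw [mk_prod]
    simp only [lift_uzero, mk_bool]
    have h3 : ℵ₀ ≤ #T := aleph0_le_mk T
    exact (mul_le_mul' le_rfl ((natCast_lt_aleph0 (n := 2)).le.trans h3)).trans (mul_eq_self h3).le
  exact absurd (cantor #I) (not_lt.2 (h1.trans (h2.trans card_T_le)))

end Pool.Agent.H5.CubeIm
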