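import Mathlib

set_option autoImplicit false

open Set Cardinal

namespace Pool.Agent.H5.Eb

section Closure

variable {Z : Type}

/-- `T` is closed under the operation `D`. -/
def Cls (D : List Z → Set Z) (T : Set Z) : Prop :=
  ∀ w : List Z, (∀ x ∈ w, x ∈ T) → D w ⊆ T

/-- the closure of `S` under `D`. -/
def Hull (D : List Z → Set Z) (S : Set Z) : Set Z := ⋂₀ {T | S ⊆ T ∧ Cls D T}

theorem subset_hull (D : List Z → Set Z) (S : Set Z) : S ⊆ Hull D S := by
  intro x hx T hT
  exact hT.1 hx

theorem cls_hull (D : List Z → Set Z) (S : Set Z) : Cls D (Hull D S) := by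
  intro w hw x hx T hT
  exact hT.2 w (fun y hy => hw y hy T hT) hx

theorem hull_min {D : List Z → Set Z} {S T : Set Z} (h : S ⊆ T) (hT : Cls D T) :
    Hull D S ⊆ T := fun _ hx => hx T ⟨h, hT⟩

theorem hull_mono {D : List Z → Set Z} {S S' : Set Z} (h : S ⊆ S') : Hull D S ⊆ Hull D S' :=
  hull_min (h.trans (subset_hull D S')) (cls_hull D S')

theorem list_mem_dir {ι : Type*} [Nonempty ι] (S : ι → Set Z) (hS : Directed (· ⊆ ·) S)
    (w : List Z) (hw : ∀ x ∈ w, x ∈ ⋃ i, S i) : ∃ i, ∀ x ∈ w, x ∈ S i := by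
  induction w with
  | nil => exact ⟨Classical.arbitrary ι, by simp⟩
  | cons a w ih =>
    obtain ⟨i, hi⟩ := ih (fun x hx => hw x (List.mem_cons_of_mem _ hx))
    obtain ⟨j, hj⟩ := mem_iUnion.1 (hw a (by simp))
    obtain ⟨k, hik, hjk⟩ := hS i j
    refine ⟨k, ?_⟩
    intro x hx
    rcases List.mem_cons.1 hx with rfl | hx
    · exact hjk hj
    · exact hik (hi x hx)

theorem hull_iUnion {ι : Type*} [Nonempty ι] (D : List Z → Set Z) (S : ι → Set Z)
    (hS : Directed (· ⊆ ·) S) : Hull D (⋃ i, S i) = ⋃ i, Hull D (S i) := by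
  apply Subset.antisymm
  · apply hull_min
    · exact iUnion_mono (fun i => subset_hull D (S i))
    · intro w hw
      have hdir : Directed (· ⊆ ·) (fun i => Hull D (S i)) := by
        intro i j
        obtain ⟨k, h1, h2⟩ := hS i j
        exact ⟨k, hull_mono h1, hull_mono h2⟩
      obtain ⟨i, hi⟩ := list_mem_dir _ hdir w hw
      exact (cls_hull D (S i) w hi).trans (subset_iUnion (fun i => Hull D (S i)) i)
  · apply iUnion_subset
    intro i
    exact hull_mono (subset_iUnion S i)

/-- the stages -/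
def stg (D : List Z → Set Z) (S : Set Z) : ℕ → Set Z
  | 0 => S
  | n + 1 => stg D S n ∪ ⋃ w : List (stg D S n), D (w.map Subtype.val)

theorem card_stg (D : List Z → Set Z) (hD : ∀ w, (D w).Countable) (S : Set Z) (n : ℕ) :
    #(stg D S n) ≤ max #S ℵ₀ := by
  induction n with
  | zero => exact le_max_left _ _
  | succ n ih =>
    have hinf : ℵ₀ ≤ max #S ℵ₀ := le_max_right _ _
    show #((stg D S n ∪ ⋃ w : List (stg D S n), D (w.map Subtype.val) : Set Z)) ≤ _
    refine (mk_union_le _ _).trans ?_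
    refine (add_le_add ih ?_).trans (add_eq_self hinf).le
    refine (mk_iUnion_le _).trans ?_
    have h1 : #(List (stg D S n)) ≤ max #S ℵ₀ := by
      refine (mk_list_le_max _).trans ?_
      exact max_le hinf ih
    have h2 : (⨆ w : List (stg D S n), #(D (w.map Subtype.val))) ≤ ℵ₀ := by
      apply ciSup_le'
      intro w
      exact (hD _).le_aleph0
    refine (mul_le_mul' h1 (h2.trans hinf)).trans (mul_eq_self hinf).le

theorem hull_subset_stg (D : List Z → Set Z) (S : Set Z) : Hull D S ⊆ ⋃ n, stg D S n := by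
  apply hull_min
  · exact subset_iUnion (stg D S) 0
  · intro w hw
    have hmono : Monotone (stg D S) := by
      apply monotone_nat_of_le_succ
      intro n
      exact subset_union_left
    have hdir : Directed (· ⊆ ·) (stg D S) := hmono.directed_le
    obtain ⟨n, hn⟩ := list_mem_dir _ hdir w hw
    intro x hx
    refine mem_iUnion.2 ⟨n + 1, ?_⟩
    right
    refine mem_iUnion.2 ⟨w.pmap Subtype.mk hn, ?_⟩
    have : (w.pmap Subtype.mk hn).map Subtype.val = w := by
      rw [List.map_pmap]
      simp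
    rw [this]
    exact hx

theorem card_hull (D : List Z → Set Z) (hD : ∀ w, (D w).Countable) (S : Set Z) :
    #(Hull D S) ≤ max #S ℵ₀ := by
  have hinf : ℵ₀ ≤ max #S ℵ₀ := le_max_right _ _
  refine (mk_le_mk_of_subset (hull_subset_stg D S)).trans ?_
  refine (mk_iUnion_le _).trans ?_
  have h2 : (⨆ n : ℕ, #(stg D S n)) ≤ max #S ℵ₀ := by
    apply ciSup_le'
    intro n
    exact card_stg D hD S n
  refine (mul_le_mul' (by simp : #ℕ ≤ max #S ℵ₀) h2).trans (mul_eq_self hinf).le

end Closure

end Pool.Agent.H5.Eb
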