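import Mathlib
import Pool.Agent.H5.EbClo

set_option autoImplicit false

open Set Cardinal Filter Topology

namespace Pool.Agent.H5.Eb

/-- a countable subset of `K` approximating each `k` on the finite list `w ⊆ L`. -/
theorem exists_countable_approx {K L : Type} (Φ : K → L → ℝ) (w : List L) :
    ∃ t : Set K, t.Countable ∧ ∀ k : K, ∀ ε : ℝ, 0 < ε → ∃ b ∈ t, ∀ a ∈ w, |Φ b a - Φ k a| < ε := by
  classical
  let g : K → (Fin w.length → ℝ) := fun k i => Φ k (w.get i)
  obtain ⟨t, htr, htc, htd⟩ :=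
    (TopologicalSpace.IsSeparable.of_separableSpace (range g)).exists_countable_dense_subset
  have hch : ∀ y : t, ∃ k : K, g k = y := fun y => htr y.2
  choose c hc using hch
  have : Countable t := htc.to_subtype
  refine ⟨range c, countable_range c, ?_⟩
  intro k ε hε
  have hk : g k ∈ closure t := htd ⟨k, rfl⟩
  rw [Metric.mem_closure_iff] at hk
  obtain ⟨y, hy, hyd⟩ := hk ε hε
  refine ⟨c ⟨y, hy⟩, ⟨_, rfl⟩, ?_⟩
  intro a ha
  obtain ⟨i, hi⟩ := List.get_of_mem ha
  have h1 : dist (g k i) (y i) < ε := lt_of_le_of_lt (dist_le_pi_dist _ _ i) hyd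
  have h2 : g (c ⟨y, hy⟩) i = y i := by rw [hc]
  have h3 : Φ (c ⟨y, hy⟩) a = y i := by rw [← hi]; exact h2
  have h4 : g k i = Φ k a := by rw [← hi]
  rw [h3, abs_sub_comm, ← h4, ← Real.dist_eq]
  exact h1

section AL

variable {K L : Type} [TopologicalSpace K] [CompactSpace K] [T2Space K]
  [TopologicalSpace L] [CompactSpace L] (Φ : K → L → ℝ)

/-- the `K`-part. -/
def KP (T : Set (K ⊕ L)) : Set K := {k | Sum.inl k ∈ T}
/-- the `L`-part. -/
def LP (T : Set (K ⊕ L)) : Set L := {l | Sum.inr l ∈ T}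

/-- good sets -/
structure Good (T : Set (K ⊕ L)) : Prop where
  g1 : ∀ k : K, ∀ w : List L, (∀ a ∈ w, a ∈ LP T) → ∀ ε : ℝ, 0 < ε →
    ∃ b ∈ KP T, ∀ a ∈ w, |Φ b a - Φ k a| < ε
  g2 : ∀ l : L, ∀ w : List K, (∀ b ∈ w, b ∈ KP T) → ∀ ε : ℝ, 0 < ε →
    ∃ a ∈ LP T, ∀ b ∈ w, |Φ b a - Φ b l| < ε

omit [TopologicalSpace K] [CompactSpace K] [T2Space K] [TopologicalSpace L] [CompactSpace L] in
theorem exists_D : ∃ D : List (K ⊕ L) → Set (K ⊕ L), (∀ w, (D w).Countable) ∧
    ∀ T, Cls D T → Good Φ T := by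
  classical
  choose tK htKc htK using exists_countable_approx (K := K) (L := L) Φ
  choose tL htLc htL using exists_countable_approx (K := L) (L := K) (fun l k => Φ k l)
  refine ⟨fun w => Sum.inl '' (tK (w.filterMap Sum.getRight?)) ∪
    Sum.inr '' (tL (w.filterMap Sum.getLeft?)), ?_, ?_⟩
  · intro w
    exact ((htKc _).image _).union ((htLc _).image _)
  · intro T hT
    constructor
    · intro k w hw ε hε
      obtain ⟨b, hb, hb2⟩ := htK w k ε hε
      refine ⟨b, ?_, hb2⟩
      have h1 := hT (w.map Sum.inr) (by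
        intro x hx
        obtain ⟨a, ha, rfl⟩ := List.mem_map.1 hx
        exact hw a ha)
      apply h1
      left
      refine ⟨b, ?_, rfl⟩
      have : List.filterMap Sum.getRight? (List.map (Sum.inr : L → K ⊕ L) w) = w := by
        rw [List.filterMap_map]
        have : (Sum.getRight? ∘ (Sum.inr : L → K ⊕ L)) = some := by
          funext x; rfl
        rw [this, List.filterMap_some]
      rw [this]
      exact hb
    · intro l w hw ε hε
      obtain ⟨a, ha, ha2⟩ := htL w l ε hε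
      refine ⟨a, ?_, ha2⟩
      have h1 := hT (w.map Sum.inl) (by
        intro x hx
        obtain ⟨a, ha, rfl⟩ := List.mem_map.1 hx
        exact hw a ha)
      apply h1
      right
      refine ⟨a, ?_, rfl⟩
      have : List.filterMap Sum.getLeft? (List.map (Sum.inl : K → K ⊕ L) w) = w := by
        rw [List.filterMap_map]
        have : (Sum.getLeft? ∘ (Sum.inl : K → K ⊕ L)) = some := by
          funext x; rfl
        rw [this, List.filterMap_some]
      rw [this]
      exact ha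

/-- general compactness: approximation on finite lists gives a limit point. -/
theorem exists_limit {X Y : Type} [TopologicalSpace X] [CompactSpace X] (Ψ : X → Y → ℝ)
    (hc : ∀ y, Continuous (fun x => Ψ x y)) (B : Set X) (A : Set Y) (v : Y → ℝ)
    (h : ∀ w : List Y, (∀ a ∈ w, a ∈ A) → ∀ ε : ℝ, 0 < ε → ∃ b ∈ B, ∀ a ∈ w, |Ψ b a - v a| < ε) :
    ∃ b ∈ closure B, ∀ a ∈ A, Ψ b a = v a := by
  classical
  -- directed family of closed sets
  let ι := {w : List Y // ∀ a ∈ w, a ∈ A} × ℕ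
  let F : ι → Set X := fun p => closure {b | b ∈ B ∧ ∀ a ∈ p.1.1, |Ψ b a - v a| < 1 / (p.2 + 1)}
  have hne : ∀ p, (F p).Nonempty := by
    rintro ⟨⟨w, hw⟩, n⟩
    obtain ⟨b, hb, hb2⟩ := h w hw (1 / (n + 1)) Nat.one_div_pos_of_nat
    exact ⟨b, subset_closure ⟨hb, hb2⟩⟩
  have hdir : Directed (· ⊇ ·) F := by
    rintro ⟨⟨w, hw⟩, n⟩ ⟨⟨w', hw'⟩, n'⟩
    refine ⟨⟨⟨w ++ w', ?_⟩, max n n'⟩, ?_, ?_⟩
    · intro a ha
      rcases List.mem_append.1 ha with ha | ha
      · exact hw a ha
      · exact hw' a ha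
    · apply closure_mono
      rintro b ⟨hb, hb2⟩
      refine ⟨hb, fun a ha => (hb2 a (List.mem_append.2 (Or.inl ha))).trans_le ?_⟩
      apply Nat.one_div_le_one_div
      exact le_max_left _ _
    · apply closure_mono
      rintro b ⟨hb, hb2⟩
      refine ⟨hb, fun a ha => (hb2 a (List.mem_append.2 (Or.inr ha))).trans_le ?_⟩
      apply Nat.one_div_le_one_div
      exact le_max_right _ _
  have : Nonempty ι := ⟨⟨⟨[], by simp⟩, 0⟩⟩
  obtain ⟨b, hb⟩ := IsCompact.nonempty_iInter_of_directed_nonempty_isCompact_isClosed F hdir hne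
    (fun p => isClosed_closure.isCompact) (fun p => isClosed_closure)
  rw [mem_iInter] at hb
  refine ⟨b, ?_, ?_⟩
  · refine closure_mono ?_ (hb ⟨⟨[], by simp⟩, 0⟩)
    rintro x ⟨hx, -⟩
    exact hx
  · intro a ha
    have h1 : ∀ n : ℕ, |Ψ b a - v a| ≤ 1 / (n + 1) := by
      intro n
      have h2 := hb ⟨⟨[a], by simpa using ha⟩, n⟩
      have h3 : closure {b | b ∈ B ∧ ∀ a' ∈ [a], |Ψ b a' - v a'| < 1 / ((n : ℝ) + 1)} ⊆
          {b | |Ψ b a - v a| ≤ 1 / ((n : ℝ) + 1)} := by
        apply closure_minimal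
        · rintro x ⟨-, hx⟩
          exact (hx a (by simp)).le
        · exact isClosed_le (by fun_prop) continuous_const
      exact h3 h2
    have h4 : |Ψ b a - v a| ≤ 0 := ge_of_tendsto' tendsto_one_div_add_atTop_nhds_zero_nat h1
    have h5 : |Ψ b a - v a| = 0 := le_antisymm h4 (abs_nonneg _)
    linarith [abs_eq_zero.1 h5]

variable {Φ}

omit [T2Space K] [TopologicalSpace L] [CompactSpace L] in
theorem Good.exists_s {T : Set (K ⊕ L)} (hT : Good Φ T) (hK : ∀ l, Continuous (fun k => Φ k l))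
    (k : K) : ∃ b ∈ closure (KP T), ∀ a ∈ LP T, Φ b a = Φ k a :=
  exists_limit Φ hK (KP T) (LP T) (fun a => Φ k a) (fun w hw ε hε => hT.g1 k w hw ε hε)

omit [CompactSpace K] [T2Space K] in
theorem Good.unique {T : Set (K ⊕ L)} (hT : Good Φ T) (hK : ∀ l, Continuous (fun k => Φ k l))
    (hL : ∀ k, Continuous (Φ k)) (hsep : ∀ k k', (∀ l, Φ k l = Φ k' l) → k = k')
    {b b' : K} (hb : b ∈ closure (KP T)) (hb' : b' ∈ closure (KP T))
    (h : ∀ a ∈ LP T, Φ b a = Φ b' a) : b = b' := by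
  apply hsep
  intro l
  obtain ⟨a, ha, hal⟩ := exists_limit (fun l k => Φ k l) hL (LP T) (KP T) (fun b => Φ b l)
    (fun w hw ε hε => hT.g2 l w hw ε hε)
  have h1 : ∀ x ∈ closure (KP T), Φ x a = Φ x l := by
    intro x hx
    have : closure (KP T) ⊆ {x | Φ x a = Φ x l} := by
      apply closure_minimal
      · intro y hy
        exact hal y hy
      · exact isClosed_eq (hK a) (hK l)
    exact this hx
  have h2 : Φ b a = Φ b' a := by
    have : closure (LP T) ⊆ {x | Φ b x = Φ b' x} := by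
      apply closure_minimal
      · intro y hy
        exact h y hy
      · exact isClosed_eq (hL b) (hL b')
    exact this ha
  rw [← h1 b hb, ← h1 b' hb', h2]

/-- the retraction -/
noncomputable def ret (Φ : K → L → ℝ) (T : Set (K ⊕ L)) (k : K) : K := by
  classical
  exact if h : ∃ b ∈ closure (KP T), ∀ a ∈ LP T, Φ b a = Φ k a then h.choose else k

omit [T2Space K] [TopologicalSpace L] [CompactSpace L] in
theorem Good.ret_mem {T : Set (K ⊕ L)} (hT : Good Φ T) (hK : ∀ l, Continuous (fun k => Φ k l))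
    (k : K) : ret Φ T k ∈ closure (KP T) := by
  have h := hT.exists_s hK k
  unfold ret
  rw [dif_pos h]
  exact h.choose_spec.1

omit [T2Space K] [TopologicalSpace L] [CompactSpace L] in
theorem Good.ret_eq {T : Set (K ⊕ L)} (hT : Good Φ T) (hK : ∀ l, Continuous (fun k => Φ k l))
    (k : K) {a : L} (ha : a ∈ LP T) : Φ (ret Φ T k) a = Φ k a := by
  have h := hT.exists_s hK k
  unfold ret
  rw [dif_pos h]
  exact h.choose_spec.2 a ha

theorem Good.ret_cont {T : Set (K ⊕ L)} (hT : Good Φ T) (hK : ∀ l, Continuous (fun k => Φ k l))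
    (hL : ∀ k, Continuous (Φ k)) (hsep : ∀ k k', (∀ l, Φ k l = Φ k' l) → k = k') :
    Continuous (ret Φ T) := by
  rw [continuous_iff_ultrafilter]
  intro x g hg
  -- limit of the image
  obtain ⟨y, hy⟩ : ∃ y, (g.map (ret Φ T) : Filter K) ≤ 𝓝 y := by
    obtain ⟨y, -, hy⟩ := isCompact_univ.ultrafilter_le_nhds (g.map (ret Φ T)) (by simp)
    exact ⟨y, hy⟩
  have hy' : Tendsto (ret Φ T) g (𝓝 y) := hy
  have h1 : y ∈ closure (KP T) :=
    isClosed_closure.mem_of_tendsto hy' (Eventually.of_forall (fun k => hT.ret_mem hK k))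
  have h2 : y = ret Φ T x := by
    apply hT.unique hK hL hsep h1 (hT.ret_mem hK x)
    intro a ha
    rw [hT.ret_eq hK x ha]
    have h3 : Tendsto (fun k => Φ (ret Φ T k) a) g (𝓝 (Φ y a)) := ((hK a).tendsto y).comp hy'
    have h4 : Tendsto (fun k => Φ (ret Φ T k) a) g (𝓝 (Φ x a)) := by
      simp only [hT.ret_eq hK _ ha]
      exact ((hK a).tendsto x).mono_left hg
    exact tendsto_nhds_unique h3 h4
  rw [← h2]
  exact hy'

end AL

end Pool.Agent.H5.Eb
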