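import Mathlib

set_option autoImplicit false

open Set Filter Topology

namespace Pool.Agent.H5.Eb

/-- sequences have cluster points (in ultrafilter form) -/
def CC (Z : Type) [TopologicalSpace Z] : Prop :=
  ∀ u : ℕ → Z, ∃ z, ∃ U : Ultrafilter ℕ, (U : Filter ℕ) ≤ atTop ∧ Tendsto u U (𝓝 z)

theorem CC_of_compact (Z : Type) [TopologicalSpace Z] [CompactSpace Z] : CC Z := by
  intro u
  obtain ⟨z, -, hz⟩ := isCompact_univ.ultrafilter_le_nhds ((hyperfilter ℕ).map u) (by simp)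
  exact ⟨z, hyperfilter ℕ, Nat.hyperfilter_le_atTop, hz⟩

/-- bounded subsets -/
def Bdd {X : Type} [TopologicalSpace X] (A : Set X) : Prop :=
  ∀ f : X → ℝ, Continuous f → ∃ C : ℝ, ∀ x ∈ A, |f x| ≤ C

theorem Bdd_univ_of_CC {X : Type} [TopologicalSpace X] (h : CC X) : Bdd (univ : Set X) := by
  intro f hf
  by_contra hcon
  push Not at hcon
  choose x _ hx using fun n : ℕ => hcon n
  obtain ⟨z, U, hU, hz⟩ := h x
  have h1 : Tendsto (fun n => |f (x n)|) U (𝓝 |f z|) := (((hf.tendsto z).comp hz)).abs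
  have h2 : Tendsto (fun n => |f (x n)|) U atTop := by
    refine (tendsto_atTop_mono (fun n => (hx n).le) tendsto_natCast_atTop_atTop).mono_left hU
  exact not_tendsto_nhds_of_tendsto_atTop h2 _ h1

theorem exists_accum {X : Type} [TopologicalSpace X] [CompletelyRegularSpace X] {A : Set X}
    (hA : Bdd A) (x : ℕ → X) (hx : ∀ n, x n ∈ A) (U : ℕ → Set X) (hU : ∀ n, IsOpen (U n))
    (hxU : ∀ n, x n ∈ U n) :
    ∃ y, ∀ V ∈ 𝓝 y, ∀ N : ℕ, ∃ n ≥ N, (V ∩ U n).Nonempty := by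
  by_contra hcon
  push Not at hcon
  have hlf : LocallyFinite U := by
    intro y
    obtain ⟨V, hV, N, hN⟩ := hcon y
    refine ⟨V, hV, (Set.finite_lt_nat N).subset ?_⟩
    intro n hn
    by_contra h1
    have h1' : N ≤ n := not_lt.1 h1
    have h2 := hN n h1'
    have h3 : (U n ∩ V).Nonempty := hn
    rw [inter_comm, h2] at h3
    exact not_nonempty_empty h3
  have hf : ∀ n, ∃ f : X → unitInterval, Continuous f ∧ f (x n) = 0 ∧ EqOn f 1 (U n)ᶜ :=
    fun n => CompletelyRegularSpace.completely_regular (x n) (U n)ᶜ (hU n).isClosed_compl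
      (by simpa using hxU n)
  choose f hfc hf0 hf1 using hf
  let h : ℕ → X → ℝ := fun n y => (n : ℝ) * (1 - (f n y : ℝ))
  have hhc : ∀ n, Continuous (h n) := by
    intro n
    have := hfc n
    fun_prop
  have hnn : ∀ n y, 0 ≤ h n y := by
    intro n y
    have := (f n y).2.2
    have h2 : (0 : ℝ) ≤ 1 - (f n y : ℝ) := by linarith
    positivity
  have hsupp : ∀ n, Function.support (h n) ⊆ U n := by
    intro n y hy
    by_contra h1
    apply hy
    show (n : ℝ) * (1 - (f n y : ℝ)) = 0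
    rw [hf1 n h1]
    simp
  have hlf' : LocallyFinite (fun n => Function.support (h n)) := hlf.subset hsupp
  have hcont : Continuous (fun y => ∑ᶠ n, h n y) := continuous_finsum hhc hlf'
  obtain ⟨C, hC⟩ := hA _ hcont
  obtain ⟨n, hn⟩ := exists_nat_gt C
  have h1 := hC (x n) (hx n)
  have h2 : h n (x n) ≤ ∑ᶠ m, h m (x n) := by
    refine single_le_finsum (f := fun m => h m (x n)) n ?_ (fun m => hnn m _)
    exact hlf'.point_finite (x n)
  have h3 : h n (x n) = n := by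
    show (n : ℝ) * (1 - (f n (x n) : ℝ)) = n
    rw [hf0 n]
    simp
  have h4 := le_abs_self (∑ᶠ m, h m (x n))
  linarith

/-- The Asanov-Velichko / Grothendieck double limit theorem. -/
theorem lemmaG {X Z : Type} [TopologicalSpace X] [CompletelyRegularSpace X] [TopologicalSpace Z]
    (Φ : X → Z → ℝ) (hX : ∀ z, Continuous (fun x => Φ x z)) (hZ : ∀ x, Continuous (Φ x))
    {A : Set X} (hA : Bdd A) (hcc : CC Z) (g : Z → ℝ) (hg : g ∈ closure (Φ '' A)) :
    Continuous g := by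
  classical
  rw [continuous_iff_continuousAt]
  intro z0
  by_contra hcon
  -- approximation property
  have happ : ∀ s : Finset Z, ∀ ε : ℝ, 0 < ε → ∃ x ∈ A, ∀ z ∈ s, |Φ x z - g z| < ε := by
    intro s ε hε
    have hopen : IsOpen {v : Z → ℝ | ∀ z ∈ s, |v z - g z| < ε} := by
      have : {v : Z → ℝ | ∀ z ∈ s, |v z - g z| < ε} = ⋂ z ∈ s, {v : Z → ℝ | |v z - g z| < ε} := by
        ext v; simp
      rw [this]
      apply isOpen_biInter_finset
      intro z _
      exact isOpen_lt (by fun_prop) continuous_const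
    obtain ⟨v, hv, x, hx, rfl⟩ := mem_closure_iff.1 hg _ hopen (by
      intro z _
      simpa using hε)
    exact ⟨x, hx, hv⟩
  obtain ⟨ε, hε, hdis⟩ : ∃ ε : ℝ, 0 < ε ∧ ∀ W ∈ 𝓝 z0, ∃ z ∈ W, ε ≤ |g z - g z0| := by
    by_contra h1
    push Not at h1
    apply hcon
    rw [Metric.continuousAt_iff']
    intro ε hε
    obtain ⟨W, hW, hW2⟩ := h1 ε hε
    filter_upwards [hW] with z hz
    rw [Real.dist_eq]
    exact hW2 z hz
  have hdis' : ∀ s : Finset X, ∀ δ : ℝ, 0 < δ → ∃ z, ε ≤ |g z - g z0| ∧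
      ∀ x ∈ s, |Φ x z - Φ x z0| < δ := by
    intro s δ hδ
    have hW : {z | ∀ x ∈ s, |Φ x z - Φ x z0| < δ} ∈ 𝓝 z0 := by
      have : {z | ∀ x ∈ s, |Φ x z - Φ x z0| < δ} = ⋂ x ∈ s, {z | |Φ x z - Φ x z0| < δ} := by
        ext v; simp
      rw [this]
      apply (Filter.biInter_finset_mem s).2
      intro x _
      apply (isOpen_lt (by have := hZ x; fun_prop) continuous_const).mem_nhds
      simpa using hδ
    obtain ⟨z, hz, hz2⟩ := hdis _ hW
    exact ⟨z, hz2, hz⟩
  obtain ⟨p, hp1, hp2⟩ := exists_seq_of_forall_finset_exists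
    (fun q : ℕ × X × Z => ε ≤ |g q.2.2 - g z0| ∧ q.2.1 ∈ A ∧
      |Φ q.2.1 z0 - g z0| < 1 / ((q.1 : ℝ) + 1) ∧ |Φ q.2.1 q.2.2 - Φ q.2.1 z0| < 1 / ((q.1 : ℝ) + 1))
    (fun q q' => q.1 < q'.1 ∧ |Φ q'.2.1 q.2.2 - g q.2.2| < 1 / ((q'.1 : ℝ) + 1) ∧
      |Φ q.2.1 q'.2.2 - Φ q.2.1 z0| < 1 / ((q'.1 : ℝ) + 1))
    (by
      intro s hs
      let m' : ℕ := s.sup (fun q => q.1) + 1
      have hm' : ∀ q ∈ s, q.1 < m' := fun q hq =>
        Nat.lt_succ_of_le (Finset.le_sup (f := fun q : ℕ × X × Z => q.1) hq)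
      have hpos : (0 : ℝ) < 1 / ((m' : ℝ) + 1) := by positivity
      obtain ⟨x', hx'A, hx'⟩ := happ (insert z0 (s.image (fun q => q.2.2))) _ hpos
      obtain ⟨z', hz', hz'2⟩ := hdis' (insert x' (s.image (fun q => q.2.1))) _ hpos
      refine ⟨⟨m', x', z'⟩, ⟨hz', hx'A, hx' z0 (by simp), hz'2 x' (by simp)⟩, ?_⟩
      intro q hq
      refine ⟨hm' q hq, hx' q.2.2 ?_, hz'2 q.2.1 ?_⟩
      · exact Finset.mem_insert_of_mem (Finset.mem_image_of_mem _ hq)
      · exact Finset.mem_insert_of_mem (Finset.mem_image_of_mem _ hq))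
  set x : ℕ → X := fun n => (p n).2.1 with hxdef
  set zz : ℕ → Z := fun n => (p n).2.2 with hzdef
  have hpn : ∀ n, n ≤ (p n).1 := by
    have hsm : StrictMono (fun n => (p n).1) := fun a b hab => (hp2 a b hab).1
    exact fun n => hsm.le_apply
  have hle : ∀ n, 1 / (((p n).1 : ℝ) + 1) ≤ 1 / ((n : ℝ) + 1) := by
    intro n
    exact Nat.one_div_le_one_div (hpn n)
  have hlim0 : Tendsto (fun n : ℕ => 1 / ((n : ℝ) + 1)) atTop (𝓝 0) :=
    tendsto_one_div_add_atTop_nhds_zero_nat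
  -- `Φ (x j) (zz n) → Φ (x j) z0` as `n → ∞`
  have hA1 : ∀ j, Tendsto (fun n => Φ (x j) (zz n)) atTop (𝓝 (Φ (x j) z0)) := by
    intro j
    rw [tendsto_iff_norm_sub_tendsto_zero]
    apply squeeze_zero' (Eventually.of_forall (fun n => norm_nonneg _)) _ hlim0
    filter_upwards [eventually_gt_atTop j] with n hn
    exact ((hp2 j n hn).2.2.le).trans (hle n)
  have hB1 : ∀ i, Tendsto (fun j => Φ (x j) (zz i)) atTop (𝓝 (g (zz i))) := by
    intro i
    rw [tendsto_iff_norm_sub_tendsto_zero]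
    apply squeeze_zero' (Eventually.of_forall (fun n => norm_nonneg _)) _ hlim0
    filter_upwards [eventually_gt_atTop i] with n hn
    exact ((hp2 i n hn).2.1.le).trans (hle n)
  have hC1 : Tendsto (fun j => Φ (x j) z0) atTop (𝓝 (g z0)) := by
    rw [tendsto_iff_norm_sub_tendsto_zero]
    apply squeeze_zero' (Eventually.of_forall (fun n => norm_nonneg _)) _ hlim0
    exact Eventually.of_forall (fun n => ((hp1 n).2.2.1.le).trans (hle n))
  obtain ⟨zs, U, hU, hzs⟩ := hcc zz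
  have hD1 : ∀ j, Φ (x j) zs = Φ (x j) z0 := by
    intro j
    exact tendsto_nhds_unique (((hZ (x j)).tendsto zs).comp hzs) ((hA1 j).mono_left hU)
  -- the open sets
  let V : ℕ → Set X := fun j => {y | |Φ y zs - Φ (x j) zs| < 1 / ((j : ℝ) + 1)} ∩
    ⋂ i ∈ Finset.range j, {y | |Φ y (zz i) - Φ (x j) (zz i)| < 1 / ((j : ℝ) + 1)}
  have hVo : ∀ j, IsOpen (V j) := by
    intro j
    apply IsOpen.inter
    · exact isOpen_lt (by have := hX zs; fun_prop) continuous_const
    · apply isOpen_biInter_finset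
      intro i _
      exact isOpen_lt (by have := hX (zz i); fun_prop) continuous_const
  have hxV : ∀ j, x j ∈ V j := by
    intro j
    have hpos : (0 : ℝ) < 1 / ((j : ℝ) + 1) := by positivity
    refine ⟨by simpa using hpos, ?_⟩
    simp only [mem_iInter]
    intro i _
    simpa using hpos
  obtain ⟨xs, hxs⟩ := exists_accum hA x (fun n => (hp1 n).2.1) V hVo hxV
  -- values at `xs`
  have key : ∀ (φ : X → ℝ) (c : ℝ) (j0 : ℕ), Continuous φ →
      (∀ j ≥ j0, ∀ y ∈ V j, |φ y - φ (x j)| < 1 / ((j : ℝ) + 1)) →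
      Tendsto (fun j => φ (x j)) atTop (𝓝 c) → φ xs = c := by
    intro φ c j0 hφ h1 h2
    apply eq_of_forall_dist_le
    intro δ hδ
    have hV' : {y | |φ y - φ xs| < δ / 3} ∈ 𝓝 xs :=
      (isOpen_lt (by fun_prop) continuous_const).mem_nhds (by simpa using by positivity)
    obtain ⟨N1, hN1⟩ := eventually_atTop.1 (hlim0.eventually (gt_mem_nhds (show 0 < δ / 3 by positivity)))
    obtain ⟨N2, hN2⟩ := Metric.tendsto_atTop.1 h2 (δ / 3) (by positivity)
    obtain ⟨n, hn, y, hy1, hy2⟩ := hxs _ hV' (max j0 (max N1 N2))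
    have e1 := h1 n (le_of_max_le_left hn) y hy2
    have e2 := hN1 n (le_of_max_le_left (le_of_max_le_right hn))
    have e3 := hN2 n (le_of_max_le_right (le_of_max_le_right hn))
    rw [Real.dist_eq] at e3 ⊢
    have e4 : |φ y - φ xs| < δ / 3 := hy1
    rw [abs_lt] at e1 e3 e4
    rw [abs_le]
    constructor <;> linarith [e1.1, e1.2, e3.1, e3.2, e4.1, e4.2]
  have hE1 : ∀ i, Φ xs (zz i) = g (zz i) := by
    intro i
    apply key (fun y => Φ y (zz i)) _ (i + 1) (hX (zz i)) _ (hB1 i)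
    intro j hj y hy
    have h1 := hy.2
    simp only [mem_iInter] at h1
    exact h1 i (Finset.mem_range.2 hj)
  have hE2 : Φ xs zs = g z0 := by
    apply key (fun y => Φ y zs) _ 0 (hX zs)
    · intro j _ y hy
      exact hy.1
    · simp only [hD1]
      exact hC1
  have h5 : Tendsto (fun n => Φ xs (zz n)) U (𝓝 (Φ xs zs)) := ((hZ xs).tendsto zs).comp hzs
  simp only [hE1, hE2] at h5
  have h6 : Tendsto (fun n => |g (zz n) - g z0|) U (𝓝 |g z0 - g z0|) :=
    (h5.sub tendsto_const_nhds).abs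
  have h7 : ε ≤ |g z0 - g z0| := ge_of_tendsto' h6 (fun n => (hp1 n).1)
  simp at h7
  linarith

end Pool.Agent.H5.Eb
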