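import Mathlib
import Pool.Agent.H5.EbAL

set_option autoImplicit false

open Set Cardinal Filter Topology

namespace Pool.Agent.H5.Eb

section

variable {K : Type} [TopologicalSpace K]

/-- functionals in the span of point evaluations which map `C(K)` to `c₀(Γ)` and are jointly
injective on `B`. -/
def PP (B : Set K) : Prop := ∃ (Γ : Type) (τ : Γ → ((K → ℝ) →L[ℝ] ℝ)),
  (∀ γ f M, (∀ k, |f k| ≤ M) → |τ γ f| ≤ M) ∧
  (∀ f, Continuous f → ∀ ε : ℝ, 0 < ε → {γ | ε ≤ |τ γ f|}.Finite) ∧
  (∀ f, Continuous f → (∀ γ, τ γ f = 0) → ∀ k ∈ B, f k = 0)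

theorem PP_countable [CompactSpace K] (B : Set K) (hB : B.Countable) : PP B := by
  have := hB.to_subtype
  obtain ⟨g, hg⟩ := exists_injective_nat B
  refine ⟨B, fun b => ((1 : ℝ) / (g b + 1)) • ContinuousLinearMap.proj (R := ℝ) (φ := fun _ : K => ℝ) b.1,
    ?_, ?_, ?_⟩
  · intro b f M hM
    have h1 : (0 : ℝ) < g b + 1 := by positivity
    have h2 : (1 : ℝ) / (g b + 1) ≤ 1 := by
      rw [div_le_one h1]
      linarith [Nat.cast_nonneg (α := ℝ) (g b)]
    have h3 : (0 : ℝ) < 1 / (g b + 1) := by positivity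
    simp only [_root_.smul_apply, ContinuousLinearMap.proj_apply, smul_eq_mul, abs_mul]
    rw [abs_of_pos h3]
    calc 1 / ((g b : ℝ) + 1) * |f b| ≤ 1 * |f b| := by gcongr
      _ ≤ M := by rw [one_mul]; exact hM _
  · intro f hf ε hε
    obtain ⟨M, hM⟩ : ∃ M : ℝ, ∀ k, |f k| ≤ M := by
      obtain ⟨M, hM⟩ := (isCompact_range hf).isBounded.exists_norm_le
      exact ⟨M, fun k => hM _ ⟨k, rfl⟩⟩
    obtain ⟨N, hN⟩ := exists_nat_gt (M / ε)
    apply ((Set.finite_Iio N).preimage hg.injOn).subset
    intro b hb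
    simp only [mem_ofPred_eq, _root_.smul_apply, ContinuousLinearMap.proj_apply,
      smul_eq_mul, abs_mul] at hb
    have h3 : (0 : ℝ) < 1 / (g b + 1) := by positivity
    rw [abs_of_pos h3] at hb
    have h1 : (0 : ℝ) < g b + 1 := by positivity
    have h4 : ε * (g b + 1) ≤ |f b| := by
      rw [one_div, inv_mul_eq_div, le_div_iff₀ h1] at hb
      exact hb
    have h5 : (g b : ℝ) < N := by
      have : (g b : ℝ) + 1 ≤ M / ε := by
        rw [le_div_iff₀ hε]
        linarith [hM b.1]
      linarith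
    show g b < N
    exact_mod_cast h5
  · intro f hf h k hk
    have h1 := h ⟨k, hk⟩
    simp only [_root_.smul_apply, ContinuousLinearMap.proj_apply, smul_eq_mul] at h1
    rcases mul_eq_zero.1 h1 with h2 | h2
    · exfalso
      have : (0 : ℝ) < 1 / (g ⟨k, hk⟩ + 1) := by positivity
      linarith
    · exact h2

/-- composition with `s`. -/
noncomputable def cmp (s : K → K) : (K → ℝ) →L[ℝ] (K → ℝ) :=
  ContinuousLinearMap.pi (fun k => ContinuousLinearMap.proj (s k))

omit [TopologicalSpace K] in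
theorem cmp_apply (s : K → K) (f : K → ℝ) (k : K) : cmp s f k = f (s k) := rfl

end

section

variable {K L : Type} [TopologicalSpace K] [CompactSpace K] [T2Space K]
  [TopologicalSpace L] [CompactSpace L] {Φ : K → L → ℝ}

theorem ret_fix {T : Set (K ⊕ L)} (hT : Good Φ T) (hK : ∀ l, Continuous (fun k => Φ k l))
    (hL : ∀ k, Continuous (Φ k)) (hsep : ∀ k k', (∀ l, Φ k l = Φ k' l) → k = k')
    {k : K} (hk : k ∈ KP T) : ret Φ T k = k :=
  hT.unique hK hL hsep (hT.ret_mem hK k) (subset_closure hk) (fun _ ha => hT.ret_eq hK k ha)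

theorem finite_jumps {I : Type} [LinearOrder I] [WellFoundedLT I] (T T' : I → Set (K ⊕ L))
    (hT : ∀ i, Good Φ (T i)) (hT' : ∀ i, Good Φ (T' i))
    (hmono : Monotone T) (hTT' : ∀ i j, i < j → T' i ⊆ T j) (hTT : ∀ i, T i ⊆ T' i)
    (hU : ∀ i : ℕ → I, StrictMono i → Good Φ (⋃ n, T (i n)))
    (hK : ∀ l, Continuous (fun k => Φ k l))
    (hL : ∀ k, Continuous (Φ k)) (hsep : ∀ k k', (∀ l, Φ k l = Φ k' l) → k = k')
    (f : K → ℝ) (hf : Continuous f) (ε : ℝ) (hε : 0 < ε) :
    {i | ∃ k, ε ≤ |f (ret Φ (T' i) k) - f (ret Φ (T i) k)|}.Finite := by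
  by_contra hinf
  have hinf' : Infinite {i | ∃ k, ε ≤ |f (ret Φ (T' i) k) - f (ret Φ (T i) k)|} :=
    (Set.not_finite.1 hinf).to_subtype
  obtain ⟨u, hu | hu⟩ := Infinite.exists_strictMono_or_strictAnti
    {i | ∃ k, ε ≤ |f (ret Φ (T' i) k) - f (ret Φ (T i) k)|}
  swap
  · have h1 : StrictAnti (fun n => (u n).1) := fun a b hab => hu hab
    obtain ⟨m, ⟨n, rfl⟩, hm⟩ := (wellFounded_lt (α := I)).has_min (range (fun n => (u n).1))
      ⟨_, ⟨0, rfl⟩⟩
    exact hm _ ⟨n + 1, rfl⟩ (h1 (Nat.lt_succ_self n))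
  · set i : ℕ → I := fun n => (u n).1 with hi
    have himono : StrictMono i := fun a b hab => hu hab
    have hk : ∀ n, ∃ k, ε ≤ |f (ret Φ (T' (i n)) k) - f (ret Φ (T (i n)) k)| := fun n => (u n).2
    choose k hk using hk
    have hG := hU i himono
    obtain ⟨y1, hy1⟩ : ∃ y, Tendsto (fun n => ret Φ (T' (i n)) (k n)) (hyperfilter ℕ) (𝓝 y) := by
      obtain ⟨y, -, hy⟩ := isCompact_univ.ultrafilter_le_nhds
        ((hyperfilter ℕ).map (fun n => ret Φ (T' (i n)) (k n))) (by simp)
      exact ⟨y, hy⟩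
    obtain ⟨y2, hy2⟩ : ∃ y, Tendsto (fun n => ret Φ (T (i n)) (k n)) (hyperfilter ℕ) (𝓝 y) := by
      obtain ⟨y, -, hy⟩ := isCompact_univ.ultrafilter_le_nhds
        ((hyperfilter ℕ).map (fun n => ret Φ (T (i n)) (k n))) (by simp)
      exact ⟨y, hy⟩
    have hm1 : y1 ∈ closure (KP (⋃ n, T (i n))) := by
      apply isClosed_closure.mem_of_tendsto hy1
      apply Eventually.of_forall
      intro n
      refine closure_mono ?_ ((hT' (i n)).ret_mem hK (k n))
      intro x hx
      exact mem_iUnion.2 ⟨n + 1, hTT' _ _ (himono (Nat.lt_succ_self n)) hx⟩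
    have hm2 : y2 ∈ closure (KP (⋃ n, T (i n))) := by
      apply isClosed_closure.mem_of_tendsto hy2
      apply Eventually.of_forall
      intro n
      refine closure_mono ?_ ((hT (i n)).ret_mem hK (k n))
      intro x hx
      exact mem_iUnion.2 ⟨n, hx⟩
    have hat : ((hyperfilter ℕ : Ultrafilter ℕ) : Filter ℕ) ≤ atTop := by
      rw [← Nat.cofinite_eq_atTop]
      exact hyperfilter_le_cofinite
    have hyy : y1 = y2 := by
      apply hG.unique hK hL hsep hm1 hm2
      intro a ha
      obtain ⟨m, hm⟩ := mem_iUnion.1 (show (Sum.inr a : K ⊕ L) ∈ ⋃ n, T (i n) from ha)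
      have h1 : Tendsto (fun n => Φ (ret Φ (T' (i n)) (k n)) a) (hyperfilter ℕ) (𝓝 (Φ y1 a)) :=
        ((hK a).tendsto y1).comp hy1
      have h2 : Tendsto (fun n => Φ (ret Φ (T (i n)) (k n)) a) (hyperfilter ℕ) (𝓝 (Φ y2 a)) :=
        ((hK a).tendsto y2).comp hy2
      have h3 : (fun n => Φ (ret Φ (T' (i n)) (k n)) a) =ᶠ[(hyperfilter ℕ : Filter ℕ)]
          (fun n => Φ (ret Φ (T (i n)) (k n)) a) := by
        apply hat
        filter_upwards [eventually_ge_atTop m] with n hn
        have ha1 : a ∈ LP (T (i n)) := hmono (himono.monotone hn) hm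
        have ha2 : a ∈ LP (T' (i n)) := hTT _ ha1
        rw [(hT (i n)).ret_eq hK _ ha1, (hT' (i n)).ret_eq hK _ ha2]
      exact tendsto_nhds_unique (h1.congr' h3) h2
    have h4 : Tendsto (fun n => |f (ret Φ (T' (i n)) (k n)) - f (ret Φ (T (i n)) (k n))|)
        (hyperfilter ℕ) (𝓝 |f y1 - f y2|) :=
      ((((hf.tendsto y1).comp hy1).sub ((hf.tendsto y2).comp hy2)).abs)
    have h5 : ε ≤ |f y1 - f y2| := ge_of_tendsto' h4 hk
    rw [hyy] at h5
    simp at h5
    linarith

theorem main_ind (hK : ∀ l, Continuous (fun k => Φ k l))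
    (hL : ∀ k, Continuous (Φ k)) (hsep : ∀ k k', (∀ l, Φ k l = Φ k' l) → k = k')
    (D : List (K ⊕ L) → Set (K ⊕ L)) (hDc : ∀ w, (D w).Countable) (hDg : ∀ T, Cls D T → Good Φ T)
    (κ : Cardinal.{0}) : ∀ S : Set (K ⊕ L), #S = κ → PP (KP (Hull D S)) := by
  induction κ using WellFoundedLT.induction with
  | _ κ ih =>
  intro S hS
  by_cases hκ : κ ≤ ℵ₀
  · apply PP_countable
    have h1 : #(Hull D S) ≤ ℵ₀ := (card_hull D hDc S).trans (max_le (hS.le.trans hκ) le_rfl)
    have h2 : (Hull D S).Countable := Cardinal.le_aleph0_iff_set_countable.1 h1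
    exact h2.preimage Sum.inl_injective
  · rw [not_le] at hκ
    have hI : #κ.ord.ToType = #S := by rw [mk_ord_toType, hS]
    obtain ⟨e⟩ := Cardinal.eq.1 hI
    let S1 : κ.ord.ToType → Set (K ⊕ L) := fun i => (fun j => (e j).1) '' Iio i
    let S2 : κ.ord.ToType → Set (K ⊕ L) := fun i => (fun j => (e j).1) '' Iic i
    have hc1 : ∀ i : κ.ord.ToType, #(Iio i) < κ := fun i => by simpa using mk_Iio_lt i
    have hc2 : ∀ i : κ.ord.ToType, #(S2 i) < κ := by
      intro i
      refine mk_image_le.trans_lt ?_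
      have h1 : (Iic i : Set κ.ord.ToType) ⊆ Iio i ∪ {i} := by
        intro x hx
        rcases lt_or_eq_of_le (show x ≤ i from hx) with h | h
        · exact Or.inl h
        · exact Or.inr h
      refine (mk_le_mk_of_subset h1).trans_lt ?_
      refine (mk_union_le _ _).trans_lt ?_
      rw [mk_singleton]
      exact add_lt_of_lt hκ.le (hc1 i) (one_lt_aleph0.trans hκ)
    have ih2 : ∀ i, PP (KP (Hull D (S2 i))) := fun i => ih _ (hc2 i) (S2 i) rfl
    have ih0 : PP (KP (Hull D (∅ : Set (K ⊕ L)))) := by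
      apply ih 0 (aleph0_pos.trans hκ) ∅
      simp
    obtain ⟨Γ0, τ0, h0b, h0f, h0i⟩ := ih0
    choose Γ τ hb hfin hinj using ih2
    have hg : ∀ S, Good Φ (Hull D S) := fun S => hDg _ (cls_hull D S)
    let s1 : κ.ord.ToType → K → K := fun i => ret Φ (Hull D (S1 i))
    let s2 : κ.ord.ToType → K → K := fun i => ret Φ (Hull D (S2 i))
    have hs1 : ∀ i, Continuous (s1 i) := fun i => (hg _).ret_cont hK hL hsep
    have hs2 : ∀ i, Continuous (s2 i) := fun i => (hg _).ret_cont hK hL hsep
    let σ : Γ0 ⊕ (Σ i, Γ i) → ((K → ℝ) →L[ℝ] ℝ) := fun g => match g with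
      | Sum.inl γ => τ0 γ
      | Sum.inr ⟨i, γ⟩ => (1 / 2 : ℝ) • (τ i γ).comp (cmp (s2 i) - cmp (s1 i))
    have hσ : ∀ i γ f, σ (Sum.inr ⟨i, γ⟩) f =
        (1 / 2 : ℝ) * τ i γ (fun k => f (s2 i k) - f (s1 i k)) := by
      intro i γ f
      rfl
    refine ⟨Γ0 ⊕ (Σ i, Γ i), σ, ?_, ?_, ?_⟩
    · rintro (γ | ⟨i, γ⟩) f M hM
      · exact h0b γ f M hM
      · rw [hσ, abs_mul, abs_of_pos (by norm_num : (0 : ℝ) < 1 / 2)]
        have := hb i γ (fun k => f (s2 i k) - f (s1 i k)) (M + M) (by
          intro k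
          exact (abs_sub _ _).trans (add_le_add (hM _) (hM _)))
        linarith
    · intro f hf ε hε
      have hJ : {i | ∃ k, ε ≤ |f (s2 i k) - f (s1 i k)|}.Finite := by
        apply finite_jumps (fun i => Hull D (S1 i)) (fun i => Hull D (S2 i)) (fun i => hg _)
          (fun i => hg _) _ _ _ _ hK hL hsep f hf ε hε
        · intro i j hij
          apply hull_mono
          apply image_mono
          exact Iio_subset_Iio hij
        · intro i j hij
          apply hull_mono
          apply image_mono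
          exact Iic_subset_Iio.2 hij
        · intro i
          apply hull_mono
          apply image_mono
          exact Iio_subset_Iic_self
        · intro i hi
          have h1 : Monotone (fun n => S1 (i n)) := by
            intro a b hab
            apply image_mono
            exact Iio_subset_Iio (hi.monotone hab)
          rw [← hull_iUnion D (fun n => S1 (i n)) h1.directed_le]
          exact hg _
      have h1 : {γ | ε ≤ |σ γ f|} ⊆ Sum.inl '' {γ | ε ≤ |τ0 γ f|} ∪
          ⋃ i ∈ {i | ∃ k, ε ≤ |f (s2 i k) - f (s1 i k)|},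
            (fun γ => Sum.inr ⟨i, γ⟩) '' {γ | ε ≤ |τ i γ (fun k => f (s2 i k) - f (s1 i k))|} := by
        rintro (γ | ⟨i, γ⟩) hγ
        · left
          exact ⟨γ, hγ, rfl⟩
        · right
          have hγ' : ε ≤ |σ (Sum.inr ⟨i, γ⟩) f| := hγ
          rw [hσ, abs_mul, abs_of_pos (by norm_num : (0 : ℝ) < 1 / 2)] at hγ'
          have hi : i ∈ {i | ∃ k, ε ≤ |f (s2 i k) - f (s1 i k)|} := by
            by_contra hcon
            have h2 : ∀ k, |f (s2 i k) - f (s1 i k)| ≤ ε := by
              intro k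
              by_contra h3
              exact hcon ⟨k, (not_le.1 h3).le⟩
            have := hb i γ (fun k => f (s2 i k) - f (s1 i k)) ε h2
            linarith
          refine mem_biUnion hi ⟨γ, ?_, rfl⟩
          show ε ≤ |τ i γ (fun k => f (s2 i k) - f (s1 i k))|
          have := abs_nonneg (τ i γ (fun k => f (s2 i k) - f (s1 i k)))
          linarith
      refine Set.Finite.subset ?_ h1
      refine ((h0f f hf ε hε).image _).union ?_
      refine hJ.biUnion ?_
      intro i _
      refine (hfin i _ ?_ ε hε).image _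
      exact (hf.comp (hs2 i)).sub (hf.comp (hs1 i))
    · intro f hf h
      have hzero : ∀ i, ∀ k ∈ KP (Hull D (S2 i)), f k = 0 := by
        intro i
        induction i using WellFoundedLT.induction with
        | _ i ihi =>
        have h1 : ∀ k ∈ KP (Hull D (S1 i)), f k = 0 := by
          rcases (Iio i).eq_empty_or_nonempty with hne | hne
          · have : S1 i = ∅ := by
              show _ '' Iio i = ∅
              rw [hne, image_empty]
            rw [this]
            exact h0i f hf (fun γ => h (Sum.inl γ))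
          · have : Nonempty (Iio i) := hne.to_subtype
            have h2 : S1 i = ⋃ j : Iio i, S2 j.1 := by
              apply Subset.antisymm
              · rintro _ ⟨j, hj, rfl⟩
                exact mem_iUnion.2 ⟨⟨j, hj⟩, ⟨j, self_mem_Iic, rfl⟩⟩
              · apply iUnion_subset
                rintro ⟨j, hj⟩ _ ⟨x, hx, rfl⟩
                exact ⟨x, lt_of_le_of_lt (show x ≤ j from hx) hj, rfl⟩
            have h3 : Monotone (fun j : Iio i => S2 j.1) := by
              intro a b hab
              apply image_mono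
              exact Iic_subset_Iic.2 hab
            rw [h2, hull_iUnion D _ h3.directed_le]
            intro k hk
            obtain ⟨j, hj⟩ := mem_iUnion.1 (show (Sum.inl k : K ⊕ L) ∈ ⋃ j : Iio i, Hull D (S2 j.1) from hk)
            exact ihi j.1 j.2 k hj
        have h2 : ∀ k, f (s1 i k) = 0 := by
          intro k
          have h3 : closure (KP (Hull D (S1 i))) ⊆ {k | f k = 0} :=
            closure_minimal h1 (isClosed_eq hf continuous_const)
          exact h3 ((hg _).ret_mem hK k)
        intro k hk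
        have h4 := hinj i (fun k => f (s2 i k) - f (s1 i k))
          ((hf.comp (hs2 i)).sub (hf.comp (hs1 i))) (by
            intro γ
            have h5 := h (Sum.inr ⟨i, γ⟩)
            rw [hσ] at h5
            linarith) k hk
        have h6 : s2 i k = k := ret_fix (hg _) hK hL hsep hk
        simp only [h2, sub_zero, h6] at h4
        exact h4
      have hne : Nonempty κ.ord.ToType := by
        rw [← mk_ne_zero_iff, mk_ord_toType]
        exact (aleph0_pos.trans hκ).ne'
      have h7 : S = ⋃ i, S2 i := by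
        apply Subset.antisymm
        · intro x hx
          refine mem_iUnion.2 ⟨e.symm ⟨x, hx⟩, ⟨e.symm ⟨x, hx⟩, self_mem_Iic, by simp⟩⟩
        · apply iUnion_subset
          rintro i _ ⟨x, hx, rfl⟩
          exact (e x).2
      have h8 : Monotone S2 := by
        intro a b hab
        apply image_mono
        exact Iic_subset_Iic.2 hab
      intro k hk
      rw [h7, hull_iUnion D _ h8.directed_le] at hk
      obtain ⟨i, hi⟩ := mem_iUnion.1 (show (Sum.inl k : K ⊕ L) ∈ ⋃ i, Hull D (S2 i) from hk)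
      exact hzero i k hi

/-- Amir-Lindenstrauss for a pair of compact spaces in separating duality. -/
theorem amir_lindenstrauss (hK : ∀ l, Continuous (fun k => Φ k l))
    (hL : ∀ k, Continuous (Φ k)) (hsep : ∀ k k', (∀ l, Φ k l = Φ k' l) → k = k') :
    PP (Set.univ : Set K) := by
  obtain ⟨D, hDc, hDg⟩ := exists_D (K := K) (L := L) Φ
  have h := main_ind hK hL hsep D hDc hDg _ Set.univ rfl
  have h1 : KP (Hull D (Set.univ : Set (K ⊕ L))) = Set.univ :=
    eq_univ_of_forall (fun k => subset_hull D Set.univ (mem_univ _))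
  rwa [h1] at h

end

end Pool.Agent.H5.Eb
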