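import Mathlib
import Pool.Agent.H5.EbMain
import Pool.Agent.H5.EbGro

set_option autoImplicit false

open Set Filter Topology

namespace Pool.Agent.H5.Eb

theorem CC_of_cover {Y : Type} [TopologicalSpace Y] (F : Set Y)
    (h : ∀ U : ℕ → Set Y, (∀ n, IsOpen (U n)) → F ⊆ ⋃ n, U n →
      ∃ N : ℕ, F ⊆ ⋃ n ∈ Finset.range N, U n) : CC F := by
  intro u
  let U : ℕ → Set Y := fun n => (closure ((fun m => (u m).1) '' Ici n))ᶜ
  have h1 : ¬ F ⊆ ⋃ n, U n := by
    intro h2
    obtain ⟨N, hN⟩ := h U (fun n => isClosed_closure.isOpen_compl) h2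
    have h3 := hN (u N).2
    simp only [mem_iUnion, Finset.mem_range] at h3
    obtain ⟨n, hn, hn2⟩ := h3
    apply hn2
    exact subset_closure ⟨N, hn.le, rfl⟩
  rw [not_subset] at h1
  obtain ⟨z, hzF, hz⟩ := h1
  have h2 : ∀ n, z ∈ closure ((fun m => (u m).1) '' Ici n) := by
    intro n
    by_contra h3
    exact hz (mem_iUnion.2 ⟨n, h3⟩)
  have h3 : MapClusterPt z atTop (fun m => (u m).1) := by
    rw [mapClusterPt_iff_frequently]
    intro s hs
    rw [frequently_atTop]
    intro n
    obtain ⟨y, hy, m, hm, rfl⟩ := mem_closure_iff_nhds.1 (h2 n) s hs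
    exact ⟨m, hm, hy⟩
  obtain ⟨U', hU', hU2⟩ := mapClusterPt_iff_ultrafilter.1 h3
  exact ⟨⟨z, hzF⟩, U', hU', tendsto_subtype_rng.2 hU2⟩

/-- the compact set obtained by shrinking. -/
def KK {F : Type} (E : ℕ → Set (F → ℝ)) : Set (F → ℝ) :=
  {u | u = 0 ∨ ∃ n, ∃ v ∈ E n, u = fun f => Real.arctan (v f) / (n + 1)}

theorem arctan_bd (x : ℝ) (n : ℕ) : |Real.arctan x / (n + 1)| ≤ 2 / (n + 1) := by
  rw [abs_div, abs_of_pos (by positivity : (0 : ℝ) < n + 1)]
  gcongr
  have h1 := Real.arctan_lt_pi_div_two x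
  have h2 := Real.neg_pi_div_two_lt_arctan x
  have h3 := Real.pi_lt_four
  rw [abs_le]
  constructor <;> linarith

theorem KK_bd {F : Type} (E : ℕ → Set (F → ℝ)) {u : F → ℝ} (hu : u ∈ KK E) (f : F) :
    |u f| ≤ 2 := by
  rcases hu with rfl | ⟨n, v, hv, rfl⟩
  · simp
  · refine (arctan_bd _ n).trans ?_
    rw [div_le_iff₀ (by positivity)]
    have : (0 : ℝ) ≤ n := Nat.cast_nonneg n
    linarith

theorem KK_compact {F : Type} (E : ℕ → Set (F → ℝ)) (hE : ∀ n, IsCompact (E n)) :
    IsCompact (KK E) := by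
  rw [isCompact_iff_ultrafilter_le_nhds]
  intro W hW
  have hW' : KK E ∈ W := by simpa using hW
  let E' : ℕ → Set (F → ℝ) := fun n => (fun v f => Real.arctan (v f) / (n + 1)) '' E n
  have hE' : ∀ n, IsCompact (E' n) := by
    intro n
    apply (hE n).image
    apply continuous_pi
    intro f
    have : Continuous (fun v : F → ℝ => Real.arctan (v f)) :=
      Real.continuous_arctan.comp (continuous_apply f)
    exact this.div_const _
  by_cases hex : ∃ n, E' n ∈ W
  · obtain ⟨n, hn⟩ := hex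
    obtain ⟨y, hy, hy2⟩ := (hE' n).ultrafilter_le_nhds W (by simpa using hn)
    obtain ⟨v, hv, rfl⟩ := hy
    exact ⟨_, Or.inr ⟨n, v, hv, rfl⟩, hy2⟩
  · push Not at hex
    refine ⟨0, Or.inl rfl, ?_⟩
    have : Tendsto (fun u : F → ℝ => u) W (𝓝 0) := by
      rw [tendsto_pi_nhds]
      intro f
      rw [Metric.tendsto_nhds]
      intro ε hε
      obtain ⟨N, hN⟩ := exists_nat_gt (2 / ε)
      have h1 : (⋃ n ∈ Finset.range N, E' n) ∉ W := by
        intro h2
        have h2' : (⋃ n ∈ (Finset.range N : Set ℕ), E' n) ∈ W := by simpa using h2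
        rw [Ultrafilter.finite_biUnion_mem_iff (Finset.finite_toSet _)] at h2'
        obtain ⟨n, -, hn⟩ := h2'
        exact hex n hn
      rw [← Ultrafilter.compl_mem_iff_notMem] at h1
      filter_upwards [hW', h1] with u hu hu2
      rw [Real.dist_eq, Pi.zero_apply, sub_zero]
      rcases hu with rfl | ⟨n, v, hv, rfl⟩
      · simpa using hε
      · have hn : N ≤ n := by
          by_contra hcon
          apply hu2
          exact mem_biUnion (by simpa using hcon) ⟨v, hv, rfl⟩
        refine (arctan_bd _ n).trans_lt ?_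
        have h3 : (N : ℝ) ≤ n := by exact_mod_cast hn
        have h4 : (0 : ℝ) < (n : ℝ) + 1 := by positivity
        rw [div_lt_iff₀ h4]
        rw [div_lt_iff₀ hε] at hN
        nlinarith
    exact this

theorem main_thm (X : Type) [TopologicalSpace X] [T35Space X]
    (A : ℕ → Set X) (hA : ∀ n, Bdd (A n)) (hAd : Dense (⋃ n, A n))
    (F : Set (X → ℝ)) (hFc : ∀ f ∈ F, Continuous f) (hcc : CC F) :
    IsCompact F ∧ ∃ (Γ : Type) (e : F → (Γ → ℝ)), Topology.IsEmbedding e ∧
            ∀ k : F, ∀ ε : ℝ, 0 < ε → {γ : Γ | ε ≤ |e k γ|}.Finite := by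
  classical
  let ψ : X → F → ℝ := fun x f => f.1 x
  have hψX : ∀ f, Continuous (fun x => ψ x f) := fun f => hFc f.1 f.2
  have hψF : ∀ x, Continuous (ψ x) := by
    intro x
    exact (continuous_apply x).comp continuous_subtype_val
  let E : ℕ → Set (F → ℝ) := fun n => closure (ψ '' (A n))
  have hEc : ∀ n, ∀ u ∈ E n, Continuous u := fun n u hu => lemmaG ψ hψX hψF (hA n) hcc u hu
  have hEk : ∀ n, IsCompact (E n) := by
    intro n
    choose C hC using fun f : F => hA n f.1 (hFc f.1 f.2)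
    have h1 : IsCompact (Set.pi univ (fun f : F => Icc (-C f) (C f))) :=
      isCompact_univ_pi (fun f => isCompact_Icc)
    refine h1.of_isClosed_subset isClosed_closure (closure_minimal ?_ h1.isClosed)
    rintro _ ⟨x, hx, rfl⟩ f -
    exact abs_le.1 (hC f x hx)
  have hKKc : IsCompact (KK E) := KK_compact E hEk
  have hKcont : ∀ u ∈ KK E, Continuous u := by
    rintro u (rfl | ⟨n, v, hv, rfl⟩)
    · exact continuous_const
    · exact (Real.continuous_arctan.comp (hEc n v hv)).div_const _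
  have : CompactSpace (KK E) := isCompact_iff_compactSpace.1 hKKc
  -- second duality
  let Φ : F → KK E → ℝ := fun f k => k.1 f
  have hΦF : ∀ k, Continuous (fun f => Φ f k) := fun k => hKcont k.1 k.2
  have hΦK : ∀ f, Continuous (Φ f) := by
    intro f
    exact (continuous_apply f).comp continuous_subtype_val
  let L : Set (KK E → ℝ) := closure (Φ '' univ)
  have hLc : ∀ l ∈ L, Continuous l := fun l hl =>
    lemmaG Φ hΦF hΦK (Bdd_univ_of_CC hcc) (CC_of_compact _) l hl
  have hLk : IsCompact L := by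
    have h1 : IsCompact (Set.pi univ (fun _ : KK E => Icc (-2 : ℝ) 2)) :=
      isCompact_univ_pi (fun f => isCompact_Icc)
    refine h1.of_isClosed_subset isClosed_closure (closure_minimal ?_ h1.isClosed)
    rintro _ ⟨f, -, rfl⟩ k -
    exact abs_le.1 (KK_bd E k.2 f)
  have : CompactSpace L := isCompact_iff_compactSpace.1 hLk
  obtain ⟨Γ, τ, -, hfin, hinj⟩ : PP (univ : Set (KK E)) := by
    apply amir_lindenstrauss (K := KK E) (L := L) (Φ := fun k l => l.1 k)
    · intro l
      exact hLc l.1 l.2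
    · intro k
      exact (continuous_apply k).comp continuous_subtype_val
    · intro k k' h
      apply Subtype.ext
      funext f
      exact h ⟨Φ f, subset_closure ⟨f, mem_univ _, rfl⟩⟩
  let T : (KK E → ℝ) → (Γ → ℝ) := fun l γ => τ γ l
  have hT : Continuous T := continuous_pi (fun γ => (τ γ).continuous)
  let e : F → (Γ → ℝ) := fun f => T (Φ f)
  have hΦ : Continuous Φ := continuous_pi (fun k => hΦF k)
  have he : Continuous e := hT.comp hΦ
  have hc0 : ∀ l ∈ L, ∀ ε : ℝ, 0 < ε → {γ | ε ≤ |T l γ|}.Finite := fun l hl ε hε =>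
    hfin l (hLc l hl) ε hε
  have hΦL : ∀ f, Φ f ∈ L := fun f => subset_closure ⟨f, mem_univ _, rfl⟩
  have hTinj : ∀ f f' : F, e f = e f' → f = f' := by
    intro f f' h
    have h1 : ∀ k ∈ (univ : Set (KK E)), Φ f k - Φ f' k = 0 := by
      apply hinj (fun k => Φ f k - Φ f' k) ((hΦK f).sub (hΦK f'))
      intro γ
      have h2 : τ γ (Φ f - Φ f') = 0 := by
        rw [map_sub, sub_eq_zero]
        exact congrFun h γ
      exact h2
    have h3 : ∀ x ∈ ⋃ n, A n, f.1 x = f'.1 x := by
      intro x hx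
      obtain ⟨n, hn⟩ := mem_iUnion.1 hx
      let u : F → ℝ := fun f => Real.arctan (ψ x f) / (n + 1)
      have hu : u ∈ KK E := Or.inr ⟨n, ψ x, subset_closure ⟨x, hn, rfl⟩, rfl⟩
      have h4 := h1 ⟨u, hu⟩ (mem_univ _)
      have h5 : Real.arctan (f.1 x) / ((n : ℝ) + 1) - Real.arctan (f'.1 x) / ((n : ℝ) + 1) = 0 := h4
      have h6 : (0 : ℝ) < n + 1 := by positivity
      rw [← sub_div, div_eq_zero_iff] at h5
      rcases h5 with h5 | h5
      · exact Real.arctan_injective (sub_eq_zero.1 h5)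
      · exact absurd h5 h6.ne'
    apply Subtype.ext
    exact Continuous.ext_on hAd (hFc f.1 f.2) (hFc f'.1 f'.2) h3
  have hTL : IsCompact (T '' L) := hLk.image hT
  -- closed map
  have hclosed : IsClosedMap e := by
    intro C hC
    rw [← closure_subset_iff_isClosed]
    intro u hu
    have huL : u ∈ T '' L := by
      have h1 : closure (e '' C) ⊆ T '' L := by
        apply closure_minimal _ hTL.isClosed
        rintro _ ⟨f, -, rfl⟩
        exact ⟨Φ f, hΦL f, rfl⟩
      exact h1 hu
    obtain ⟨l, hl, rfl⟩ := huL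
    have huc := hc0 l hl
    have happ : ∀ s : Finset Γ, ∀ ε : ℝ, 0 < ε → ∃ f ∈ C, ∀ γ ∈ s, |e f γ - T l γ| < ε := by
      intro s ε hε
      have hopen : IsOpen {v : Γ → ℝ | ∀ γ ∈ s, |v γ - T l γ| < ε} := by
        have : {v : Γ → ℝ | ∀ γ ∈ s, |v γ - T l γ| < ε} =
            ⋂ γ ∈ s, {v : Γ → ℝ | |v γ - T l γ| < ε} := by
          ext v; simp
        rw [this]
        apply isOpen_biInter_finset
        intro z _
        exact isOpen_lt (by fun_prop) continuous_const
      obtain ⟨v, hv, x, hx, rfl⟩ := mem_closure_iff.1 hu _ hopen (by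
        intro z _
        simpa using hε)
      exact ⟨x, hx, hv⟩
    obtain ⟨p, hp1, hp2⟩ := exists_seq_of_forall_finset_exists
      (fun q : ℕ × F => q.2 ∈ C ∧ ∀ γ, 1 / ((q.1 : ℝ) + 1) ≤ |T l γ| →
        |e q.2 γ - T l γ| < 1 / ((q.1 : ℝ) + 1))
      (fun q q' => q.1 < q'.1 ∧ ∀ γ, 1 / ((q'.1 : ℝ) + 1) ≤ |e q.2 γ| →
        |e q'.2 γ - T l γ| < 1 / ((q'.1 : ℝ) + 1))
      (by
        intro s hs
        let m' : ℕ := s.sup (fun q => q.1) + 1
        have hm' : ∀ q ∈ s, q.1 < m' := fun q hq =>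
          Nat.lt_succ_of_le (Finset.le_sup (f := fun q : ℕ × F => q.1) hq)
        have hpos : (0 : ℝ) < 1 / ((m' : ℝ) + 1) := by positivity
        have hfinu := huc _ hpos
        have hfinq : ∀ q : ℕ × F, {γ | 1 / ((m' : ℝ) + 1) ≤ |e q.2 γ|}.Finite :=
          fun q => hc0 _ (hΦL q.2) _ hpos
        obtain ⟨f, hf, hf2⟩ := happ (hfinu.toFinset ∪ s.biUnion (fun q => (hfinq q).toFinset)) _ hpos
        refine ⟨⟨m', f⟩, ⟨hf, ?_⟩, ?_⟩
        · intro γ hγ
          apply hf2
          rw [Finset.mem_union]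
          left
          rw [Set.Finite.mem_toFinset]
          exact hγ
        · intro q hq
          refine ⟨hm' q hq, ?_⟩
          intro γ hγ
          apply hf2
          rw [Finset.mem_union]
          right
          rw [Finset.mem_biUnion]
          refine ⟨q, hq, ?_⟩
          rw [Set.Finite.mem_toFinset]
          exact hγ)
    have hsm : StrictMono (fun n => (p n).1) := fun a b hab => (hp2 a b hab).1
    have hpn : ∀ n, n ≤ (p n).1 := fun n => hsm.le_apply
    have hlim0 : Tendsto (fun n : ℕ => 1 / (((p n).1 : ℝ) + 1)) atTop (𝓝 0) :=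
      tendsto_one_div_add_atTop_nhds_zero_nat.comp hsm.tendsto_atTop
    obtain ⟨f, U, hU, hf⟩ := hcc (fun n => (p n).2)
    have hfC : f ∈ C := hC.mem_of_tendsto hf (Eventually.of_forall (fun n => (hp1 n).1))
    refine ⟨f, hfC, ?_⟩
    funext γ
    have hef : Tendsto (fun n => e (p n).2 γ) U (𝓝 (e f γ)) :=
      ((continuous_apply γ).tendsto _).comp ((he.tendsto f).comp hf)
    have hmain : (∀ᶠ n in atTop, |e (p n).2 γ - T l γ| < 1 / (((p n).1 : ℝ) + 1)) →
        e f γ = T l γ := by
      intro h1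
      have h2 : Tendsto (fun n => e (p n).2 γ) atTop (𝓝 (T l γ)) := by
        rw [tendsto_iff_norm_sub_tendsto_zero]
        apply squeeze_zero' (Eventually.of_forall (fun n => norm_nonneg _)) _ hlim0
        filter_upwards [h1] with n hn
        exact hn.le
      exact tendsto_nhds_unique hef (h2.mono_left hU)
    by_cases h0 : T l γ = 0
    · by_cases h1 : ∀ n, e (p n).2 γ = 0
      · rw [h0]
        simp only [h1] at hef
        exact (tendsto_nhds_unique hef tendsto_const_nhds)
      · push Not at h1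
        obtain ⟨m, hm⟩ := h1
        apply hmain
        have h2 : (0 : ℝ) < |e (p m).2 γ| := abs_pos.2 hm
        filter_upwards [hlim0.eventually (gt_mem_nhds h2), eventually_gt_atTop m] with n hn hn2
        exact (hp2 m n hn2).2 γ hn.le
    · apply hmain
      have h2 : (0 : ℝ) < |T l γ| := abs_pos.2 h0
      filter_upwards [hlim0.eventually (gt_mem_nhds h2)] with n hn
      exact (hp1 n).2 γ hn.le
  have hemb : Topology.IsClosedEmbedding e :=
    Topology.IsClosedEmbedding.of_continuous_injective_isClosedMap he hTinj hclosed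
  refine ⟨?_, Γ, e, hemb.isEmbedding, fun k ε hε => hc0 _ (hΦL k) ε hε⟩
  rw [isCompact_iff_isCompact_univ, hemb.isInducing.isCompact_iff]
  refine hTL.of_isClosed_subset ?_ ?_
  · exact hclosed _ isClosed_univ
  · rintro _ ⟨f, -, rfl⟩
    exact ⟨Φ f, hΦL f, rfl⟩

end Pool.Agent.H5.Eb
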