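import Mathlib

set_option autoImplicit false

open Set Filter Topology

namespace Pool.Agent.H5.Supp

universe u

/-- `C_p(X)`: the linear space of all continuous real functions on `X`, a subspace of the product
`X → ℝ` (hence with the topology of pointwise convergence). -/
def Cp (X : Type u) [TopologicalSpace X] : Submodule ℝ (X → ℝ) where
  carrier := {f | Continuous f}
  add_mem' := fun hf hg => Continuous.add hf hg
  zero_mem' := continuous_const
  smul_mem' := fun c _ hf => Continuous.const_smul hf c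

/-- evaluation -/
def ev {X : Type u} [TopologicalSpace X] (x : X) : Cp X →ₗ[ℝ] ℝ :=
  (LinearMap.proj x).comp (Cp X).subtype

theorem exists_supp {X : Type u} [TopologicalSpace X] (φ : Cp X →L[ℝ] ℝ) :
    ∃ c : X →₀ ℝ, ∀ f : Cp X, φ f = c.sum (fun x r => r * f.1 x) := by
  have h1 : (φ : Cp X →ₗ[ℝ] ℝ) ∈ Submodule.span ℝ (range (ev (X := X))) := by
    rw [LinearMap.mem_span_iff_continuous]
    have h2 : (⨅ i, TopologicalSpace.induced (ev (X := X) i) inferInstance) =
        (inferInstance : TopologicalSpace (Cp X)) := by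
      show _ = TopologicalSpace.induced Subtype.val (Pi.topologicalSpace)
      unfold Pi.topologicalSpace
      rw [induced_iInf]
      simp only [induced_compose]
      rfl
    rw [h2]
    exact φ.continuous
  rw [Finsupp.mem_span_range_iff_exists_finsupp] at h1
  obtain ⟨c, hc⟩ := h1
  refine ⟨c, ?_⟩
  intro f
  have h3 := congrArg (fun ψ : Cp X →ₗ[ℝ] ℝ => ψ f) hc
  simp only [Finsupp.sum, LinearMap.sum_apply, LinearMap.smul_apply, smul_eq_mul] at h3
  rw [Finsupp.sum]
  exact h3.symm

/-- bump functions -/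
theorem exists_bump {X : Type u} [TopologicalSpace X] [CompletelyRegularSpace X] (x : X)
    (C : Set X) (hC : IsClosed C) (hx : x ∉ C) :
    ∃ f : X → ℝ, Continuous f ∧ f x = 1 ∧ ∀ y ∈ C, f y = 0 := by
  obtain ⟨f, hf, h0, h1⟩ := CompletelyRegularSpace.completely_regular x C hC hx
  refine ⟨fun y => 1 - (f y : ℝ), by fun_prop, ?_, ?_⟩
  · simp [h0]
  · intro y hy
    simp [h1 hy]

section

variable {X Y : Type u} [TopologicalSpace X] [T35Space X] [TopologicalSpace Y] [T35Space Y]

/-- the coefficients of the functional `f ↦ T f y`. -/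
noncomputable def cf (T : Cp X →L[ℝ] Cp Y) (y : Y) : X →₀ ℝ :=
  (exists_supp ({ toLinearMap := (ev y).comp (T : Cp X →ₗ[ℝ] Cp Y)
                  cont := (continuous_apply y).comp (continuous_subtype_val.comp T.continuous) } :
                  Cp X →L[ℝ] ℝ)).choose

omit [T35Space X] [T35Space Y] in
theorem cf_spec (T : Cp X →L[ℝ] Cp Y) (y : Y) (f : Cp X) :
    (T f).1 y = (cf T y).sum (fun x r => r * f.1 x) :=
  (exists_supp ({ toLinearMap := (ev y).comp (T : Cp X →ₗ[ℝ] Cp Y)
                  cont := (continuous_apply y).comp (continuous_subtype_val.comp T.continuous) } :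
                  Cp X →L[ℝ] ℝ)).choose_spec f

omit [T35Space X] [T35Space Y] in
theorem cf_zero (T : Cp X →L[ℝ] Cp Y) (y : Y) (f : Cp X)
    (h : ∀ x ∈ (cf T y).support, f.1 x = 0) : (T f).1 y = 0 := by
  rw [cf_spec, Finsupp.sum]
  apply Finset.sum_eq_zero
  intro x hx
  rw [h x hx, mul_zero]

omit [T35Space X] [T35Space Y] in
theorem cf_one (T : Cp X →L[ℝ] Cp Y) (y : Y) (f : Cp X) (x : X)
    (h : ∀ x' ∈ (cf T y).support, x' ≠ x → f.1 x' = 0) :
    (T f).1 y = cf T y x * f.1 x := by
  rw [cf_spec, Finsupp.sum]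
  by_cases hx : x ∈ (cf T y).support
  · rw [Finset.sum_eq_single x]
    · intro b hb hbx
      rw [h b hb hbx, mul_zero]
    · intro h2
      exact absurd hx h2
  · rw [Finset.sum_eq_zero]
    · rw [Finsupp.notMem_support_iff.1 hx, zero_mul]
    · intro b hb
      rw [h b hb (by rintro rfl; exact hx hb), mul_zero]

omit [T35Space Y] in
/-- lower semicontinuity of the supports -/
theorem lsc (T : Cp X →L[ℝ] Cp Y) (y : Y) (x : X) (hx : x ∈ (cf T y).support) (U : Set X)
    (hU : IsOpen U) (hxU : x ∈ U) :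
    ∀ᶠ y' in 𝓝 y, ∃ x' ∈ (cf T y').support, x' ∈ U := by
  classical
  have hC : IsClosed (Uᶜ ∪ (((cf T y).support.erase x : Finset X) : Set X)) :=
    hU.isClosed_compl.union (Finset.finite_toSet _).isClosed
  obtain ⟨f, hf, h1, h0⟩ := exists_bump x _ hC (by
    rintro (h | h)
    · exact h hxU
    · simp at h)
  let F : Cp X := ⟨f, hf⟩
  have h2 : (T F).1 y = cf T y x := by
    rw [cf_one T y F x]
    · show cf T y x * f x = _
      rw [h1, mul_one]
    · intro x' hx' hne
      apply h0
      right
      simp only [Finset.coe_erase, mem_diff, Finset.mem_coe, mem_singleton_iff]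
      exact ⟨hx', hne⟩
  have h3 : (T F).1 y ≠ 0 := by
    rw [h2]
    exact Finsupp.mem_support_iff.1 hx
  have h4 : Continuous (T F).1 := (T F).2
  filter_upwards [h4.continuousAt.eventually_ne h3] with y' hy'
  by_contra hcon
  push Not at hcon
  apply hy'
  apply cf_zero
  intro x' hx'
  apply h0
  left
  exact hcon x' hx'

omit [T35Space Y] in
/-- every point of `X` lies in some support -/
theorem exists_cover (T : Cp X ≃L[ℝ] Cp Y) (x : X) :
    ∃ y, x ∈ (cf (T : Cp X →L[ℝ] Cp Y) y).support := by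
  classical
  by_contra hcon
  push Not at hcon
  let s : Finset X := (cf (T.symm : Cp Y →L[ℝ] Cp X) x).support.biUnion
    (fun y => (cf (T : Cp X →L[ℝ] Cp Y) y).support)
  have hxs : x ∉ (s : Set X) := by
    simp only [s, Finset.coe_biUnion, mem_iUnion, not_exists]
    intro y _
    exact hcon y
  obtain ⟨f, hf, h1, h0⟩ := exists_bump x (s : Set X) (Finset.finite_toSet _).isClosed hxs
  let F : Cp X := ⟨f, hf⟩
  have h2 : ((T.symm : Cp Y →L[ℝ] Cp X) (T F)).1 x = 0 := by
    apply cf_zero
    intro y hy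
    apply cf_zero (T : Cp X →L[ℝ] Cp Y)
    intro x' hx'
    apply h0
    simp only [s, Finset.coe_biUnion, mem_iUnion]
    exact ⟨y, hy, hx'⟩
  have h3 : (T.symm : Cp Y →L[ℝ] Cp X) (T F) = F := T.symm_apply_apply F
  rw [h3] at h2
  have : f x = 0 := h2
  linarith

end

end Pool.Agent.H5.Supp
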