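import Mathlib
import Pool.Agent.H5.Supp

set_option autoImplicit false

open Set Filter Topology Cardinal

namespace Pool.Agent.H5.Supp

universe u

theorem exists_big {α : Type u} {κ : Cardinal.{u}} (hκ : ℵ₀ ≤ κ) (D : Set α) (hD : κ < #D)
    (P : ℕ → Set α) (h : D ⊆ ⋃ n, P n) : ∃ n, κ < #(D ∩ P n : Set α) := by
  by_contra hcon
  push Not at hcon
  have h1 : D ⊆ ⋃ n, (D ∩ P n) := by
    intro x hx
    obtain ⟨n, hn⟩ := mem_iUnion.1 (h hx)
    exact mem_iUnion.2 ⟨n, hx, hn⟩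
  have h2 : #D ≤ κ := by
    refine (mk_le_mk_of_subset h1).trans ?_
    have h3 := mk_iUnion_le_lift (fun n => D ∩ P n)
    rw [lift_uzero] at h3
    refine h3.trans ?_
    have h4 : (⨆ n, lift.{0} #(D ∩ P n : Set α)) ≤ κ := by
      apply ciSup_le'
      intro n
      rw [lift_uzero]
      exact hcon n
    calc lift.{u} #ℕ * (⨆ n, lift.{0} #(D ∩ P n : Set α)) ≤ κ * κ := by
          apply mul_le_mul' _ h4
          simpa using hκ
      _ = κ := mul_eq_self hκ
  exact absurd hD (not_lt.2 h2)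

theorem big_image {α β : Type u} {κ : Cardinal.{u}} (hκ : ℵ₀ ≤ κ) (D : Set α) (hD : κ < #D)
    (y : α → β) (hfin : ∀ b, {d | d ∈ D ∧ y d = b}.Finite) : κ < #(y '' D) := by
  by_contra hcon
  rw [not_lt] at hcon
  have h1 : D ⊆ ⋃ b : y '' D, {d | d ∈ D ∧ y d = b.1} := by
    intro d hd
    exact mem_iUnion.2 ⟨⟨y d, d, hd, rfl⟩, hd, rfl⟩
  have h2 : #D ≤ κ := by
    refine (mk_le_mk_of_subset h1).trans ?_
    refine (mk_iUnion_le _).trans ?_
    have h4 : (⨆ b : y '' D, #{d | d ∈ D ∧ y d = b.1}) ≤ κ := by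
      apply ciSup_le'
      intro b
      exact ((hfin b.1).lt_aleph0.le).trans hκ
    exact (mul_le_mul' hcon h4).trans (mul_eq_self hκ).le
  exact absurd hD (not_lt.2 h2)

/-- closed and discrete subsets -/
theorem cd_iff {X : Type u} [TopologicalSpace X] (S : Set X) :
    (IsClosed S ∧ DiscreteTopology S) ↔ ∀ x, ∀ᶠ x' in 𝓝[≠] x, x' ∉ S := by
  rw [← isDiscrete_iff_discreteTopology, isClosed_and_discrete_iff]
  apply forall_congr'
  intro x
  rw [Filter.disjoint_principal_right]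
  rfl

theorem cd_of_finite {X : Type u} [TopologicalSpace X] [T1Space X] (S : Set X)
    (h : ∀ x, ∃ V ∈ 𝓝 x, (V ∩ S).Finite) : IsClosed S ∧ DiscreteTopology S := by
  rw [cd_iff]
  intro x
  obtain ⟨V, hV, hVS⟩ := h x
  have h1 : ((V ∩ S) \ {x})ᶜ ∈ 𝓝 x := (hVS.subset diff_subset).isClosed.isOpen_compl.mem_nhds
    (by simp)
  filter_upwards [mem_nhdsWithin_of_mem_nhds hV, mem_nhdsWithin_of_mem_nhds h1,
    self_mem_nhdsWithin] with z hz1 hz2 hz3 hz4
  exact hz2 ⟨⟨hz1, hz4⟩, hz3⟩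

variable {X Y : Type u} [TopologicalSpace X] [T35Space X] [TopologicalSpace Y] [T35Space Y]

theorem main1 (T : Cp X ≃L[ℝ] Cp Y) (hY : ∀ s : Set Y, IsClosed s → IsGδ s)
    {κ : Cardinal.{u}} (hκ : ℵ₀ ≤ κ) (D : Set X) (hDc : IsClosed D) (hDd : DiscreteTopology D)
    (hD : κ < #D) : ∃ E : Set Y, IsClosed E ∧ DiscreteTopology E ∧ κ < #E := by
  classical
  let S : Y → Finset X := fun y => (cf (T : Cp X →L[ℝ] Cp Y) y).support
  choose y hy using exists_cover T
  -- first refinement: the size of the support is constant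
  obtain ⟨n, hn⟩ := exists_big hκ D hD (fun n => {d | (S (y d)).card = n})
    (fun d _ => mem_iUnion.2 ⟨_, rfl⟩)
  -- points with small support
  have hopen : IsOpen {z : Y | n ≤ (S z).card} := by
    rw [isOpen_iff_mem_nhds]
    intro z hz
    obtain ⟨W, hW1, hW2⟩ := (Finset.finite_toSet (S z)).t2_separation
    have h1 : ∀ᶠ z' in 𝓝 z, ∀ x ∈ S z, ∃ x' ∈ S z', x' ∈ W x := by
      rw [Filter.eventually_all_finset]
      intro x hx
      exact lsc (T : Cp X →L[ℝ] Cp Y) z x hx (W x) (hW1 x).2 (hW1 x).1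
    filter_upwards [h1] with z' hz'
    choose! g hg1 hg2 using hz'
    refine le_trans hz (Finset.card_le_card_of_injOn g hg1 ?_)
    intro a ha b hb hab
    by_contra hne
    exact Set.disjoint_left.1 (hW2 ha hb hne) (hg2 a ha) (hab ▸ hg2 b hb)
  obtain ⟨F, hF1, hF2⟩ : ∃ F : ℕ → Set Y, (∀ j, IsClosed (F j)) ∧
      {z : Y | n ≤ (S z).card} = ⋃ j, F j := by
    obtain ⟨G, hG1, hG2⟩ := isGδ_iff_eq_iInter_nat.1 (hY _ hopen.isClosed_compl)
    refine ⟨fun j => (G j)ᶜ, fun j => (hG1 j).isClosed_compl, ?_⟩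
    rw [← compl_iInter, ← hG2, compl_compl]
  obtain ⟨j, hj⟩ := exists_big hκ _ hn (fun j => y ⁻¹' (F j)) (by
    intro d hd
    have h1 : y d ∈ {z : Y | n ≤ (S z).card} := hd.2.ge
    rw [hF2] at h1
    obtain ⟨j, hj⟩ := mem_iUnion.1 h1
    exact mem_iUnion.2 ⟨j, hj⟩)
  set D' : Set X := (D ∩ {d | (S (y d)).card = n}) ∩ y ⁻¹' (F j) with hD'
  have hfib : ∀ b, {d | d ∈ D' ∧ y d = b}.Finite := by
    intro b
    apply (Finset.finite_toSet (S b)).subset
    rintro d ⟨-, rfl⟩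
    exact hy d
  have hcard : κ < #(y '' D') := big_image hκ D' hj y hfib
  have hcd := cd_of_finite (y '' D') (by
    intro z
    by_cases hz : z ∈ F j
    · have hzn : n ≤ (S z).card := by
        have : z ∈ {z : Y | n ≤ (S z).card} := by
          rw [hF2]; exact mem_iUnion.2 ⟨j, hz⟩
        exact this
      obtain ⟨W, hW1, hW2⟩ := (Finset.finite_toSet (S z)).t2_separation
      have hDx : ∀ x, ∃ U : Set X, IsOpen U ∧ x ∈ U ∧ ∀ d ∈ D, d ∈ U → d = x := by
        intro x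
        have h1 := (cd_iff D).1 ⟨hDc, hDd⟩ x
        rw [eventually_nhdsWithin_iff] at h1
        obtain ⟨U, hU, hUo, hxU⟩ := eventually_nhds_iff.1 h1
        refine ⟨U, hUo, hxU, ?_⟩
        intro d hd hdU
        by_contra hne
        exact hU d hdU hne hd
      choose U hUo hxU hU using hDx
      have h1 : ∀ᶠ z' in 𝓝 z, ∀ x ∈ S z, ∃ x' ∈ S z', x' ∈ W x ∩ U x := by
        rw [Filter.eventually_all_finset]
        intro x hx
        exact lsc (T : Cp X →L[ℝ] Cp Y) z x hx (W x ∩ U x) ((hW1 x).2.inter (hUo x))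
          ⟨(hW1 x).1, hxU x⟩
      refine ⟨_, h1, ?_⟩
      apply ((Finset.finite_toSet (S z)).image y).subset
      rintro _ ⟨hz', d, hd, rfl⟩
      have hz'' : ∀ x ∈ S z, ∃ x' ∈ S (y d), x' ∈ W x ∩ U x := hz'
      choose! g hg1 hg2 using hz''
      refine ⟨d, ?_, rfl⟩
      by_contra hdS
      have h3 : ∀ x ∈ S z, g x ∈ (S (y d)).erase d := by
        intro x hx
        rw [Finset.mem_erase]
        refine ⟨?_, hg1 x hx⟩
        intro h4
        have h5 := (hg2 x hx).2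
        rw [h4] at h5
        have h6 := hU x d hd.1.1 h5
        rw [h6] at hdS
        exact hdS hx
      have h4 : (S z).card ≤ ((S (y d)).erase d).card := by
        apply Finset.card_le_card_of_injOn g h3
        intro a ha b hb hab
        by_contra hne
        exact Set.disjoint_left.1 (hW2 ha hb hne) (hg2 a ha).1 (hab ▸ (hg2 b hb).1)
      have h5 : (S (y d)).card = n := hd.1.2
      have h6 := Finset.card_erase_lt_of_mem (hy d)
      have h7 : ((S (y d)).erase d).card < (S (y d)).card := h6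
      omega
    · refine ⟨(F j)ᶜ, (hF1 j).isOpen_compl.mem_nhds hz, ?_⟩
      have : (F j)ᶜ ∩ y '' D' = ∅ := by
        rw [eq_empty_iff_forall_notMem]
        rintro _ ⟨h1, d, hd, rfl⟩
        exact h1 hd.2
      rw [this]
      exact finite_empty)
  exact ⟨y '' D', hcd.1, hcd.2, hcard⟩

end Pool.Agent.H5.Supp
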