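import Pool.Agent.H5.FanDefs
set_option autoImplicit false
open Filter Topology Set

/-! PART F of S3070: `C_p(FX)` and `C_p(FY)` are not uniformly homeomorphic. -/

namespace Pool.Agent.H5.Fan
open Pool.Agent.H5.OPt
open scoped Uniformity

abbrev CX : Type := {f : FX → ℝ // Continuous f}
abbrev CY : Type := {g : FY → ℝ // Continuous g}

/-- fibre of `cls` -/
def Fib (c : ℕ) : Type := {d : DD // cls d = c}

instance (c : ℕ) : TopologicalSpace (Fib c) := ⊥
instance (c : ℕ) : DiscreteTopology (Fib c) := ⟨rfl⟩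

abbrev FE (c : ℕ) : Type := ZeroAtInftyContinuousMap (Fib c) ℝ

abbrev FF : Type := (c : ℕ) → FE c

lemma fin_of_C0 {c : ℕ} (z : FE c) {ε : ℝ} (hε : 0 < ε) : {x : Fib c | ε < |z x|}.Finite := by
  have h1 := z.zero_at_infty'
  rw [Filter.cocompact_eq_cofinite] at h1
  have h2 := (Metric.tendsto_nhds.mp h1) ε hε
  rw [Filter.eventually_cofinite] at h2
  refine h2.subset ?_
  intro x hx
  have hx' : ε < |z x| := hx
  show ¬ (dist (z x) 0 < ε)
  rw [Real.dist_eq, sub_zero, not_lt]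
  exact hx'.le

/-- elements of `C₀` from functions -/
def mkC0 {c : ℕ} (f : Fib c → ℝ) (h : ∀ ε > 0, {x : Fib c | ε < |f x|}.Finite) : FE c where
  toFun := f
  continuous_toFun := continuous_of_discreteTopology
  zero_at_infty' := by
    rw [Filter.cocompact_eq_cofinite, Metric.tendsto_nhds]
    intro ε hε
    rw [Filter.eventually_cofinite]
    refine (h (ε / 2) (by positivity)).subset ?_
    intro x hx
    have hx' : ¬ (dist (f x) 0 < ε) := hx
    rw [Real.dist_eq, sub_zero, not_lt] at hx'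
    show ε / 2 < |f x|
    linarith

/-- the function attached to `z` -/
def fz (z : FF) : FX → ℝ := pcase 0 (fun d => z (cls d) ⟨d, rfl⟩)

lemma fz_cont (z : FF) : Continuous (fz z) := by
  rw [cont_iff]
  intro ε hε
  show ∀ c, {d | d ∈ {d | ε < |fz z (pin IX d) - fz z (pinf IX)|} ∧ cls d = c}.Finite
  intro c
  refine ((fin_of_C0 (z c) hε).image Subtype.val).subset ?_
  rintro d ⟨hd, rfl⟩
  refine ⟨⟨d, rfl⟩, ?_, rfl⟩
  have hd' : ε < |fz z (pin IX d) - fz z (pinf IX)| := hd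
  rw [show fz z (pin IX d) = z (cls d) ⟨d, rfl⟩ from rfl, show fz z (pinf IX) = 0 from rfl, sub_zero] at hd'
  exact hd'

def Fz (z : FF) : CX := ⟨fz z, fz_cont z⟩

lemma Fz_cont : Continuous Fz := by
  refine Continuous.subtype_mk ?_ _
  refine continuous_pi (fun x => ?_)
  rcases Ptcases x with rfl | ⟨d, rfl⟩
  · exact continuous_const
  · have h1 : Continuous (fun z : FF => (z (cls d)).toBCF) :=
      (ZeroAtInftyContinuousMap.isometry_toBCF).continuous.comp (continuous_apply (cls d))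
    have h2 : Continuous (fun w : BoundedContinuousFunction (Fib (cls d)) ℝ => w ⟨d, rfl⟩) :=
      continuous_eval_const (F := BoundedContinuousFunction (Fib (cls d)) ℝ) _
    exact h2.comp h1

lemma pt_le {c : ℕ} (z w : FE c) (x : Fib c) : |z x - w x| ≤ ‖z - w‖ := by
  have := BoundedContinuousFunction.norm_coe_le_norm (z - w).toBCF x
  exact this

lemma unifU (Φ : CX → CY) (hΦ : UniformContinuous Φ) (y : FY) :
    ∃ δ > 0, ∀ f g : CX, (∀ x, |f.1 x - g.1 x| < δ) → |(Φ f).1 y - (Φ g).1 y| < 1 := by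
  have h1 : UniformContinuous (fun f : CX => (Φ f).1 y) :=
    ((Pi.uniformContinuous_proj (fun _ : FY => ℝ) y).comp uniformContinuous_subtype_val).comp hΦ
  have h2 : {p : ℝ × ℝ | dist p.1 p.2 < 1} ∈ 𝓤 ℝ := Metric.dist_mem_uniformity one_pos
  have h3 := h1 h2
  rw [Filter.mem_map, uniformity_subtype, Filter.mem_comap] at h3
  obtain ⟨W, hW, hWs⟩ := h3
  have h4 := (UniformFun.uniformContinuous_toFun (α := FX) (β := ℝ)) hW
  rw [Filter.mem_map, (UniformFun.hasBasis_uniformity FX ℝ).mem_iff] at h4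
  obtain ⟨V, hV, hVs⟩ := h4
  obtain ⟨δ, hδ, hδV⟩ := Metric.mem_uniformity_dist.mp hV
  refine ⟨δ, hδ, fun f g hfg => ?_⟩
  have h5 : (UniformFun.ofFun f.1, UniformFun.ofFun g.1) ∈ UniformFun.gen FX ℝ V := by
    intro x
    exact hδV (by rw [Real.dist_eq]; exact hfg x)
  have h6 := hVs h5
  have h7 : (f, g) ∈ (fun q : CX × CX => ((q.1 : FX → ℝ), (q.2 : FX → ℝ))) ⁻¹' W := h6
  have h8 := hWs h7
  have h9 : dist ((Φ f).1 y) ((Φ g).1 y) < 1 := h8
  rw [Real.dist_eq] at h9
  exact h9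

/-- convex combinations -/
def cv (f g : CX) (s : ℝ) : CX := ⟨fun x => f.1 x + s * (g.1 x - f.1 x),
  f.2.add (continuous_const.mul (g.2.sub f.2))⟩

lemma chain (Φ : CX → CY) (hΦ : UniformContinuous Φ) (y : FY) (t : ℝ) :
    ∃ M : ℝ, 0 ≤ M ∧ ∀ f g : CX, (∀ x, |f.1 x - g.1 x| ≤ t) → |(Φ f).1 y - (Φ g).1 y| ≤ M := by
  obtain ⟨δ, hδ, hU⟩ := unifU Φ hΦ y
  obtain ⟨N, hN⟩ := exists_nat_gt (|t| / δ)
  have hN0 : 0 < N := by
    have h : (0 : ℝ) < N := lt_of_le_of_lt (by positivity) hN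
    exact_mod_cast h
  have hNr : (0 : ℝ) < N := by exact_mod_cast hN0
  refine ⟨N, hNr.le, fun f g hfg => ?_⟩
  have hstep : ∀ j : ℕ, |(Φ (cv f g (j / N))).1 y - (Φ (cv f g (((j + 1 : ℕ) : ℝ) / N))).1 y| < 1 := by
    intro j
    apply hU
    intro x
    have h1 : (cv f g (j / N)).1 x - (cv f g (((j + 1 : ℕ) : ℝ) / N)).1 x = (f.1 x - g.1 x) / N := by
      simp only [cv]
      push_cast
      field_simp
      ring
    rw [h1, abs_div, abs_of_pos hNr, div_lt_iff₀ hNr]
    have h2 : |t| < N * δ := by rwa [div_lt_iff₀ hδ] at hN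
    calc |f.1 x - g.1 x| ≤ t := hfg x
      _ ≤ |t| := le_abs_self t
      _ < δ * N := by linarith
  have hsum : ∀ j : ℕ, |(Φ (cv f g ((0 : ℕ) / N))).1 y - (Φ (cv f g (j / N))).1 y| ≤ j := by
    intro j
    induction j with
    | zero => simp
    | succ j ih =>
      have h1 := hstep j
      have h2 := abs_sub_le ((Φ (cv f g ((0 : ℕ) / N))).1 y) ((Φ (cv f g (j / N))).1 y)
        ((Φ (cv f g (((j + 1 : ℕ) : ℝ) / N))).1 y)
      push_cast at h1 h2 ⊢
      push_cast at ih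
      linarith
  have h0 : cv f g ((0 : ℕ) / N) = f := by
    apply Subtype.ext
    funext x
    simp [cv]
  have h1 : cv f g ((N : ℝ) / N) = g := by
    apply Subtype.ext
    funext x
    simp [cv, div_self hNr.ne']
  have h2 := hsum N
  rw [h0, h1] at h2
  exact h2

theorem not_unif : ¬ Nonempty (UniformEquiv {f : FX → ℝ // Continuous f} {g : FY → ℝ // Continuous g}) := by
  classical
  rintro ⟨Φ⟩
  have hΦ : UniformContinuous (fun f : CX => (Φ f : CY)) := Φ.uniformContinuous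
  have hΦc : Continuous (fun f : CX => (Φ f : CY)) := hΦ.continuous
  -- the closed sets
  let B : ℕ → Set FF := fun k => {z | ∀ n, k ≤ n → ∀ l,
    |(Φ (Fz z)).1 (pin IY (mn n l)) - (Φ (Fz z)).1 (pinf IY)| ≤ 1}
  have hev : ∀ y : FY, Continuous (fun z : FF => (Φ (Fz z)).1 y) := fun y =>
    (continuous_apply y).comp (continuous_subtype_val.comp (hΦc.comp Fz_cont))
  have hBc : ∀ k, IsClosed (B k) := by
    intro k
    have : B k = ⋂ n, ⋂ (_ : k ≤ n), ⋂ l, {z | |(Φ (Fz z)).1 (pin IY (mn n l)) - (Φ (Fz z)).1 (pinf IY)| ≤ 1} := by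
      ext z; simp [B]
    rw [this]
    refine isClosed_iInter (fun n => isClosed_iInter (fun _ => isClosed_iInter (fun l => ?_)))
    exact isClosed_le ((hev _).sub (hev _)).abs continuous_const
  have hBu : ⋃ k, B k = Set.univ := by
    rw [Set.eq_univ_iff_forall]
    intro z
    have h1 := (cont_iff (Φ (Fz z)).1).mp (Φ (Fz z)).2 1 one_pos
    obtain ⟨N, hN⟩ := h1.2
    refine Set.mem_iUnion.mpr ⟨N, fun n hn l => ?_⟩
    exact not_lt.mp (hN n hn l)
  obtain ⟨k, hk⟩ := nonempty_interior_of_iUnion_of_closed hBc hBu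
  obtain ⟨z0, hz0⟩ := hk
  obtain ⟨J, u, hu, hJ⟩ := isOpen_pi_iff.mp isOpen_interior z0 hz0
  have hBJ : ∀ z' : FF, (∀ c ∈ J, z' c = z0 c) → z' ∈ B k := by
    intro z' hz'
    apply interior_subset
    apply hJ
    intro c hc
    rw [hz' c hc]
    exact (hu c hc).2
  -- chain constants
  choose M hM0 hM using (fun (y : FY) (t : ℝ) => chain (fun f => Φ f) hΦ y t)
  -- the bad function
  let g0 : DD → ℝ := fun d => if h : ∃ m, d = mn k m then
    2 + M (pin IY (mn k h.choose)) (h.choose : ℝ) + M (pinf IY) (h.choose : ℝ) else 0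
  have hg0 : ∀ m : ℕ, g0 (mn k m) = 2 + M (pin IY (mn k m)) (m : ℝ) + M (pinf IY) (m : ℝ) := by
    intro m
    have h : ∃ m', mn k m = mn k m' := ⟨m, rfl⟩
    have hinj : ∀ a b : ℕ, mn k a = mn k b → a = b := by
      intro a b h
      simpa [mn] using h
    have h2 : m = h.choose := hinj _ _ h.choose_spec
    have h3 : g0 (mn k m) = 2 + M (pin IY (mn k h.choose)) (h.choose : ℝ) + M (pinf IY) (h.choose : ℝ) := by
      simp only [g0]
      rw [dif_pos h]
    rw [h3, ← h2]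
  have hg0' : ∀ d, (∀ m, d ≠ mn k m) → g0 d = 0 := by
    intro d hd
    simp only [g0]
    rw [dif_neg]
    push Not
    exact hd
  have hgc : Continuous (pcase 0 g0 : FY → ℝ) := by
    rw [cont_iff]
    intro ε hε
    have hsub : {d | ε < |(pcase 0 g0 : FY → ℝ) (pin IY d) - (pcase 0 g0 : FY → ℝ) (pinf IY)|} ⊆
        {d | ∃ m, d = mn k m} := by
      intro d hd
      by_contra hcon
      have hcon' : ∀ m, d ≠ mn k m := fun m h => hcon ⟨m, h⟩
      have hd' : ε < |g0 d - 0| := hd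
      rw [hg0' d hcon', sub_zero, abs_zero] at hd'
      linarith
    refine IY.mono hsub ⟨fun c => ?_, k + 1, fun n hn l h => ?_⟩
    · convert Set.finite_empty
      ext d
      simp only [Set.mem_ofPred_eq, Set.mem_empty_iff_false, iff_false]
      rintro ⟨⟨m, hm⟩, -, h⟩
      exact h ⟨k, m, hm⟩
    · obtain ⟨m, hm⟩ := h
      simp only [mn, Prod.mk.injEq] at hm
      omega
  let g : CY := ⟨pcase 0 g0, hgc⟩
  let f : CX := Φ.symm g
  have hfg : Φ f = g := Φ.apply_symm_apply g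
  have hfin : ∀ (c : ℕ) (ε : ℝ), 0 < ε → {x : Fib c | ε < |f.1 (pin IX x.1) - f.1 (pinf IX)|}.Finite := by
    intro c ε hε
    have h1 := (cont_iff f.1).mp f.2 ε hε
    have h2 : {d | d ∈ {d | ε < |f.1 (pin IX d) - f.1 (pinf IX)|} ∧ cls d = c}.Finite := h1 c
    refine Set.Finite.of_finite_image (f := Subtype.val) (h2.subset ?_) (Subtype.val_injective.injOn)
    rintro d ⟨x, hx, rfl⟩
    exact ⟨hx, x.2⟩
  let z : FF := fun c => mkC0 (fun x : Fib c => f.1 (pin IX x.1) - f.1 (pinf IX)) (hfin c)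
  let z' : FF := fun c => if c ∈ J then z0 c else z c
  have hz' : z' ∈ B k := hBJ z' (fun c hc => by simp [z', hc])
  let t : ℝ := |f.1 (pinf IX)| + ∑ c ∈ J, ‖z c - z0 c‖
  have ht : ∀ x, |f.1 x - (Fz z').1 x| ≤ t := by
    intro x
    have hs0 : 0 ≤ ∑ c ∈ J, ‖z c - z0 c‖ := Finset.sum_nonneg (fun c _ => norm_nonneg _)
    rcases Ptcases x with rfl | ⟨d, rfl⟩
    · have : (Fz z').1 (pinf IX) = 0 := rfl
      rw [this, sub_zero]
      simp only [t]; linarith
    · have h1 : (Fz z').1 (pin IX d) = z' (cls d) ⟨d, rfl⟩ := rfl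
      have h2 : z (cls d) ⟨d, rfl⟩ = f.1 (pin IX d) - f.1 (pinf IX) := rfl
      rw [h1]
      by_cases hc : cls d ∈ J
      · have h3 : z' (cls d) = z0 (cls d) := by simp [z', hc]
        rw [h3]
        have h4 : f.1 (pin IX d) - z0 (cls d) ⟨d, rfl⟩ =
            f.1 (pinf IX) + (z (cls d) ⟨d, rfl⟩ - z0 (cls d) ⟨d, rfl⟩) := by rw [h2]; ring
        rw [h4]
        refine (abs_add_le _ _).trans ?_
        apply add_le_add le_rfl
        refine (pt_le _ _ _).trans ?_
        exact Finset.single_le_sum (f := fun c => ‖z c - z0 c‖) (fun c _ => norm_nonneg _) hc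
      · have h3 : z' (cls d) = z (cls d) := by simp [z', hc]
        rw [h3, h2]
        have h4 : f.1 (pin IX d) - (f.1 (pin IX d) - f.1 (pinf IX)) = f.1 (pinf IX) := by ring
        rw [h4]
        simp only [t]; linarith
  obtain ⟨m, hm⟩ := exists_nat_ge t
  have ht' : ∀ x, |f.1 x - (Fz z').1 x| ≤ (m : ℝ) := fun x => (ht x).trans hm
  have e1 := hM (pin IY (mn k m)) m f (Fz z') ht'
  have e2 := hM (pinf IY) m f (Fz z') ht'
  have e3 := hz' k le_rfl m
  rw [hfg] at e1 e2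
  have e4 : g.1 (pin IY (mn k m)) = 2 + M (pin IY (mn k m)) (m : ℝ) + M (pinf IY) (m : ℝ) := hg0 m
  have e5 : g.1 (pinf IY) = 0 := rfl
  rw [e4] at e1
  rw [e5] at e2
  rw [abs_le] at e1 e2 e3
  linarith [e1.2, e2.1, e3.2]

end Pool.Agent.H5.Fan
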