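import Pool.Agent.H5.OPt
set_option autoImplicit false
open Filter Topology Set

namespace Pool.Agent.H5.Fan
open Pool.Agent.H5.OPt

/-- names inside a block: `inl l` is `g l`, `inr (k,l)` is `y k l` -/
abbrev A : Type := ℕ ⊕ ℕ × ℕ
/-- all coordinates: block, name, main (`none`) or free (`some i`) -/
abbrev DD : Type := ℕ × A × Option ℕ

def cls : DD → ℕ
  | (n, Sum.inl l, none) => n + 1 + l
  | (_, Sum.inr (k, _), none) => k
  | (n, Sum.inl l, some i) => n + 1 + l + i
  | (n, Sum.inr _, some i) => n + 1 + i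

/-- the coordinate `(n, inl l, none)` -/
def mn (n l : ℕ) : DD := (n, Sum.inl l, none)

def isMn (d : DD) : Prop := ∃ n l, d = mn n l

/-- ideal of the space `X` -/
def IX : Idl DD where
  small S := ∀ c, {d | d ∈ S ∧ cls d = c}.Finite
  empty := fun c => by simp
  mono := fun hAB hB c => (hB c).subset (fun d hd => ⟨hAB hd.1, hd.2⟩)
  union := fun {A B} hA hB c => ((hA c).union (hB c)).subset (by
    rintro d ⟨hd | hd, hc⟩
    · exact Or.inl ⟨hd, hc⟩
    · exact Or.inr ⟨hd, hc⟩)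
  single := fun d c => (Set.finite_singleton d).subset (fun e he => he.1)

/-- ideal of the space `Y` -/
def IY : Idl DD where
  small S := (∀ c, {d | d ∈ S ∧ cls d = c ∧ ¬ isMn d}.Finite) ∧ ∃ N, ∀ n, N ≤ n → ∀ l, mn n l ∉ S
  empty := ⟨fun c => by simp, 0, fun n _ l h => h⟩
  mono := fun hAB hB => ⟨fun c => (hB.1 c).subset (fun d hd => ⟨hAB hd.1, hd.2⟩), by
    obtain ⟨N, hN⟩ := hB.2
    exact ⟨N, fun n hn l h => hN n hn l (hAB h)⟩⟩
  union := fun {A B} hA hB => ⟨fun c => ((hA.1 c).union (hB.1 c)).subset (by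
    rintro d ⟨hd | hd, hc⟩
    · exact Or.inl ⟨hd, hc⟩
    · exact Or.inr ⟨hd, hc⟩), by
    obtain ⟨N, hN⟩ := hA.2
    obtain ⟨M, hM⟩ := hB.2
    refine ⟨max N M, fun n hn l h => ?_⟩
    rcases h with h | h
    · exact hN n (le_trans (le_max_left _ _) hn) l h
    · exact hM n (le_trans (le_max_right _ _) hn) l h⟩
  single := fun d => ⟨fun c => (Set.finite_singleton d).subset (fun e he => he.1), by
    refine ⟨d.1 + 1, fun n hn l h => ?_⟩
    have h1 : mn n l = d := h
    have h2 : n = d.1 := by rw [← h1]; rfl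
    omega⟩

abbrev FX : Type := Pt IX
abbrev FY : Type := Pt IY

end Pool.Agent.H5.Fan
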