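import Pool.Agent.H5.FanCtl
import Pool.Agent.H5.FanDefs
set_option autoImplicit false
open Filter Topology Set

namespace Pool.Agent.H5.Fan

noncomputable def sj (j : ℕ) : ℝ := (1/4)^(j+1)

lemma sj_pos (j : ℕ) : 0 < sj j := by unfold sj; positivity

lemma sj_le (j : ℕ) : sj j ≤ 1/4 := by
  unfold sj
  calc ((1:ℝ)/4)^(j+1) ≤ (1/4)^1 := pow_le_pow_of_le_one (by norm_num) (by norm_num) (by omega)
    _ = 1/4 := pow_one _

noncomputable def kt (j : ℕ) (g : ℕ → ℝ) (l : ℕ) : ℝ := (1/2)^l * max (min 1 |g l| - sj j) 0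

noncomputable def kap (j : ℕ) (g : ℕ → ℝ) : ℝ := ⨆ l, kt j g l

lemma kt_nonneg (j : ℕ) (g : ℕ → ℝ) (l : ℕ) : 0 ≤ kt j g l :=
  mul_nonneg (by positivity) (le_max_right _ _)

lemma kt_le (j : ℕ) (g : ℕ → ℝ) (l : ℕ) : kt j g l ≤ (1/2)^l := by
  have h1 : max (min 1 |g l| - sj j) 0 ≤ 1 :=
    max_le (by linarith [min_le_left 1 |g l|, sj_pos j]) zero_le_one
  calc kt j g l ≤ (1/2)^l * 1 := mul_le_mul_of_nonneg_left h1 (by positivity)
    _ = _ := mul_one _

lemma kt_le_one (j : ℕ) (g : ℕ → ℝ) (l : ℕ) : kt j g l ≤ 1 :=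
  le_trans (kt_le j g l) (pow_le_one₀ (by norm_num) (by norm_num))

lemma kt_bdd (j : ℕ) (g : ℕ → ℝ) : BddAbove (Set.range (kt j g)) :=
  ⟨1, by rintro x ⟨l, rfl⟩; exact kt_le_one j g l⟩

lemma kt_le_kap (j : ℕ) (g : ℕ → ℝ) (l : ℕ) : kt j g l ≤ kap j g := le_ciSup (kt_bdd j g) l

lemma kap_nonneg (j : ℕ) (g : ℕ → ℝ) : 0 ≤ kap j g := le_trans (kt_nonneg j g 0) (kt_le_kap j g 0)

lemma kap_le_one (j : ℕ) (g : ℕ → ℝ) : kap j g ≤ 1 := ciSup_le (kt_le_one j g)

lemma cont_kt (j l : ℕ) : Continuous (fun g : ℕ → ℝ => kt j g l) := by unfold kt; fun_prop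

/-- finite truncation -/
noncomputable def kN (j : ℕ) (g : ℕ → ℝ) : ℕ → ℝ
  | 0 => 0
  | N+1 => max (kN j g N) (kt j g N)

lemma cont_kN (j N : ℕ) : Continuous (fun g => kN j g N) := by
  induction N with
  | zero => exact continuous_const
  | succ N ih => exact ih.max (cont_kt j N)

lemma kN_nonneg (j : ℕ) (g : ℕ → ℝ) (N : ℕ) : 0 ≤ kN j g N := by
  induction N with
  | zero => exact le_rfl
  | succ N ih => exact le_trans ih (le_max_left _ _)

lemma kN_le (j : ℕ) (g : ℕ → ℝ) (N : ℕ) : kN j g N ≤ kap j g := by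
  induction N with
  | zero => exact kap_nonneg j g
  | succ N ih => exact max_le ih (kt_le_kap j g N)

lemma kt_le_kN (j : ℕ) (g : ℕ → ℝ) {l N : ℕ} (h : l < N) : kt j g l ≤ kN j g N := by
  induction N with
  | zero => omega
  | succ N ih =>
    rcases Nat.lt_succ_iff_lt_or_eq.1 h with h' | rfl
    · exact le_trans (ih h') (le_max_left _ _)
    · exact le_max_right _ _

lemma kap_le_kN (j : ℕ) (g : ℕ → ℝ) (N : ℕ) : kap j g ≤ kN j g N + (1/2)^N := by
  refine ciSup_le (fun l => ?_)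
  rcases lt_or_ge l N with h | h
  · have := kt_le_kN j g h
    have h2 : (0:ℝ) < (1/2)^N := by positivity
    linarith
  · have h1 := kt_le j g l
    have h2 : ((1:ℝ)/2)^l ≤ (1/2)^N := pow_le_pow_of_le_one (by norm_num) (by norm_num) h
    have := kN_nonneg j g N
    linarith

lemma cont_kap (j : ℕ) : Continuous (kap j) := by
  have hu : TendstoUniformly (fun (N : ℕ) (g : ℕ → ℝ) => kN j g N) (kap j) atTop := by
    rw [Metric.tendstoUniformly_iff]
    intro ε hε
    obtain ⟨N, hN⟩ := exists_pow_lt_of_lt_one hε (by norm_num : (1/2:ℝ) < 1)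
    filter_upwards [eventually_ge_atTop N] with n hn g
    have h1 := kN_le j g n
    have h2 := kap_le_kN j g n
    have h3 : ((1:ℝ)/2)^n ≤ (1/2)^N := pow_le_pow_of_le_one (by norm_num) (by norm_num) hn
    rw [Real.dist_eq, abs_of_nonneg (by linarith)]
    linarith
  exact hu.continuous (Eventually.of_forall (fun N => cont_kN j N)).frequently

lemma kap_le_iff (j : ℕ) {g : ℕ → ℝ} (hg : cube g) {p : ℝ} (hp : 0 ≤ p) :
    kap j g ≤ p ↔ ∀ l, |g l| ≤ sj j + 2^l * p := by
  have key : ∀ l, kt j g l ≤ p ↔ |g l| ≤ sj j + 2^l * p := by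
    intro l
    unfold kt
    rw [min_eq_right (hg l)]
    have h1 : (0:ℝ) < 2^l := by positivity
    have h2 : (1/2:ℝ)^l = (2^l)⁻¹ := by rw [one_div, inv_pow]
    rw [h2, inv_mul_le_iff₀ h1]
    constructor
    · intro h
      have := le_max_left (|g l| - sj j) 0
      linarith
    · intro h
      exact max_le (by linarith) (by positivity)
  constructor
  · intro h l
    exact (key l).1 (le_trans (kt_le_kap j g l) h)
  · intro h
    exact ciSup_le (fun l => (key l).2 (h l))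

noncomputable def bb (w : ℕ → ℕ → ℝ) (l : ℕ) : ℕ → ℝ
  | 0 => 1
  | n+1 => min (bb w l n) (sj n + 2^l * pp (w n))

lemma bb_pos (w : ℕ → ℕ → ℝ) (l n : ℕ) : 0 < bb w l n := by
  induction n with
  | zero => exact one_pos
  | succ n ih =>
    refine lt_min ih ?_
    have h1 := sj_pos n
    have h2 : 0 ≤ 2^l * pp (w n) := mul_nonneg (by positivity) (pp_nonneg _)
    linarith

lemma bb_le_one (w : ℕ → ℕ → ℝ) (l n : ℕ) : bb w l n ≤ 1 := by
  induction n with
  | zero => exact le_rfl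
  | succ n ih => exact le_trans (min_le_left _ _) ih

lemma bb_le (w : ℕ → ℕ → ℝ) (l : ℕ) {j n : ℕ} (h : j < n) : bb w l n ≤ sj j + 2^l * pp (w j) := by
  induction n with
  | zero => omega
  | succ n ih =>
    rcases Nat.lt_succ_iff_lt_or_eq.1 h with h' | rfl
    · exact le_trans (min_le_left _ _) (ih h')
    · exact min_le_right _ _

lemma le_bb {w : ℕ → ℕ → ℝ} {l n : ℕ} {x : ℝ} (h1 : x ≤ 1)
    (h : ∀ j < n, x ≤ sj j + 2^l * pp (w j)) : x ≤ bb w l n := by
  induction n with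
  | zero => exact h1
  | succ n ih => exact le_min (ih (fun j hj => h j (by omega))) (h n (by omega))

lemma cont_bb {T : Type} [TopologicalSpace T] {w : T → ℕ → ℕ → ℝ}
    (hw : ∀ k, Continuous (fun t => w t k)) (l n : ℕ) : Continuous (fun t => bb (w t) l n) := by
  induction n with
  | zero => exact continuous_const
  | succ n ih =>
    refine ih.min ?_
    exact continuous_const.add (continuous_const.mul (cont_pp.comp (hw n)))

def gp (x : A → ℝ) (l : ℕ) : ℝ := x (Sum.inl l)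
def yp (x : A → ℝ) (k l : ℕ) : ℝ := x (Sum.inr (k, l))

lemma cont_gp : Continuous gp := continuous_pi (fun l => continuous_apply _)
lemma cont_yp (k : ℕ) : Continuous (fun x => yp x k) := continuous_pi (fun l => continuous_apply _)

noncomputable def hw (n : ℕ) (x : A → ℝ) (k : ℕ) : ℕ → ℝ :=
  if k < n then Of (kap k (gp x)) (yp x k) else yp x k

noncomputable def hc (n : ℕ) (x : A → ℝ) : A → ℝ
  | Sum.inl l => x (Sum.inl l) / bb (hw n x) l n
  | Sum.inr (k, l) => hw n x k l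

noncomputable def gi (n : ℕ) (x : A → ℝ) (l : ℕ) : ℝ := x (Sum.inl l) * bb (yp x) l n

noncomputable def hi (n : ℕ) (x : A → ℝ) : A → ℝ
  | Sum.inl l => gi n x l
  | Sum.inr (k, l) => (if k < n then Ob (kap k (gi n x)) (yp x k) else yp x k) l

lemma yp_hc (n : ℕ) (x : A → ℝ) : yp (hc n x) = hw n x := rfl
lemma gp_hi (n : ℕ) (x : A → ℝ) : gp (hi n x) = gi n x := rfl
lemma yp_hi (n : ℕ) (x : A → ℝ) (k : ℕ) :
    yp (hi n x) k = if k < n then Ob (kap k (gi n x)) (yp x k) else yp x k := rfl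

lemma gi_hc (n : ℕ) (x : A → ℝ) : gi n (hc n x) = gp x := by
  funext l
  show x (Sum.inl l) / bb (hw n x) l n * bb (yp (hc n x)) l n = x (Sum.inl l)
  rw [yp_hc]
  exact div_mul_cancel₀ _ (bb_pos _ _ _).ne'

lemma hi_hc (n : ℕ) (x : A → ℝ) : hi n (hc n x) = x := by
  funext a
  rcases a with l | ⟨k, l⟩
  · exact congrFun (gi_hc n x) l
  · show (if k < n then Ob (kap k (gi n (hc n x))) (yp (hc n x) k) else yp (hc n x) k) l = _
    rw [gi_hc, yp_hc]
    unfold hw
    by_cases hk : k < n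
    · simp only [hk, if_true]
      rw [Ob_Of]; rfl
    · simp only [hk, if_false]; rfl

lemma hw_hi (n : ℕ) (x : A → ℝ) : hw n (hi n x) = yp x := by
  funext k
  unfold hw
  rw [gp_hi, yp_hi]
  by_cases hk : k < n
  · simp only [hk, if_true]
    exact Of_Ob _ _
  · simp only [hk, if_false]

lemma hc_hi (n : ℕ) (x : A → ℝ) : hc n (hi n x) = x := by
  funext a
  rcases a with l | ⟨k, l⟩
  · show x (Sum.inl l) * bb (yp x) l n / bb (hw n (hi n x)) l n = x (Sum.inl l)
    rw [hw_hi]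
    exact mul_div_cancel_right₀ _ (bb_pos _ _ _).ne'
  · show hw n (hi n x) k l = _
    rw [hw_hi]; rfl

lemma cube_gp {x : A → ℝ} (hx : cube x) : cube (gp x) := fun l => hx _
lemma cube_yp {x : A → ℝ} (hx : cube x) (k : ℕ) : cube (yp x k) := fun l => hx _

lemma cube_hw {x : A → ℝ} (hx : cube x) (n k : ℕ) : cube (hw n x k) := by
  unfold hw
  split_ifs
  · exact cube_Of (cube_yp hx k)
  · exact cube_yp hx k

lemma cube_hc {x : A → ℝ} (hx : cube x) (n : ℕ) : cube (hc n x) := by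
  intro a
  rcases a with l | ⟨k, l⟩
  · show |x (Sum.inl l) / bb (hw n x) l n| ≤ 1
    rw [abs_div, abs_of_pos (bb_pos _ _ _), div_le_one (bb_pos _ _ _)]
    refine le_bb (hx _) (fun j hj => ?_)
    have h1 : kap j (gp x) ≤ pp (hw n x j) := by
      unfold hw
      rw [if_pos hj]
      exact le_pp_Of (kap_le_one _ _) (cube_yp hx j)
    exact (kap_le_iff j (cube_gp hx) (pp_nonneg _)).1 h1 l
  · exact cube_hw hx n k l

lemma cube_hi {x : A → ℝ} (hx : cube x) (n : ℕ) : cube (hi n x) := by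
  have hb : ∀ l, |gi n x l| ≤ bb (yp x) l n := by
    intro l
    unfold gi
    rw [abs_mul, abs_of_pos (bb_pos (yp x) l n)]
    calc |x (Sum.inl l)| * bb (yp x) l n ≤ 1 * bb (yp x) l n :=
          mul_le_mul_of_nonneg_right (hx _) (bb_pos _ _ _).le
      _ = _ := one_mul _
  have hg : cube (gi n x) := fun l => le_trans (hb l) (bb_le_one _ _ _)
  intro a
  rcases a with l | ⟨k, l⟩
  · exact hg l
  · show |(if k < n then Ob (kap k (gi n x)) (yp x k) else yp x k) l| ≤ 1
    by_cases hk : k < n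
    · rw [if_pos hk]
      apply cube_Ob (cube_yp hx k)
      rw [kap_le_iff k hg (pp_nonneg _)]
      intro l
      exact le_trans (hb l) (bb_le _ _ hk)
    · rw [if_neg hk]
      exact hx _

lemma cont_hw (n k : ℕ) : Continuous (fun x => hw n x k) := by
  unfold hw
  split_ifs
  · exact cont_Of.comp (((cont_kap k).comp cont_gp).prodMk (cont_yp k))
  · exact cont_yp k

lemma cont_hc (n : ℕ) : Continuous (hc n) := by
  apply continuous_pi
  intro a
  rcases a with l | ⟨k, l⟩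
  · show Continuous (fun x : A → ℝ => x (Sum.inl l) / bb (hw n x) l n)
    exact (continuous_apply _).div (cont_bb (fun k => cont_hw n k) l n)
      (fun x => (bb_pos _ _ _).ne')
  · exact (continuous_apply l).comp (cont_hw n k)

lemma cont_gi (n : ℕ) : Continuous (gi n) := by
  apply continuous_pi
  intro l
  exact (continuous_apply _).mul (cont_bb (fun k => cont_yp k) l n)

lemma cont_hi (n : ℕ) : Continuous (hi n) := by
  apply continuous_pi
  intro a
  rcases a with l | ⟨k, l⟩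
  · exact (continuous_apply l).comp (cont_gi n)
  · show Continuous (fun x : A → ℝ => (if k < n then Ob (kap k (gi n x)) (yp x k) else yp x k) l)
    by_cases hk : k < n
    · simp only [hk, if_true]
      exact (continuous_apply l).comp
        (cont_Ob.comp (((cont_kap k).comp (cont_gi n)).prodMk (cont_yp k)))
    · simp only [hk, if_false]
      exact (continuous_apply l).comp (cont_yp k)

lemma kap_zero {j : ℕ} {g : ℕ → ℝ} (h : ∀ l, |g l| ≤ sj j) : kap j g = 0 := by
  apply le_antisymm _ (kap_nonneg j g)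
  refine ciSup_le (fun l => ?_)
  unfold kt
  rw [max_eq_right (by linarith [h l, min_le_right 1 |g l|]), mul_zero]

/-- (C4) -/
lemma hc_same {n j : ℕ} {x : A → ℝ} (h : ∀ l, |x (Sum.inl l)| ≤ sj j) (l : ℕ) :
    hc n x (Sum.inr (j, l)) = x (Sum.inr (j, l)) := by
  show hw n x j l = _
  unfold hw
  split_ifs
  · rw [show kap j (gp x) = 0 from kap_zero h, Of_zero]; rfl
  · rfl

/-- (C5) -/
lemma gp_small {n j : ℕ} {x : A → ℝ} (hx : cube x) (hj : j < n)
    (h : ∀ l, hc n x (Sum.inr (j, l)) ≤ 1/4) (l : ℕ) : |x (Sum.inl l)| ≤ sj j := by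
  have h1 : pp (hw n x j) = 0 := pp_zero h
  have h2 := cube_hc hx n (Sum.inl l)
  have h3 : |x (Sum.inl l) / bb (hw n x) l n| ≤ 1 := h2
  rw [abs_div, abs_of_pos (bb_pos _ _ _), div_le_one (bb_pos _ _ _)] at h3
  have h4 := bb_le (hw n x) l hj
  rw [h1, mul_zero, add_zero] at h4
  linarith

/-- (C6) -/
lemma hc_fin {x : A → ℝ} (hx : cube x) (n : ℕ) :
    {q : ℕ × ℕ | hc n x (Sum.inr q) ≠ x (Sum.inr q)}.Finite := by
  have h1 : ∀ k, {l | Of (kap k (gp x)) (yp x k) l ≠ yp x k l}.Finite := fun k =>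
    Of_finite (kap_nonneg _ _) (kap_le_one _ _) (cube_yp hx k)
  have h2 : (⋃ k ∈ Set.Iio n, (fun l => (k, l)) '' {l | Of (kap k (gp x)) (yp x k) l ≠ yp x k l}).Finite :=
    (Set.finite_Iio n).biUnion (fun k _ => (h1 k).image _)
  refine h2.subset ?_
  rintro ⟨k, l⟩ hq
  have hq' : hw n x k l ≠ yp x k l := hq
  unfold hw at hq'
  by_cases hk : k < n
  · rw [if_pos hk] at hq'
    exact Set.mem_biUnion (show k ∈ Set.Iio n from hk) ⟨l, hq', rfl⟩
  · rw [if_neg hk] at hq'
    exact absurd rfl hq'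

end Pool.Agent.H5.Fan
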