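import Mathlib
set_option autoImplicit false
open Filter Topology Set

namespace Pool.Agent.H5.Fan

noncomputable def Lf (m : ℕ) (κ : ℝ) : ℝ := 1/2 + max (κ - (1/2)^m) 0 / 4 - 3 * max (1 - 2^m * κ) 0
noncomputable def Mf (m : ℕ) (e : ℝ) : ℝ :=
  (1/2)^m + 4 * max (e - 1/2) 0 - (1/2)^m / 3 * max (1/2 - e) 0

lemma le_M_iff (m : ℕ) (κ e : ℝ) : κ ≤ Mf m e ↔ Lf m κ ≤ e := by
  unfold Mf Lf
  have hh : (0:ℝ) < (1/2)^m := by positivity
  have h2 : (2:ℝ)^m * (1/2)^m = 1 := by rw [← mul_pow]; norm_num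
  set h : ℝ := (1/2)^m with hhdef
  obtain ⟨c, hc⟩ : ∃ c, κ = h * c := ⟨κ / h, by field_simp⟩
  have h3 : (2:ℝ)^m * κ = c := by rw [hc, ← mul_assoc, h2, one_mul]
  rw [h3]
  rcases le_or_gt (1/2) e with he | he
  · rw [max_eq_left (by linarith : (0:ℝ) ≤ e - 1/2), max_eq_right (by linarith : 1/2 - e ≤ 0)]
    rcases le_or_gt 1 c with h1 | h1
    · have : h ≤ κ := by rw [hc]; nlinarith
      rw [max_eq_left (by linarith : 0 ≤ κ - h), max_eq_right (by linarith : 1 - c ≤ 0)]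
      constructor <;> intro h' <;> linarith
    · have : κ < h := by rw [hc]; nlinarith
      rw [max_eq_right (by linarith : κ - h ≤ 0), max_eq_left (by linarith : 0 ≤ 1 - c)]
      constructor <;> intro h' <;> linarith
  · rw [max_eq_right (by linarith : e - 1/2 ≤ 0), max_eq_left (by linarith : 0 ≤ 1/2 - e)]
    rcases le_or_gt 1 c with h1 | h1
    · have : h ≤ κ := by rw [hc]; nlinarith
      rw [max_eq_left (by linarith : 0 ≤ κ - h), max_eq_right (by linarith : 1 - c ≤ 0)]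
      constructor
      · intro h'
        have : 0 < h / 3 * (1/2 - e) := by apply mul_pos <;> linarith
        linarith
      · intro h'; linarith
    · have : κ < h := by rw [hc]; nlinarith
      rw [max_eq_right (by linarith : κ - h ≤ 0), max_eq_left (by linarith : 0 ≤ 1 - c)]
      have key : h + 4 * 0 - h / 3 * (1/2 - e) - κ = h * (1 - (1/2 - e)/3 - c) := by rw [hc]; ring
      constructor
      · intro h'
        have h4 : 0 ≤ h * (1 - (1/2 - e)/3 - c) := by rw [← key]; linarith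
        have h5 : 0 ≤ 1 - (1/2 - e)/3 - c := by
          by_contra hcon
          push Not at hcon
          have := mul_neg_of_pos_of_neg hh hcon
          linarith
        linarith
      · intro h'
        have h5 : 0 ≤ 1 - (1/2 - e)/3 - c := by linarith
        have := mul_nonneg hh.le h5
        linarith

lemma M_nonneg (m : ℕ) {e : ℝ} (he : -1 ≤ e) : 0 ≤ Mf m e := by
  unfold Mf
  have hh : (0:ℝ) < (1/2)^m := by positivity
  have h1 : max (1/2 - e) 0 ≤ 3/2 := max_le (by linarith) (by norm_num)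
  have h2 : 0 ≤ max (e - 1/2) 0 := le_max_right _ _
  nlinarith

lemma M_le (m : ℕ) {e : ℝ} (he : e ≤ 1/2) : Mf m e ≤ (1/2)^m := by
  unfold Mf
  have hh : (0:ℝ) < (1/2)^m := by positivity
  rw [max_eq_right (by linarith : e - 1/2 ≤ 0)]
  have h1 : 0 ≤ max (1/2 - e) 0 := le_max_right _ _
  have := mul_nonneg (by positivity : (0:ℝ) ≤ (1/2)^m/3) h1
  linarith

lemma M_ge_one (m : ℕ) {e : ℝ} (he : 1 ≤ e) : 1 ≤ Mf m e := by
  unfold Mf
  have hh : (0:ℝ) < (1/2)^m := by positivity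
  rw [max_eq_right (by linarith : 1/2 - e ≤ 0), max_eq_left (by linarith : 0 ≤ e - 1/2)]
  linarith

lemma cont_M (m : ℕ) : Continuous (Mf m) := by unfold Mf; fun_prop

/-- total excess over `1/4` of the first `m` terms -/
noncomputable def dl (w : ℕ → ℝ) (m : ℕ) : ℝ := ∑ i ∈ Finset.range m, max (w i - 1/4) 0

lemma dl_nonneg (w : ℕ → ℝ) (m : ℕ) : 0 ≤ dl w m :=
  Finset.sum_nonneg (fun i _ => le_max_right _ _)

lemma dl_mono (w : ℕ → ℝ) {m n : ℕ} (h : m ≤ n) : dl w m ≤ dl w n :=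
  Finset.sum_le_sum_of_subset_of_nonneg (Finset.range_subset_range.2 h)
    (fun i _ _ => le_max_right _ _)

lemma dl_succ (w : ℕ → ℝ) (m : ℕ) : dl w (m+1) = dl w m + max (w m - 1/4) 0 :=
  Finset.sum_range_succ _ _

lemma dl_ge (w : ℕ → ℝ) {i m : ℕ} (h : i < m) : w i - 1/4 ≤ dl w m := by
  have h1 := dl_mono w (Nat.succ_le_of_lt h)
  have h2 := dl_succ w i
  have h3 := dl_nonneg w i
  have h4 := le_max_left (w i - 1/4) 0
  have h5 : dl w (i+1) ≤ dl w m := h1
  linarith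

lemma dl_zero_of_le {w : ℕ → ℝ} (h : ∀ i, w i ≤ 1/4) (m : ℕ) : dl w m = 0 :=
  Finset.sum_eq_zero (fun i _ => max_eq_right (by linarith [h i]))

noncomputable def el (m : ℕ) (κ d : ℝ) : ℝ := max (-1) (min (3/4) (Lf m κ - 2^(m+3) * d))

lemma el_ge (m : ℕ) (κ d : ℝ) : -1 ≤ el m κ d := le_max_left _ _
lemma el_le (m : ℕ) (κ d : ℝ) : el m κ d ≤ 3/4 := max_le (by norm_num) (min_le_left _ _)
lemma el_pos (m : ℕ) (κ d : ℝ) : 0 < 1 - el m κ d := by linarith [el_le m κ d]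

lemma L_le (m : ℕ) {κ : ℝ} (hκ : κ ≤ 1) : Lf m κ ≤ 3/4 := by
  unfold Lf
  have hh : (0:ℝ) < (1/2)^m := by positivity
  have h1 : max (κ - (1/2)^m) 0 ≤ 1 := max_le (by linarith) (by norm_num)
  have h2 : 0 ≤ max (1 - 2^m * κ) 0 := le_max_right _ _
  linarith

lemma le_el {m : ℕ} {κ d : ℝ} (hκ : κ ≤ 1) (hd : 0 ≤ d) : Lf m κ - 2^(m+3) * d ≤ el m κ d := by
  unfold el
  have h1 := L_le m hκ
  have h2 : 0 ≤ (2:ℝ)^(m+3) * d := by positivity
  exact le_trans (le_min (by linarith) le_rfl) (le_max_right _ _)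

lemma el_le_of {m : ℕ} {κ d t : ℝ} (ht : -1 ≤ t) (h : Lf m κ - 2^(m+3) * d ≤ t) : el m κ d ≤ t :=
  max_le ht (le_trans (min_le_right _ _) h)

lemma el_eq {m : ℕ} {κ d : ℝ} (h : Lf m κ - 2^(m+3) * d ≤ -1) : el m κ d = -1 :=
  le_antisymm (el_le_of le_rfl h) (el_ge _ _ _)

lemma el_zero (m : ℕ) {d : ℝ} (hd : 0 ≤ d) : el m 0 d = -1 := by
  apply el_eq
  have h2 : 0 ≤ (2:ℝ)^(m+3) * d := by positivity
  have h1 : Lf m 0 = -5/2 := by
    unfold Lf
    have hh : (0:ℝ) < (1/2)^m := by positivity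
    rw [max_eq_right (by linarith : (0:ℝ) - (1/2)^m ≤ 0), mul_zero, sub_zero,
      max_eq_left (by norm_num : (0:ℝ) ≤ 1)]
    norm_num
  linarith

noncomputable def wv (m : ℕ) (κ d t : ℝ) : ℝ := el m κ d + (1 - el m κ d) * (t + 1) / 2

noncomputable def Dr (κ : ℝ) (y : ℕ → ℝ) : ℕ → ℝ
  | 0 => 0
  | m+1 => Dr κ y m + max (wv m κ (Dr κ y m) (y m) - 1/4) 0

noncomputable def Of (κ : ℝ) (y : ℕ → ℝ) (m : ℕ) : ℝ := wv m κ (Dr κ y m) (y m)

lemma Dr_eq (κ : ℝ) (y : ℕ → ℝ) (m : ℕ) : Dr κ y m = dl (Of κ y) m := by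
  induction m with
  | zero => simp [Dr, dl]
  | succ m ih =>
    rw [dl_succ, ← ih]
    rfl

noncomputable def Ob (κ : ℝ) (w : ℕ → ℝ) (m : ℕ) : ℝ :=
  2 * (w m - el m κ (dl w m)) / (1 - el m κ (dl w m)) - 1

lemma Of_apply (κ : ℝ) (y : ℕ → ℝ) (m : ℕ) :
    Of κ y m = el m κ (dl (Of κ y) m) + (1 - el m κ (dl (Of κ y) m)) * (y m + 1) / 2 := by
  rw [← Dr_eq]; rfl

lemma Ob_Of (κ : ℝ) (y : ℕ → ℝ) : Ob κ (Of κ y) = y := by
  funext m
  unfold Ob
  rw [Of_apply]
  have := (el_pos m κ (dl (Of κ y) m)).ne'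
  field_simp
  ring

lemma wv_Ob (κ : ℝ) (w : ℕ → ℝ) (m : ℕ) : wv m κ (dl w m) (Ob κ w m) = w m := by
  unfold wv Ob
  have := (el_pos m κ (dl w m)).ne'
  field_simp
  ring

lemma Dr_Ob (κ : ℝ) (w : ℕ → ℝ) (m : ℕ) : Dr κ (Ob κ w) m = dl w m := by
  induction m with
  | zero => simp [Dr, dl]
  | succ m ih =>
    rw [dl_succ]
    show Dr κ (Ob κ w) m + max (wv m κ (Dr κ (Ob κ w) m) (Ob κ w m) - 1/4) 0 = _
    rw [ih, wv_Ob]

lemma Of_Ob (κ : ℝ) (w : ℕ → ℝ) : Of κ (Ob κ w) = w := by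
  funext m
  unfold Of
  rw [Dr_Ob, wv_Ob]

lemma cont_el (m : ℕ) : Continuous (fun p : ℝ × ℝ => el m p.1 p.2) := by
  unfold el Lf; fun_prop

lemma cont_Dr (m : ℕ) : Continuous (fun p : ℝ × (ℕ → ℝ) => Dr p.1 p.2 m) := by
  induction m with
  | zero => exact continuous_const
  | succ m ih =>
    have h1 : Continuous (fun p : ℝ × (ℕ → ℝ) => el m p.1 (Dr p.1 p.2 m)) :=
      (cont_el m).comp (continuous_fst.prodMk ih)
    have : Continuous (fun p : ℝ × (ℕ → ℝ) =>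
      Dr p.1 p.2 m + max (wv m p.1 (Dr p.1 p.2 m) (p.2 m) - 1/4) 0) := by
      unfold wv
      fun_prop
    exact this

lemma cont_Of : Continuous (fun p : ℝ × (ℕ → ℝ) => Of p.1 p.2) := by
  apply continuous_pi
  intro m
  have h0 := cont_Dr m
  have h1 : Continuous (fun p : ℝ × (ℕ → ℝ) => el m p.1 (Dr p.1 p.2 m)) :=
    (cont_el m).comp (continuous_fst.prodMk h0)
  show Continuous (fun p : ℝ × (ℕ → ℝ) => wv m p.1 (Dr p.1 p.2 m) (p.2 m))
  unfold wv
  fun_prop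

lemma cont_Ob : Continuous (fun p : ℝ × (ℕ → ℝ) => Ob p.1 p.2) := by
  apply continuous_pi
  intro m
  have h0 : Continuous (fun p : ℝ × (ℕ → ℝ) => dl p.2 m) := by unfold dl; fun_prop
  have h1 : Continuous (fun p : ℝ × (ℕ → ℝ) => el m p.1 (dl p.2 m)) :=
    (cont_el m).comp (continuous_fst.prodMk h0)
  show Continuous (fun p : ℝ × (ℕ → ℝ) =>
    2 * (p.2 m - el m p.1 (dl p.2 m)) / (1 - el m p.1 (dl p.2 m)) - 1)
  refine Continuous.sub (Continuous.div (by fun_prop) (by fun_prop) ?_) continuous_const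
  intro p
  exact (el_pos _ _ _).ne'

def cube {ι : Type} (w : ι → ℝ) : Prop := ∀ m, |w m| ≤ 1

lemma Of_ge {κ : ℝ} {y : ℕ → ℝ} (hy : cube y) (m : ℕ) : el m κ (dl (Of κ y) m) ≤ Of κ y m := by
  have h1 := Of_apply κ y m
  have h2 := el_pos m κ (dl (Of κ y) m)
  have h3 := (abs_le.1 (hy m)).1
  nlinarith

lemma cube_Of {κ : ℝ} {y : ℕ → ℝ} (hy : cube y) : cube (Of κ y) := by
  intro m
  have h0 := Of_ge (κ := κ) hy m
  have h1 := Of_apply κ y m
  have h2 := el_pos m κ (dl (Of κ y) m)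
  have h3 := (abs_le.1 (hy m)).2
  have h4 := el_ge m κ (dl (Of κ y) m)
  rw [abs_le]
  constructor
  · linarith
  · nlinarith

noncomputable def cw (w : ℕ → ℝ) (m : ℕ) : ℝ := max (-1) (min 1 (w m))

lemma cw_ge (w : ℕ → ℝ) (m : ℕ) : -1 ≤ cw w m := le_max_left _ _

lemma cw_eq {w : ℕ → ℝ} (hw : cube w) : cw w = w := by
  funext m
  unfold cw
  have := abs_le.1 (hw m)
  rw [min_eq_right this.2, max_eq_right this.1]

noncomputable def tm (w : ℕ → ℝ) (m : ℕ) : ℝ := Mf m (cw w m + 2^(m+3) * dl (cw w) m)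

lemma tm_nonneg (w : ℕ → ℝ) (m : ℕ) : 0 ≤ tm w m := by
  apply M_nonneg
  have := mul_nonneg (by positivity : (0:ℝ) ≤ 2^(m+3)) (dl_nonneg (cw w) m)
  linarith [cw_ge w m]

lemma tm_bdd (w : ℕ → ℝ) : BddBelow (Set.range (tm w)) :=
  ⟨0, by rintro x ⟨m, rfl⟩; exact tm_nonneg w m⟩

noncomputable def pp (w : ℕ → ℝ) : ℝ := min 1 (⨅ m, tm w m)

lemma pp_nonneg (w : ℕ → ℝ) : 0 ≤ pp w := le_min zero_le_one (le_ciInf (tm_nonneg w))

lemma pp_le_tm (w : ℕ → ℝ) (m : ℕ) : pp w ≤ tm w m :=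
  le_trans (min_le_right _ _) (ciInf_le (tm_bdd w) m)

lemma le_pp {w : ℕ → ℝ} {κ : ℝ} (hκ : κ ≤ 1) (hw : cube w)
    (h : ∀ m, Lf m κ - 2^(m+3) * dl w m ≤ w m) : κ ≤ pp w := by
  refine le_min hκ (le_ciInf (fun m => ?_))
  unfold tm
  rw [cw_eq hw, le_M_iff]
  linarith [h m]

lemma of_le_pp {w : ℕ → ℝ} {κ : ℝ} (hw : cube w) (h : κ ≤ pp w) (m : ℕ) :
    Lf m κ - 2^(m+3) * dl w m ≤ w m := by
  have h1 := le_trans h (pp_le_tm w m)
  unfold tm at h1
  rw [cw_eq hw, le_M_iff] at h1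
  linarith

lemma le_pp_Of {κ : ℝ} {y : ℕ → ℝ} (hκ : κ ≤ 1) (hy : cube y) : κ ≤ pp (Of κ y) := by
  apply le_pp hκ (cube_Of hy)
  intro m
  exact le_trans (le_el hκ (dl_nonneg _ _)) (Of_ge hy m)

lemma cube_Ob {κ : ℝ} {w : ℕ → ℝ} (hw : cube w) (h : κ ≤ pp w) : cube (Ob κ w) := by
  intro m
  have h1 : el m κ (dl w m) ≤ w m := el_le_of (abs_le.1 (hw m)).1 (of_le_pp hw h m)
  have h2 := el_pos m κ (dl w m)
  have h3 := (abs_le.1 (hw m)).2
  unfold Ob
  rw [abs_le]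
  constructor
  · have : 0 ≤ 2 * (w m - el m κ (dl w m)) / (1 - el m κ (dl w m)) :=
      div_nonneg (by linarith) h2.le
    linarith
  · have : 2 * (w m - el m κ (dl w m)) / (1 - el m κ (dl w m)) ≤ 2 := by
      rw [div_le_iff₀ h2]
      linarith
    linarith

lemma Of_zero (y : ℕ → ℝ) : Of 0 y = y := by
  funext m
  rw [Of_apply, el_zero m (dl_nonneg _ _)]
  ring

lemma Ob_zero (w : ℕ → ℝ) : Ob 0 w = w := by
  funext m
  unfold Ob
  rw [el_zero m (dl_nonneg _ _)]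
  ring

lemma pp_zero {w : ℕ → ℝ} (h : ∀ m, w m ≤ 1/4) : pp w = 0 := by
  apply le_antisymm _ (pp_nonneg w)
  have h1 : ∀ m, cw w m ≤ 1/4 := fun m => max_le (by norm_num) (le_trans (min_le_right _ _) (h m))
  have h2 : ∀ m, pp w ≤ (1/2)^m := by
    intro m
    refine le_trans (pp_le_tm w m) ?_
    unfold tm
    rw [dl_zero_of_le h1, mul_zero, add_zero]
    exact M_le m (by linarith [h1 m])
  exact ge_of_tendsto' (tendsto_pow_atTop_nhds_zero_of_lt_one (by norm_num) (by norm_num)) h2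

lemma cont_cw (m : ℕ) : Continuous (fun w : ℕ → ℝ => cw w m) := by unfold cw; fun_prop

lemma cont_tm (m : ℕ) : Continuous (fun w : ℕ → ℝ => tm w m) := by
  unfold tm
  apply (cont_M m).comp
  unfold dl cw
  fun_prop

lemma Of_finite {κ : ℝ} (h0 : 0 ≤ κ) (h1 : κ ≤ 1) {y : ℕ → ℝ} (hy : cube y) :
    {m | Of κ y m ≠ y m}.Finite := by
  rcases h0.eq_or_lt with rfl | hpos
  · rw [Of_zero]; simp
  set w := Of κ y with hw
  obtain ⟨m0, hm0⟩ := exists_pow_lt_of_lt_one hpos (by norm_num : (1/2:ℝ) < 1)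
  have hd : 0 < dl w (m0+1) := by
    rcases (dl_nonneg w m0).eq_or_lt with hz | hp
    · have hge := Of_ge (κ := κ) hy m0
      rw [← hw, ← hz] at hge
      have h2 := le_el (m := m0) h1 le_rfl
      have h3 : 1/2 ≤ Lf m0 κ := by
        unfold Lf
        have h4 : 1 ≤ 2^m0 * κ := by
          have : (2:ℝ)^m0 * (1/2)^m0 = 1 := by rw [← mul_pow]; norm_num
          rw [← this]
          exact mul_le_mul_of_nonneg_left hm0.le (by positivity)
        rw [max_eq_right (by linarith : 1 - 2^m0 * κ ≤ 0)]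
        have := le_max_right (κ - (1/2)^m0) 0
        linarith
      have h4 := dl_succ w m0
      have h5 := le_max_left (w m0 - 1/4) 0
      linarith
    · exact lt_of_lt_of_le hp (dl_mono w (Nat.le_succ _))
  obtain ⟨k, hk⟩ := pow_unbounded_of_one_lt (2 / dl w (m0+1)) (by norm_num : (1:ℝ) < 2)
  rw [div_lt_iff₀ hd] at hk
  refine (Set.finite_lt_nat (max k (m0+1))).subset ?_
  intro m hm
  show m < _
  by_contra hcon
  push Not at hcon
  apply hm
  have hk' : k ≤ m := le_trans (le_max_left _ _) hcon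
  have hm' : m0+1 ≤ m := le_trans (le_max_right _ _) hcon
  have h6 : (2:ℝ) ≤ 2^(m+3) * dl w m := by
    calc (2:ℝ) ≤ 2^k * dl w (m0+1) := hk.le
      _ ≤ 2^(m+3) * dl w m := by
        apply mul_le_mul
        · exact pow_le_pow_right₀ (by norm_num) (by omega)
        · exact dl_mono w hm'
        · exact dl_nonneg _ _
        · positivity
  have h7 : el m κ (dl w m) = -1 := el_eq (by linarith [L_le m h1])
  rw [hw, Of_apply, ← hw, h7]
  ring

lemma pp_lt {w : ℕ → ℝ} {ε : ℝ} {m : ℕ} (h : tm w m < ε) : pp w < ε :=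
  lt_of_le_of_lt (pp_le_tm w m) h

/-- finite truncation of `pp` -/
noncomputable def pN (w : ℕ → ℝ) : ℕ → ℝ
  | 0 => 1
  | N+1 => min (pN w N) (tm w N)

lemma cont_pN (N : ℕ) : Continuous (fun w => pN w N) := by
  induction N with
  | zero => exact continuous_const
  | succ N ih => exact ih.min (cont_tm N)

lemma pp_le_pN (w : ℕ → ℝ) (N : ℕ) : pp w ≤ pN w N := by
  induction N with
  | zero => exact min_le_left _ _
  | succ N ih => exact le_min ih (pp_le_tm w N)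

lemma pN_le_one (w : ℕ → ℝ) (N : ℕ) : pN w N ≤ 1 := by
  induction N with
  | zero => exact le_rfl
  | succ N ih => exact le_trans (min_le_left _ _) ih

lemma pN_le_tm (w : ℕ → ℝ) {m N : ℕ} (h : m < N) : pN w N ≤ tm w m := by
  induction N with
  | zero => omega
  | succ N ih =>
    rcases Nat.lt_succ_iff_lt_or_eq.1 h with h' | rfl
    · exact le_trans (min_le_left _ _) (ih h')
    · exact min_le_right _ _

lemma pN_eq {w : ℕ → ℝ} {N : ℕ} (h : ∀ m, N ≤ m → 1 ≤ tm w m) : pp w = pN w N := by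
  apply le_antisymm (pp_le_pN w N)
  refine le_min (pN_le_one w N) (le_ciInf (fun m => ?_))
  rcases lt_or_ge m N with hm | hm
  · exact pN_le_tm w hm
  · exact le_trans (pN_le_one w N) (h m hm)

lemma cont_pp : Continuous pp := by
  rw [continuous_iff_continuousAt]
  intro w0
  by_cases hall : ∀ m, w0 m ≤ 1/4
  · have hz := pp_zero hall
    have h1 : ∀ m, cw w0 m ≤ 1/4 := fun m =>
      max_le (by norm_num) (le_trans (min_le_right _ _) (hall m))
    unfold ContinuousAt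
    rw [hz, Metric.tendsto_nhds]
    intro ε hε
    obtain ⟨m, hm⟩ := exists_pow_lt_of_lt_one hε (by norm_num : (1/2:ℝ) < 1)
    have h2 : tm w0 m < ε := by
      refine lt_of_le_of_lt ?_ hm
      unfold tm
      rw [dl_zero_of_le h1, mul_zero, add_zero]
      exact M_le m (by linarith [h1 m])
    have h3 := (cont_tm m).continuousAt.eventually (gt_mem_nhds h2)
    refine h3.mono (fun w hw => ?_)
    rw [Real.dist_eq, sub_zero, abs_of_nonneg (pp_nonneg w)]
    exact pp_lt hw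
  · push Not at hall
    obtain ⟨i, hi⟩ := hall
    have hci : 1/4 < cw w0 i := lt_of_lt_of_le (lt_min (by norm_num) hi) (le_max_right _ _)
    set δ := cw w0 i - 1/4 with hδ
    have hδp : 0 < δ := by linarith
    obtain ⟨k, hk⟩ := pow_unbounded_of_one_lt (2 / (δ/2)) (by norm_num : (1:ℝ) < 2)
    rw [div_lt_iff₀ (by linarith)] at hk
    have hU : ∀ᶠ w in 𝓝 w0, 1/4 + δ/2 < cw w i :=
      (cont_cw i).continuousAt.eventually (lt_mem_nhds (by linarith))
    have heq : (fun w => pN w (max k (i+1))) =ᶠ[𝓝 w0] pp := by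
      refine hU.mono (fun w hw => ?_)
      refine (pN_eq (fun m hm => ?_)).symm
      have hk' : k ≤ m := le_trans (le_max_left _ _) hm
      have hi' : i < m := le_trans (le_max_right _ _) hm
      unfold tm
      apply M_ge_one
      have h4 := dl_ge (cw w) hi'
      have h5 : δ/2 ≤ dl (cw w) m := by linarith
      have h6 : (2:ℝ) ≤ 2^(m+3) * dl (cw w) m := by
        calc (2:ℝ) ≤ 2^k * (δ/2) := hk.le
          _ ≤ 2^(m+3) * dl (cw w) m := by
            apply mul_le_mul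
            · exact pow_le_pow_right₀ (by norm_num) (by omega)
            · exact h5
            · linarith
            · positivity
      linarith [cw_ge w m]
    exact ((cont_pN _).continuousAt).congr heq

end Pool.Agent.H5.Fan
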