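import Pool.Agent.H5.FanBlk
set_option autoImplicit false
open Filter Topology Set

namespace Pool.Agent.H5.Fan
open Pool.Agent.H5.OPt

abbrev R2 : Type := ℝ × (ℕ → ℝ)

/-- what part (A) provides -/
structure Abs where
  Cb : R2 → R2
  Cf : R2 → R2
  cont_b : Continuous Cb
  cont_f : Continuous Cf
  bd : ∀ p, |(Cf p).1| ≤ 1
  bf : ∀ p, Cb (Cf p) = p
  fb : ∀ p, |p.1| ≤ 1 → Cf (Cb p) = p
  idf : ∀ p, |p.1| ≤ 1/2 → Cf p = p
  idb : ∀ p, |p.1| ≤ 1/2 → Cb p = p

def row (z : DD → ℝ) (n : ℕ) (a : A) : R2 := (z (n, a, none), fun i => z (n, a, some i))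
def unrow (p : R2) : Option ℕ → ℝ
  | none => p.1
  | some i => p.2 i

lemma unrow_row (z : DD → ℝ) (n : ℕ) (a : A) (o : Option ℕ) : unrow (row z n a) o = z (n, a, o) := by
  cases o <;> rfl

lemma cont_row (n : ℕ) (a : A) : Continuous (fun z => row z n a) :=
  (continuous_apply _).prodMk (continuous_pi (fun i => continuous_apply _))

lemma cont_unrow (o : Option ℕ) : Continuous (fun p : R2 => unrow p o) := by
  cases o
  · exact continuous_fst
  · exact (continuous_apply _).comp continuous_snd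

variable (K : Abs)

/-- main coordinates of block `n`, moved to the cube -/
def mains (z : DD → ℝ) (n : ℕ) (a : A) : ℝ := (K.Cf (row z n a)).1

def lift (h : ℕ → (A → ℝ) → (A → ℝ)) (z : DD → ℝ) : DD → ℝ := fun d =>
  unrow (K.Cb (h d.1 (mains K z d.1) d.2.1, (K.Cf (row z d.1 d.2.1)).2)) d.2.2

lemma cube_mains (z : DD → ℝ) (n : ℕ) : cube (mains K z n) := fun a => K.bd _

lemma row_lift (h : ℕ → (A → ℝ) → (A → ℝ)) (z : DD → ℝ) (n : ℕ) (a : A) :
    row (lift K h z) n a = K.Cb (h n (mains K z n) a, (K.Cf (row z n a)).2) := rfl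

lemma cont_lift {h : ℕ → (A → ℝ) → (A → ℝ)} (hcont : ∀ n, Continuous (h n)) :
    Continuous (lift K h) := by
  apply continuous_pi
  rintro ⟨n, a, o⟩
  have h1 : Continuous (fun z => mains K z n) :=
    continuous_pi (fun a => continuous_fst.comp (K.cont_f.comp (cont_row n a)))
  have h2 : Continuous (fun z => h n (mains K z n) a) :=
    (continuous_apply a).comp ((hcont n).comp h1)
  have h3 : Continuous (fun z => (K.Cf (row z n a)).2) :=
    continuous_snd.comp (K.cont_f.comp (cont_row n a))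
  exact (cont_unrow o).comp (K.cont_b.comp (h2.prodMk h3))

lemma Cf_row_lift {h : ℕ → (A → ℝ) → (A → ℝ)} (hcube : ∀ n x, cube x → cube (h n x))
    (z : DD → ℝ) (n : ℕ) (a : A) :
    K.Cf (row (lift K h z) n a) = (h n (mains K z n) a, (K.Cf (row z n a)).2) := by
  rw [row_lift, K.fb]
  exact hcube n _ (cube_mains K z n) a

lemma mains_lift {h : ℕ → (A → ℝ) → (A → ℝ)} (hcube : ∀ n x, cube x → cube (h n x))
    (z : DD → ℝ) (n : ℕ) : mains K (lift K h z) n = h n (mains K z n) := by
  funext a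
  unfold mains
  rw [Cf_row_lift K hcube]
  rfl

lemma lift_lift {h h' : ℕ → (A → ℝ) → (A → ℝ)} (hcube : ∀ n x, cube x → cube (h n x))
    (hinv : ∀ n x, h' n (h n x) = x) (z : DD → ℝ) : lift K h' (lift K h z) = z := by
  funext d
  obtain ⟨n, a, o⟩ := d
  show unrow (K.Cb (h' n (mains K (lift K h z) n) a, (K.Cf (row (lift K h z) n a)).2)) o = _
  rw [mains_lift K hcube, hinv, Cf_row_lift K hcube]
  show unrow (K.Cb (K.Cf (row z n a))) o = _
  rw [K.bf, unrow_row]

lemma lift_same {h : ℕ → (A → ℝ) → (A → ℝ)} {z : DD → ℝ} {n : ℕ} {a : A}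
    (hs : h n (mains K z n) a = mains K z n a) (o : Option ℕ) : lift K h z (n, a, o) = z (n, a, o) := by
  show unrow (K.Cb (h n (mains K z n) a, (K.Cf (row z n a)).2)) o = _
  rw [hs]
  show unrow (K.Cb (K.Cf (row z n a))) o = _
  rw [K.bf, unrow_row]

/-- the forward map (`Y`-functions to `X`-functions) and its inverse -/
noncomputable def HH : (DD → ℝ) → DD → ℝ := lift K hc
noncomputable def HI : (DD → ℝ) → DD → ℝ := lift K hi

lemma HI_HH (z : DD → ℝ) : HI K (HH K z) = z :=
  lift_lift K (fun n _ hx => cube_hc hx n) (fun n x => hi_hc n x) z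
lemma HH_HI (z : DD → ℝ) : HH K (HI K z) = z :=
  lift_lift K (fun n _ hx => cube_hi hx n) (fun n x => hc_hi n x) z

def inX (z : DD → ℝ) : Prop := ∀ ε > 0, IX.small {d | ε < |z d|}
def inY (z : DD → ℝ) : Prop := ∀ ε > 0, IY.small {d | ε < |z d|}

/-- change set of class `c` -/
def Ch (z : DD → ℝ) (c : ℕ) : Set DD := {d | cls d = c ∧ ¬ isMn d ∧ HH K z d ≠ z d}

lemma Ch_finite (z : DD → ℝ) (c : ℕ)
    (h : ∃ N, ∀ n, N ≤ n → ∀ l, hc n (mains K z n) (Sum.inr (c, l)) = mains K z n (Sum.inr (c, l))) :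
    (Ch K z c).Finite := by
  obtain ⟨N, hN⟩ := h
  have hq : ∀ n, {q : ℕ × ℕ | hc n (mains K z n) (Sum.inr q) ≠ mains K z n (Sum.inr q)}.Finite :=
    fun n => hc_fin (cube_mains K z n) n
  -- three finite covering sets
  have f1 : ((fun p : ℕ × ℕ × ℕ => ((p.1, Sum.inl p.2.1, some p.2.2) : DD)) ''
      (Set.Iic c ×ˢ (Set.Iic c ×ˢ Set.Iic c))).Finite :=
    ((Set.finite_Iic c).prod ((Set.finite_Iic c).prod (Set.finite_Iic c))).image _
  have f2 : (⋃ n ∈ Set.Iic c, ⋃ i ∈ Set.Iic c, (fun q : ℕ × ℕ => ((n, Sum.inr q, some i) : DD)) ''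
      {q : ℕ × ℕ | hc n (mains K z n) (Sum.inr q) ≠ mains K z n (Sum.inr q)}).Finite :=
    (Set.finite_Iic c).biUnion (fun n _ => (Set.finite_Iic c).biUnion (fun i _ => (hq n).image _))
  have f3 : (⋃ n ∈ Set.Iio N, (fun q : ℕ × ℕ => ((n, Sum.inr q, none) : DD)) ''
      {q : ℕ × ℕ | hc n (mains K z n) (Sum.inr q) ≠ mains K z n (Sum.inr q)}).Finite :=
    (Set.finite_Iio N).biUnion (fun n _ => (hq n).image _)
  refine ((f1.union f2).union f3).subset ?_
  rintro ⟨n, a, o⟩ ⟨hcl, hmn, hne⟩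
  rcases a with l | q
  · rcases o with _ | i
    · exact absurd ⟨n, l, rfl⟩ hmn
    · left; left
      have h1 : n + 1 + l + i = c := hcl
      refine ⟨(n, l, i), ⟨?_, ?_, ?_⟩, rfl⟩
      · show n ≤ c; omega
      · show l ≤ c; omega
      · show i ≤ c; omega
  · have hch : hc n (mains K z n) (Sum.inr q) ≠ mains K z n (Sum.inr q) :=
      fun hs => hne (lift_same K hs o)
    rcases o with _ | i
    · right
      obtain ⟨k, l⟩ := q
      have h1 : k = c := hcl
      subst h1
      have hn : n < N := by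
        by_contra hcon
        push Not at hcon
        exact hch (hN n hcon l)
      exact Set.mem_biUnion (show n ∈ Set.Iio N from hn) ⟨(k, l), hch, rfl⟩
    · left; right
      have h1 : n + 1 + i = c := by obtain ⟨k, l⟩ := q; exact hcl
      have hn : n ∈ Set.Iic c := by show n ≤ c; omega
      have hi' : i ∈ Set.Iic c := by show i ≤ c; omega
      exact Set.mem_biUnion hn (Set.mem_biUnion hi' ⟨q, hch, rfl⟩)

lemma mn_finite (c : ℕ) : {d : DD | cls d = c ∧ isMn d}.Finite := by
  have f1 : ((fun p : ℕ × ℕ => mn p.1 p.2) '' (Set.Iic c ×ˢ Set.Iic c)).Finite :=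
    ((Set.finite_Iic c).prod (Set.finite_Iic c)).image _
  refine f1.subset ?_
  rintro d ⟨hcl, n, l, rfl⟩
  have h1 : n + 1 + l = c := hcl
  refine ⟨(n, l), ⟨?_, ?_⟩, rfl⟩
  · show n ≤ c; omega
  · show l ≤ c; omega

lemma mains_eq {z : DD → ℝ} {n : ℕ} {a : A} (h : |z (n, a, none)| ≤ 1/2) :
    mains K z n a = z (n, a, none) := by
  unfold mains
  rw [K.idf (row z n a) h]
  rfl

lemma mains_eq' {z : DD → ℝ} {n : ℕ} {a : A} (h : |mains K z n a| ≤ 1/2) :
    mains K z n a = z (n, a, none) := by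
  have h1 := K.idb (K.Cf (row z n a)) h
  rw [K.bf] at h1
  have h2 : (row z n a).1 = (K.Cf (row z n a)).1 := congrArg Prod.fst h1
  exact h2.symm

lemma fwd {z : DD → ℝ} (h : inY z) : inX (HH K z) := by
  intro ε hε c
  have hch : (Ch K z c).Finite := by
    apply Ch_finite
    obtain ⟨_, N, hN⟩ := h (sj c) (sj_pos c)
    refine ⟨N, fun n hn l => hc_same (fun l' => ?_) l⟩
    have h1 : ¬ (sj c < |z (mn n l')|) := hN n hn l'
    have h2 : |z (n, Sum.inl l', none)| ≤ sj c := not_lt.1 h1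
    rw [mains_eq K (by linarith [sj_le c])]
    exact h2
  have hz := (h ε hε).1 c
  refine ((hch.union (mn_finite c)).union hz).subset ?_
  rintro d ⟨hd, hcl⟩
  by_cases hm : isMn d
  · exact Or.inl (Or.inr ⟨hcl, hm⟩)
  by_cases hs : HH K z d = z d
  · right
    refine ⟨?_, hcl, hm⟩
    show ε < |z d|
    rw [← hs]; exact hd
  · exact Or.inl (Or.inl ⟨hcl, hm, hs⟩)

lemma small_main {z : DD → ℝ} (h : inX (HH K z)) (c : ℕ) :
    ∃ N, ∀ n, N ≤ n → ∀ l, |mains K z n (Sum.inl l)| ≤ sj c := by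
  have hf := h (1/4) (by norm_num) c
  obtain ⟨N, hN⟩ := (hf.image (fun d : DD => d.1)).bddAbove
  refine ⟨max (N + 1) (c + 1), fun n hn l => ?_⟩
  have hn1 : N < n := lt_of_lt_of_le (Nat.lt_succ_self N) (le_trans (le_max_left _ _) hn)
  have hn2 : c < n := lt_of_lt_of_le (Nat.lt_succ_self c) (le_trans (le_max_right _ _) hn)
  have hs : ∀ l', |HH K z (n, Sum.inr (c, l'), none)| ≤ 1/4 := by
    intro l'
    by_contra hcon
    push Not at hcon
    have : n ≤ N := hN ⟨(n, Sum.inr (c, l'), none), ⟨hcon, rfl⟩, rfl⟩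
    omega
  apply gp_small (cube_mains K z n) hn2
  intro l'
  have h1 : mains K (HH K z) n (Sum.inr (c, l')) = HH K z (n, Sum.inr (c, l'), none) :=
    mains_eq K (by linarith [hs l'])
  have h2 : mains K (HH K z) n = hc n (mains K z n) :=
    mains_lift K (fun n _ hx => cube_hc hx n) z n
  rw [← h2, h1]
  exact (abs_le.1 (hs l')).2

lemma bwd {z : DD → ℝ} (h : inX (HH K z)) : inY z := by
  intro ε hε
  constructor
  · intro c
    have hch : (Ch K z c).Finite := by
      apply Ch_finite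
      obtain ⟨N, hN⟩ := small_main K h c
      exact ⟨N, fun n hn l => hc_same (hN n hn) l⟩
    refine (hch.union (h ε hε c)).subset ?_
    rintro d ⟨hd, hcl, hm⟩
    by_cases hs : HH K z d = z d
    · right
      refine ⟨?_, hcl⟩
      show ε < |HH K z d|
      rw [hs]; exact hd
    · exact Or.inl ⟨hcl, hm, hs⟩
  · obtain ⟨c, hc⟩ := exists_pow_lt_of_lt_one hε (by norm_num : (1/4:ℝ) < 1)
    obtain ⟨N, hN⟩ := small_main K h c
    refine ⟨N, fun n hn l hcon => ?_⟩
    have h1 := hN n hn l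
    have h2 : sj c < ε := by
      refine lt_of_le_of_lt ?_ hc
      unfold sj
      exact pow_le_pow_of_le_one (by norm_num) (by norm_num) (Nat.le_succ c)
    have h3 : mains K z n (Sum.inl l) = z (n, Sum.inl l, none) :=
      mains_eq' K (by linarith [sj_le c])
    have h4 : ε < |z (n, Sum.inl l, none)| := hcon
    rw [← h3] at h4
    linarith

lemma in_iff (z : DD → ℝ) : inX (HH K z) ↔ inY z := ⟨bwd K, fwd K⟩

/-- move the value at infinity to zero -/
def tr {I J : Idl DD} (F : (DD → ℝ) → DD → ℝ) (f : Pt I → ℝ) : Pt J → ℝ :=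
  pcase (f (pinf I)) (fun d => f (pinf I) + F (fun e => f (pin I e) - f (pinf I)) d)

lemma cont_tr {I J : Idl DD} {F : (DD → ℝ) → DD → ℝ} (hF : Continuous F) :
    Continuous (tr (I := I) (J := J) F) := by
  apply continuous_pi
  intro x
  rcases Ptcases x with rfl | ⟨d, rfl⟩
  · exact continuous_apply _
  · show Continuous (fun f : Pt I → ℝ => f (pinf I) + F (fun e => f (pin I e) - f (pinf I)) d)
    refine (continuous_apply _).add ((continuous_apply d).comp (hF.comp ?_))
    exact continuous_pi (fun e => (continuous_apply _).sub (continuous_apply _))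

lemma tr_tr {I J : Idl DD} {F G : (DD → ℝ) → DD → ℝ} (h : ∀ z, G (F z) = z) (f : Pt I → ℝ) :
    tr (I := J) (J := I) G (tr (I := I) (J := J) F f) = f := by
  funext x
  rcases Ptcases x with rfl | ⟨d, rfl⟩
  · rfl
  · show f (pinf I) + G (fun e => f (pinf I) + F (fun e => f (pin I e) - f (pinf I)) e
      - f (pinf I)) d = _
    have : (fun e => f (pinf I) + F (fun e => f (pin I e) - f (pinf I)) e - f (pinf I))
        = F (fun e => f (pin I e) - f (pinf I)) := by
      funext e; ring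
    rw [this, h]
    ring

noncomputable def phi : Homeomorph (FX → ℝ) (FY → ℝ) where
  toFun := tr (HI K)
  invFun := tr (HH K)
  left_inv := fun f => tr_tr (HH_HI K) f
  right_inv := fun f => tr_tr (HI_HH K) f
  continuous_toFun := cont_tr (cont_lift K cont_hi)
  continuous_invFun := cont_tr (cont_lift K cont_hc)

lemma contX_iff (f : FX → ℝ) : Continuous f ↔ inX (fun e => f (pin IX e) - f (pinf IX)) := cont_iff f
lemma contY_iff (f : FY → ℝ) : Continuous f ↔ inY (fun e => f (pin IY e) - f (pinf IY)) := cont_iff f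

lemma phi_symm_cont (g : FY → ℝ) : Continuous (tr (I := IY) (J := IX) (HH K) g) ↔ Continuous g := by
  rw [contX_iff, contY_iff, ← in_iff K]
  have : (fun e => tr (I := IY) (J := IX) (HH K) g (pin IX e) - tr (I := IY) (J := IX) (HH K) g (pinf IX))
      = HH K (fun e => g (pin IY e) - g (pinf IY)) := by
    funext e
    show g (pinf IY) + HH K (fun e => g (pin IY e) - g (pinf IY)) e - g (pinf IY) = _
    ring
  rw [this]

theorem phi_image : phi K '' {f : FX → ℝ | Continuous f} = {g : FY → ℝ | Continuous g} := by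
  ext g
  constructor
  · rintro ⟨f, hf, rfl⟩
    show Continuous (phi K f)
    rw [← phi_symm_cont K]
    have : tr (I := IY) (J := IX) (HH K) (phi K f) = f := (phi K).left_inv f
    rw [this]
    exact hf
  · intro hg
    refine ⟨tr (I := IY) (J := IX) (HH K) g, (phi_symm_cont K g).2 hg, ?_⟩
    exact (phi K).right_inv g

end Pool.Agent.H5.Fan
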