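import Mathlib

set_option autoImplicit false

open Set Filter Topology

namespace Pool.Agent.H5.KAn

/-- K-analytic subsets: images of spaces with a proper map to the Baire space. -/
def KA {W : Type} [TopologicalSpace W] (D : Set W) : Prop :=
  ∃ (G : Type) (_ : TopologicalSpace G) (p : G → (ℕ → ℕ)) (q : G → W),
    IsProperMap p ∧ Continuous q ∧ range q = D

theorem KA.image {W W' : Type} [TopologicalSpace W] [TopologicalSpace W'] {D : Set W} (h : KA D)
    (g : W → W') (hg : Continuous g) : KA (g '' D) := by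
  obtain ⟨G, _, p, q, hp, hq, rfl⟩ := h
  exact ⟨G, _, p, g ∘ q, hp, hg.comp hq, range_comp g q⟩

theorem KA_singleton {W : Type} [TopologicalSpace W] (w : W) : KA ({w} : Set W) := by
  refine ⟨Unit, inferInstance, fun _ => fun _ => 0, fun _ => w, isProperMap_const _,
    continuous_const, ?_⟩
  ext x
  simp [eq_comm]

/-- pairing homeomorphism -/
def e2 : (ℕ → ℕ) × (ℕ → ℕ) ≃ₜ (ℕ → ℕ) where
  toFun x := fun m => Nat.pair (x.1 m) (x.2 m)
  invFun y := (fun m => (Nat.unpair (y m)).1, fun m => (Nat.unpair (y m)).2)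
  left_inv x := by simp
  right_inv y := by funext m; simp
  continuous_toFun := by
    apply continuous_pi
    intro m
    have h : Continuous (fun z : ℕ × ℕ => Nat.pair z.1 z.2) := continuous_of_discreteTopology
    have h2 : Continuous (fun x : (ℕ → ℕ) × (ℕ → ℕ) => (x.1 m, x.2 m)) := by fun_prop
    exact h.comp h2
  continuous_invFun := by
    apply Continuous.prodMk
    · apply continuous_pi
      intro m
      have h : Continuous (fun z : ℕ => (Nat.unpair z).1) := continuous_of_discreteTopology
      exact h.comp (continuous_apply m)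
    · apply continuous_pi
      intro m
      have h : Continuous (fun z : ℕ => (Nat.unpair z).2) := continuous_of_discreteTopology
      exact h.comp (continuous_apply m)

/-- countable product -/
def eω : (ℕ → ℕ → ℕ) ≃ₜ (ℕ → ℕ) where
  toFun x := fun m => x (Nat.unpair m).1 (Nat.unpair m).2
  invFun y := fun i j => y (Nat.pair i j)
  left_inv x := by funext i j; simp
  right_inv y := by funext m; simp
  continuous_toFun := by
    apply continuous_pi
    intro m
    exact (continuous_apply _).comp (continuous_apply _)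
  continuous_invFun := by
    apply continuous_pi
    intro i
    apply continuous_pi
    intro j
    exact continuous_apply _

theorem KA.prod {W W' : Type} [TopologicalSpace W] [TopologicalSpace W'] {D : Set W} {D' : Set W'}
    (h : KA D) (h' : KA D') : KA (D ×ˢ D') := by
  obtain ⟨G, _, p, q, hp, hq, rfl⟩ := h
  obtain ⟨G', _, p', q', hp', hq', rfl⟩ := h'
  refine ⟨G × G', inferInstance, e2 ∘ Prod.map p p', Prod.map q q',
    e2.isProperMap.comp (hp.prodMap hp'), hq.prodMap hq', ?_⟩
  rw [range_prodMap]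

theorem KA.iUnion {W : Type} [TopologicalSpace W] {D : ℕ → Set W} (h : ∀ n, KA (D n)) :
    KA (⋃ n, D n) := by
  choose G hG p q hp hq hD using h
  refine ⟨Σ n, G n, inferInstance, fun x => fun m => Nat.casesOn m x.1 (fun k => p x.1 x.2 k),
    fun x => q x.1 x.2, ?_, ?_, ?_⟩
  · rw [isProperMap_iff_ultrafilter]
    constructor
    · rw [continuous_sigma_iff]
      intro n
      apply continuous_pi
      intro m
      cases m with
      | zero => exact continuous_const
      | succ k => exact (continuous_apply k).comp (hp n).continuous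
    · intro 𝒰 s hs
      rw [tendsto_pi_nhds] at hs
      have h0 := hs 0
      simp only at h0
      rw [nhds_discrete, tendsto_pure] at h0
      -- the ultrafilter lives on `G (s 0)`
      set n := s 0 with hn
      have h1 : range (Sigma.mk n : G n → Σ n, G n) ∈ 𝒰 := by
        filter_upwards [h0] with x hx
        obtain ⟨k, g⟩ := x
        simp only at hx
        subst hx
        exact ⟨g, rfl⟩
      have hinj : Function.Injective (Sigma.mk n : G n → Σ n, G n) := sigma_mk_injective
      let 𝒱 : Ultrafilter (G n) := 𝒰.comap hinj h1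
      have h𝒱 : 𝒱.map (Sigma.mk n) = 𝒰 := by
        apply Ultrafilter.coe_injective
        rw [Ultrafilter.coe_map, Ultrafilter.coe_comap, Filter.map_comap_of_mem h1]
      obtain ⟨g, hg1, hg2⟩ := (hp n).ultrafilter_le_nhds_of_tendsto (𝒰 := 𝒱)
        (y := fun k => s (k + 1)) (by
          rw [tendsto_pi_nhds]
          intro k
          have h2 := hs (k + 1)
          simp only at h2
          rw [← h𝒱, Ultrafilter.coe_map, tendsto_map'_iff] at h2
          exact h2)
      refine ⟨⟨n, g⟩, ?_, ?_⟩
      · funext m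
        cases m with
        | zero => rfl
        | succ k => exact congrFun hg1 k
      · rw [← h𝒱, Ultrafilter.coe_map]
        exact (continuous_sigmaMk.tendsto g).comp hg2
  · rw [continuous_sigma_iff]
    exact hq
  · ext w
    simp only [mem_range, Sigma.exists, mem_iUnion, ← hD]

theorem KA.union {W : Type} [TopologicalSpace W] {D D' : Set W} (h : KA D) (h' : KA D') :
    KA (D ∪ D') := by
  have : D ∪ D' = ⋃ n : ℕ, (if n = 0 then D else D') := by
    ext x
    simp only [mem_union, mem_iUnion]
    constructor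
    · rintro (hx | hx)
      · exact ⟨0, by simpa using hx⟩
      · exact ⟨1, by simpa using hx⟩
    · rintro ⟨n, hn⟩
      split_ifs at hn
      · exact Or.inl hn
      · exact Or.inr hn
  rw [this]
  apply KA.iUnion
  intro n
  split_ifs
  · exact h
  · exact h'

theorem KA.countable_range {W : Type} [TopologicalSpace W] (f : ℚ → W) : KA (range f) := by
  obtain ⟨e⟩ : Nonempty (ℕ ≃ ℚ) := ⟨(Denumerable.eqv ℚ).symm⟩
  have : range f = ⋃ n : ℕ, {f (e n)} := by
    ext x
    simp only [mem_range, mem_iUnion, mem_singleton_iff]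
    constructor
    · rintro ⟨y, rfl⟩
      exact ⟨e.symm y, by simp⟩
    · rintro ⟨n, rfl⟩
      exact ⟨_, rfl⟩
  rw [this]
  exact KA.iUnion (fun n => KA_singleton _)

section Ring

variable {Z : Type}

/-- stages of the generated ring -/
def stg (D : Set (Z → ℝ)) : ℕ → Set (Z → ℝ)
  | 0 => D
  | n + 1 => stg D n ∪ ((fun x : (Z → ℝ) × (Z → ℝ) => x.1 - x.2) '' (stg D n ×ˢ stg D n) ∪
      (fun x : (Z → ℝ) × (Z → ℝ) => x.1 * x.2) '' (stg D n ×ˢ stg D n))

theorem KA_stg (D : Set (Z → ℝ)) (hD : KA D) (n : ℕ) : KA (stg D n) := by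
  induction n with
  | zero => exact hD
  | succ n ih =>
    apply ih.union
    apply KA.union
    · exact (ih.prod ih).image _ (continuous_fst.sub continuous_snd)
    · exact (ih.prod ih).image _ (continuous_fst.mul continuous_snd)

theorem stg_mono (D : Set (Z → ℝ)) : Monotone (stg D) := by
  apply monotone_nat_of_le_succ
  intro n
  exact subset_union_left

theorem closure_eq_stg (D : Set (Z → ℝ)) (h1 : (1 : Z → ℝ) ∈ D) :
    (Subring.closure D : Set (Z → ℝ)) = ⋃ n, stg D n := by
  apply Subset.antisymm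
  · have hsub : ∀ a ∈ ⋃ n, stg D n, ∀ b ∈ ⋃ n, stg D n, a - b ∈ ⋃ n, stg D n := by
      intro a ha b hb
      obtain ⟨n, hn⟩ := mem_iUnion.1 ha
      obtain ⟨m, hm⟩ := mem_iUnion.1 hb
      refine mem_iUnion.2 ⟨max n m + 1, Or.inr (Or.inl ⟨(a, b), ⟨?_, ?_⟩, rfl⟩)⟩
      · exact stg_mono D (le_max_left _ _) hn
      · exact stg_mono D (le_max_right _ _) hm
    have hmul : ∀ a ∈ ⋃ n, stg D n, ∀ b ∈ ⋃ n, stg D n, a * b ∈ ⋃ n, stg D n := by
      intro a ha b hb
      obtain ⟨n, hn⟩ := mem_iUnion.1 ha
      obtain ⟨m, hm⟩ := mem_iUnion.1 hb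
      refine mem_iUnion.2 ⟨max n m + 1, Or.inr (Or.inr ⟨(a, b), ⟨?_, ?_⟩, rfl⟩)⟩
      · exact stg_mono D (le_max_left _ _) hn
      · exact stg_mono D (le_max_right _ _) hm
    have hone : (1 : Z → ℝ) ∈ ⋃ n, stg D n := mem_iUnion.2 ⟨0, h1⟩
    have hzero : (0 : Z → ℝ) ∈ ⋃ n, stg D n := by
      have := hsub _ hone _ hone
      simpa using this
    let R : Subring (Z → ℝ) :=
      { carrier := ⋃ n, stg D n
        mul_mem' := fun {a b} ha hb => hmul a ha b hb
        one_mem' := hone
        add_mem' := by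
          intro a b ha hb
          have h3 := hsub a ha _ (hsub _ hzero b hb)
          have h4 : a - (0 - b) = a + b := by ring
          rwa [h4] at h3
        zero_mem' := hzero
        neg_mem' := by
          intro a ha
          have h3 := hsub _ hzero a ha
          have h4 : 0 - a = -a := by ring
          rwa [h4] at h3 }
    have h5 : Subring.closure D ≤ R := by
      rw [Subring.closure_le]
      exact subset_iUnion (stg D) 0
    exact h5
  · apply iUnion_subset
    intro n
    induction n with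
    | zero => exact Subring.subset_closure
    | succ n ih =>
      rintro x (hx | ⟨⟨a, b⟩, ⟨ha, hb⟩, rfl⟩ | ⟨⟨a, b⟩, ⟨ha, hb⟩, rfl⟩)
      · exact ih hx
      · exact sub_mem (ih ha) (ih hb)
      · exact mul_mem (ih ha) (ih hb)

/-- the ring generated by `D` and the rational constants -/
def gen (D : Set (Z → ℝ)) : Subring (Z → ℝ) :=
  Subring.closure (D ∪ range (fun q : ℚ => (fun _ : Z => (q : ℝ))))

theorem subset_gen (D : Set (Z → ℝ)) : D ⊆ gen D :=
  subset_union_left.trans Subring.subset_closure

theorem rat_gen (D : Set (Z → ℝ)) (q : ℚ) : (fun _ : Z => (q : ℝ)) ∈ gen D :=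
  Subring.subset_closure (Or.inr ⟨q, rfl⟩)

theorem KA_gen (D : Set (Z → ℝ)) (hD : KA D) : KA (gen D : Set (Z → ℝ)) := by
  unfold gen
  rw [closure_eq_stg]
  · exact KA.iUnion (fun n => KA_stg _ (hD.union (KA.countable_range _)) n)
  · right
    exact ⟨1, by funext z; simp⟩

/-- the ring of continuous functions. -/
def contRing (Z : Type) [TopologicalSpace Z] : Subring (Z → ℝ) where
  carrier := {f | Continuous f}
  mul_mem' := fun hf hg => Continuous.mul hf hg
  one_mem' := continuous_const
  add_mem' := fun hf hg => Continuous.add hf hg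
  zero_mem' := continuous_const
  neg_mem' := fun hf => Continuous.neg hf

theorem gen_cont [TopologicalSpace Z] (D : Set (Z → ℝ)) (hD : ∀ f ∈ D, Continuous f) :
    ∀ f ∈ gen D, Continuous f := by
  have : gen D ≤ contRing Z := by
    unfold gen
    rw [Subring.closure_le]
    rintro f (hf | ⟨q, rfl⟩)
    · exact hD f hf
    · exact continuous_const
  exact fun f hf => this hf

/-- Stone-Weierstrass for subrings containing the rational constants. -/
theorem sw {K : Type} [TopologicalSpace K] [CompactSpace K] (R : Subring (K → ℝ))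
    (hR : ∀ f ∈ R, Continuous f) (hq : ∀ q : ℚ, (fun _ : K => (q : ℝ)) ∈ R)
    (hsep : ∀ x y : K, x ≠ y → ∃ f ∈ R, f x ≠ f y) (f : K → ℝ) (hf : Continuous f)
    (ε : ℝ) (hε : 0 < ε) : ∃ r ∈ R, ∀ k, |f k - r k| < ε := by
  let φ : C(K, ℝ) →+* (K → ℝ) := ContinuousMap.coeFnRingHom
  let R1 : Subring C(K, ℝ) := R.comap φ
  let R2 : Subring C(K, ℝ) := R1.topologicalClosure
  have hconst : ∀ c : ℝ, algebraMap ℝ C(K, ℝ) c ∈ R2 := by
    intro c
    have hcont : Continuous (fun c : ℝ => algebraMap ℝ C(K, ℝ) c) :=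
      continuous_algebraMap ℝ C(K, ℝ)
    have h1 : ∀ c ∈ closure (range (fun q : ℚ => (q : ℝ))), algebraMap ℝ C(K, ℝ) c ∈ R2 := by
      have hcl : IsClosed ((fun c : ℝ => algebraMap ℝ C(K, ℝ) c) ⁻¹' (R2 : Set C(K, ℝ))) :=
        (Subring.isClosed_topologicalClosure R1).preimage hcont
      apply closure_minimal _ hcl
      rintro _ ⟨q, rfl⟩
      apply Subring.le_topologicalClosure
      show φ (algebraMap ℝ C(K, ℝ) (q : ℝ)) ∈ R
      exact hq q
    exact h1 c (Rat.isDenseEmbedding_coe_real.dense c)
  let A : Subalgebra ℝ C(K, ℝ) :=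
    { carrier := R2
      mul_mem' := fun ha hb => R2.mul_mem ha hb
      add_mem' := fun ha hb => R2.add_mem ha hb
      algebraMap_mem' := hconst }
  have hAsep : A.SeparatesPoints := by
    intro x y hxy
    obtain ⟨g, hg, hgxy⟩ := hsep x y hxy
    refine ⟨g, ⟨⟨g, hR g hg⟩, ?_, rfl⟩, hgxy⟩
    apply Subring.le_topologicalClosure
    exact hg
  have h1 := ContinuousMap.continuousMap_mem_subalgebra_closure_of_separatesPoints A hAsep ⟨f, hf⟩
  have h2 : (⟨f, hf⟩ : C(K, ℝ)) ∈ closure (R1 : Set C(K, ℝ)) := by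
    have h3 : (⟨f, hf⟩ : C(K, ℝ)) ∈ closure (R2 : Set C(K, ℝ)) := h1
    rw [(Subring.isClosed_topologicalClosure R1).closure_eq] at h3
    exact h3
  rw [Metric.mem_closure_iff] at h2
  obtain ⟨g, hg, hd⟩ := h2 ε hε
  refine ⟨g, hg, ?_⟩
  intro k
  have h4 := ContinuousMap.dist_apply_le_dist (f := (⟨f, hf⟩ : C(K, ℝ))) (g := g) k
  rw [Real.dist_eq] at h4
  exact lt_of_le_of_lt h4 hd

end Ring

end Pool.Agent.H5.KAn
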