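import Mathlib
import Pool.Agent.H5.KAn

set_option autoImplicit false

open Set Filter Topology

namespace Pool.Agent.H5.KAn

/-- `C_p(Z)`. -/
abbrev CP (Z : Type) [TopologicalSpace Z] : Type := {f : Z → ℝ // Continuous f}

/-- `Z` has a dense K-analytic subspace. -/
def QQ (Z : Type) [TopologicalSpace Z] : Prop :=
  ∃ (G : Type) (_ : TopologicalSpace G) (p : G → (ℕ → ℕ)) (q : G → Z),
    IsProperMap p ∧ Continuous q ∧ DenseRange q

/-- usco cover -/
def Usco (Z : Type) [TopologicalSpace Z] : Prop :=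
  ∃ F : (ℕ → ℕ) → Set Z, (∀ s, IsCompact (F s)) ∧ (∀ z, ∃ s, z ∈ F s) ∧
            ∀ U : Set Z, IsOpen U → IsOpen {s | F s ⊆ U}

theorem Usco_of_KA {Z : Type} [TopologicalSpace Z] (h : KA (univ : Set Z)) : Usco Z := by
  obtain ⟨G, _, p, q, hp, hq, hr⟩ := h
  refine ⟨fun s => q '' (p ⁻¹' {s}), ?_, ?_, ?_⟩
  · intro s
    exact (hp.isCompact_preimage isCompact_singleton).image hq
  · intro z
    obtain ⟨g, rfl⟩ : z ∈ range q := by rw [hr]; trivial
    exact ⟨p g, g, rfl, rfl⟩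
  · intro U hU
    have : {s | q '' (p ⁻¹' {s}) ⊆ U} = (p '' (q ⁻¹' Uᶜ))ᶜ := by
      ext s
      simp only [mem_ofPred_eq, mem_compl_iff, mem_image, mem_preimage, not_exists, not_and]
      constructor
      · intro h g hg hs
        exact hg (h ⟨g, hs, rfl⟩)
      · rintro h _ ⟨g, hg, rfl⟩
        by_contra hcon
        exact h g hcon hg
    rw [this]
    exact (hp.isClosedMap _ (hU.isClosed_compl.preimage hq)).isOpen_compl

theorem KA_of_Usco {Z : Type} [TopologicalSpace Z] (h : Usco Z) : KA (univ : Set Z) := by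
  obtain ⟨F, hF1, hF2, hF3⟩ := h
  refine ⟨{x : (ℕ → ℕ) × Z // x.2 ∈ F x.1}, inferInstance, fun x => x.1.1, fun x => x.1.2, ?_,
    continuous_snd.comp continuous_subtype_val, ?_⟩
  · rw [isProperMap_iff_ultrafilter]
    refine ⟨continuous_fst.comp continuous_subtype_val, ?_⟩
    intro 𝒰 s hs
    have key : ∃ z ∈ F s, Tendsto (fun x : {x : (ℕ → ℕ) × Z // x.2 ∈ F x.1} => x.1.2) 𝒰 (𝓝 z) := by
      by_contra hcon
      push Not at hcon
      have h1 : ∀ z ∈ F s, ∃ U, U ∈ 𝓝 z ∧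
          (fun x : {x : (ℕ → ℕ) × Z // x.2 ∈ F x.1} => x.1.2) ⁻¹' U ∉ 𝒰 := by
        intro z hz
        have h2 := hcon z hz
        rw [Filter.not_tendsto_iff_exists_frequently_notMem] at h2
        obtain ⟨U, hU, h3⟩ := h2
        refine ⟨U, hU, ?_⟩
        intro h4
        exact h3 (by filter_upwards [h4] with x hx using not_not.2 hx)
      choose! U hU1 hU2 using h1
      obtain ⟨t, ht1, ht2⟩ := (hF1 s).elim_nhds_subcover (fun z => interior (U z))
        (fun z hz => interior_mem_nhds.2 (hU1 z hz))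
      have h5 : {s' | F s' ⊆ ⋃ z ∈ t, interior (U z)} ∈ 𝓝 s :=
        (hF3 _ (isOpen_biUnion (fun z _ => isOpen_interior))).mem_nhds ht2
      have h6 : (⋃ z ∈ (t : Set Z),
          (fun x : {x : (ℕ → ℕ) × Z // x.2 ∈ F x.1} => x.1.2) ⁻¹' (U z)) ∈ 𝒰 := by
        filter_upwards [hs h5] with x hx
        have h7 : x.1.2 ∈ ⋃ z ∈ t, interior (U z) := hx x.2
        simp only [mem_iUnion] at h7 ⊢
        obtain ⟨z, hz, h8⟩ := h7
        exact ⟨z, hz, (interior_subset h8 : x.1.2 ∈ U z)⟩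
      rw [Ultrafilter.finite_biUnion_mem_iff (Finset.finite_toSet t)] at h6
      obtain ⟨z, hz, h9⟩ := h6
      exact hU2 z (ht1 z hz) h9
    obtain ⟨z, hz, hz2⟩ := key
    refine ⟨⟨(s, z), hz⟩, rfl, ?_⟩
    rw [nhds_subtype_eq_comap, nhds_prod_eq, ← Filter.tendsto_iff_comap]
    exact hs.prodMk hz2
  · rw [eq_univ_iff_forall]
    intro z
    obtain ⟨s, hs⟩ := hF2 z
    exact ⟨⟨(s, z), hs⟩, rfl⟩

theorem QQ_of_KA {Z : Type} [TopologicalSpace Z] (h : KA (univ : Set Z)) : QQ Z := by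
  obtain ⟨G, hG, p, q, hp, hq, hr⟩ := h
  exact ⟨G, hG, p, q, hp, hq, by rw [denseRange_iff_closure_range, hr, closure_univ]⟩

theorem QQ.map {Z Z' : Type} [TopologicalSpace Z] [TopologicalSpace Z'] (h : QQ Z) (g : Z → Z')
    (hg : Continuous g) (hs : Function.Surjective g) : QQ Z' := by
  obtain ⟨G, hG, p, q, hp, hq, hr⟩ := h
  exact ⟨G, hG, p, g ∘ q, hp, hg.comp hq, hs.denseRange.comp hr hg⟩

/-- Passing to the second iterated function space. -/
theorem QQ.step {Z Z1 : Type} [TopologicalSpace Z] [TopologicalSpace Z1] (h : QQ Z)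
    (β : Z → Z1 → ℝ) (h1 : ∀ z, Continuous (β z)) (h2 : ∀ w, Continuous (fun z => β z w))
    (hsep : ∀ w w' : Z1, w ≠ w' → ∃ z, β z w ≠ β z w') : QQ (CP Z1) := by
  classical
  obtain ⟨G, _, p, q, hp, hq, hr⟩ := h
  have hβ : Continuous β := continuous_pi h2
  haveI : T2Space Z1 := T2Space.of_injective_continuous (f := fun w z => β z w)
    (by
      intro w w' hww
      by_contra hne
      obtain ⟨z, hz⟩ := hsep w w' hne
      exact hz (congrFun hww z)) (continuous_pi h1)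
  let D : Set (Z1 → ℝ) := range (β ∘ q)
  have hD : KA D := ⟨G, _, p, β ∘ q, hp, hβ.comp hq, rfl⟩
  have hDc : ∀ f ∈ D, Continuous f := by
    rintro _ ⟨g, rfl⟩
    exact h1 _
  obtain ⟨G', hG', p', q', hp', hq', hr'⟩ := KA_gen D hD
  have hc' : ∀ g, Continuous (q' g) := by
    intro g
    apply gen_cont D hDc
    have : q' g ∈ range q' := ⟨g, rfl⟩
    rw [hr'] at this
    exact this
  refine ⟨G', hG', p', fun g => ⟨q' g, hc' g⟩, hp', hq'.subtype_mk _, ?_⟩
  intro φ
  rw [mem_closure_iff_nhds]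
  intro U hU
  rw [nhds_subtype_eq_comap, mem_comap] at hU
  obtain ⟨V, hV, hVU⟩ := hU
  rw [nhds_pi, Filter.mem_pi'] at hV
  obtain ⟨I, t, ht, htV⟩ := hV
  -- a uniform epsilon
  have hε : ∃ ε : ℝ, 0 < ε ∧ ∀ w ∈ I, ∀ r : ℝ, |φ.1 w - r| < ε → r ∈ t w := by
    have h3 : ∀ w, ∃ ε : ℝ, 0 < ε ∧ Metric.ball (φ.1 w) ε ⊆ t w := fun w => Metric.mem_nhds_iff.1 (ht w)
    choose ε hε1 hε2 using h3
    rcases I.eq_empty_or_nonempty with rfl | hI
    · exact ⟨1, one_pos, by simp⟩
    · refine ⟨I.inf' hI ε, ?_, ?_⟩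
      · rw [Finset.lt_inf'_iff]
        intro w _
        exact hε1 w
      · intro w hw r hr
        apply hε2
        rw [Metric.mem_ball, Real.dist_eq, abs_sub_comm]
        exact lt_of_lt_of_le hr (Finset.inf'_le ε hw)
  obtain ⟨ε, hε1, hε2⟩ := hε
  -- restrict to the finite set `I`
  let ρ : (Z1 → ℝ) →+* (I → ℝ) := RingHom.pi (fun w : I => Pi.evalRingHom (fun _ : Z1 => ℝ) w.1)
  let R : Subring (I → ℝ) := (gen D).map ρ
  obtain ⟨r, hr1, hr2⟩ := sw (K := I) R (fun f _ => continuous_of_discreteTopology)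
    (by
      intro x
      exact ⟨_, rat_gen D x, rfl⟩)
    (by
      intro x y hxy
      obtain ⟨z, hz⟩ := hsep x.1 y.1 (fun h => hxy (Subtype.ext h))
      have hopen : IsOpen {z | β z x.1 ≠ β z y.1} := isOpen_ne_fun (h2 _) (h2 _)
      obtain ⟨g, hg⟩ := hr.exists_mem_open hopen ⟨z, hz⟩
      refine ⟨ρ (β (q g)), ⟨β (q g), subset_gen D ⟨g, rfl⟩, rfl⟩, ?_⟩
      exact hg)
    (fun w => φ.1 w.1) continuous_of_discreteTopology ε hε1
  obtain ⟨f, hf, rfl⟩ := hr1
  have hf' : f ∈ range q' := by rw [hr']; exact hf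
  obtain ⟨g, rfl⟩ := hf'
  refine ⟨⟨q' g, hc' g⟩, ?_, ⟨g, rfl⟩⟩
  apply hVU
  apply htV
  intro w hw
  exact hε2 w hw _ (hr2 ⟨w, hw⟩)

/-- The final step: a compact space with a separating K-analytic family of functions. -/
theorem final {Y : Type} [TopologicalSpace Y] [CompactSpace Y] {G : Type} [TopologicalSpace G]
    (p : G → (ℕ → ℕ)) (q : G → Y → ℝ) (hp : IsProperMap p) (hq : Continuous q)
    (hc : ∀ g, Continuous (q g)) (hsep : ∀ y y' : Y, y ≠ y' → ∃ g, q g y ≠ q g y') :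
    KA (univ : Set (CP Y)) := by
  obtain ⟨G1, _, p1, q1, hp1, hq1, hr1⟩ := KA_gen (range q) ⟨G, _, p, q, hp, hq, rfl⟩
  have hmem : ∀ g, q1 g ∈ gen (range q) := by
    intro g
    have : q1 g ∈ range q1 := ⟨g, rfl⟩
    rw [hr1] at this
    exact this
  have hc1 : ∀ g, Continuous (q1 g) := by
    intro g
    apply gen_cont (range q) _ _ (hmem g)
    rintro _ ⟨g, rfl⟩
    exact hc g
  let C : Set (ℕ → G1) := {v | ∀ n y, |q1 (v (n + 1)) y| ≤ (1 / 2 : ℝ) ^ n}
  have hC : IsClosed C := by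
    have : C = ⋂ n, ⋂ y, {v : ℕ → G1 | |q1 (v (n + 1)) y| ≤ (1 / 2 : ℝ) ^ n} := by
      ext v; simp [C]
    rw [this]
    apply isClosed_iInter
    intro n
    apply isClosed_iInter
    intro y
    have h3 : Continuous (fun v : ℕ → G1 => q1 (v (n + 1)) y) :=
      (continuous_apply y).comp (hq1.comp (continuous_apply (n + 1)))
    exact isClosed_le h3.abs continuous_const
  have hsum : Summable (fun n : ℕ => (1 / 2 : ℝ) ^ n) := summable_geometric_two
  let q2 : C → Y → ℝ := fun v y => q1 (v.1 0) y + ∑' n, q1 (v.1 (n + 1)) y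
  have hq2c : ∀ v, Continuous (q2 v) := by
    intro v
    apply (hc1 _).add
    apply continuous_tsum (fun n => hc1 _) hsum
    intro n y
    exact v.2 n y
  have hq2 : Continuous q2 := by
    apply continuous_pi
    intro y
    have h4 : ∀ n, Continuous (fun v : C => q1 (v.1 n) y) := fun n =>
      (continuous_apply y).comp (hq1.comp ((continuous_apply n).comp continuous_subtype_val))
    apply (h4 0).add
    apply continuous_tsum (fun n => h4 (n + 1)) hsum
    intro n v
    exact v.2 n y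
  refine ⟨C, inferInstance, fun v => eω (fun n => p1 (v.1 n)), fun v => ⟨q2 v, hq2c v⟩, ?_,
    hq2.subtype_mk _, ?_⟩
  · exact (eω.isProperMap.comp (IsProperMap.pi_map (fun _ : ℕ => hp1))).restrict hC
  · rw [eq_univ_iff_forall]
    rintro ⟨f, hf⟩
    have happ : ∀ n : ℕ, ∃ g : G1, ∀ y, |f y - q1 g y| < (1 / 2 : ℝ) ^ (n + 2) := by
      intro n
      obtain ⟨r, hr, hr2⟩ := sw (gen (range q)) (gen_cont (range q) (by
          rintro _ ⟨g, rfl⟩
          exact hc g)) (rat_gen _)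
        (by
          intro x y hxy
          obtain ⟨g, hg⟩ := hsep x y hxy
          exact ⟨q g, subset_gen _ ⟨g, rfl⟩, hg⟩) f hf ((1 / 2 : ℝ) ^ (n + 2)) (by positivity)
      have : r ∈ range q1 := by rw [hr1]; exact hr
      obtain ⟨g, rfl⟩ := this
      exact ⟨g, hr2⟩
    choose g hg using happ
    have hdiff : ∀ n, ∃ g' : G1, q1 g' = q1 (g (n + 1)) - q1 (g n) := by
      intro n
      have : q1 (g (n + 1)) - q1 (g n) ∈ range q1 := by
        rw [hr1]
        exact sub_mem (hmem _) (hmem _)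
      exact this
    choose g' hg' using hdiff
    let v : ℕ → G1 := fun n => Nat.casesOn n (g 0) (fun k => g' k)
    have hv : v ∈ C := by
      intro n y
      show |q1 (g' n) y| ≤ _
      rw [hg', Pi.sub_apply]
      have h5 := hg (n + 1) y
      have h6 := hg n y
      have h7 : (1 / 2 : ℝ) ^ (n + 2) = (1 / 4) * (1 / 2 : ℝ) ^ n := by ring
      have h8 : (1 / 2 : ℝ) ^ (n + 1 + 2) = (1 / 8) * (1 / 2 : ℝ) ^ n := by ring
      have h9 : (0 : ℝ) < (1 / 2 : ℝ) ^ n := by positivity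
      rw [h8] at h5
      rw [h7] at h6
      rw [abs_lt] at h5 h6
      rw [abs_le]
      constructor <;> linarith [h5.1, h5.2, h6.1, h6.2]
    refine ⟨⟨v, hv⟩, ?_⟩
    apply Subtype.ext
    funext y
    show q1 (g 0) y + ∑' n, q1 (g' n) y = f y
    have h10 : HasSum (fun n => q1 (g' n) y) (f y - q1 (g 0) y) := by
      have hs : Summable (fun n => q1 (g' n) y) := by
        apply Summable.of_norm_bounded hsum
        intro n
        exact hv n y
      rw [hs.hasSum_iff_tendsto_nat]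
      have h11 : ∀ n, ∑ i ∈ Finset.range n, q1 (g' i) y = q1 (g n) y - q1 (g 0) y := by
        intro n
        rw [← Finset.sum_range_sub (fun n => q1 (g n) y)]
        apply Finset.sum_congr rfl
        intro i _
        rw [hg', Pi.sub_apply]
      simp only [h11]
      apply Tendsto.sub_const
      rw [tendsto_iff_norm_sub_tendsto_zero]
      have h12 : Tendsto (fun n : ℕ => (1 / 2 : ℝ) ^ (n + 2)) atTop (𝓝 0) :=
        (tendsto_pow_atTop_nhds_zero_of_lt_one (by norm_num) (by norm_num)).comp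
          (tendsto_add_atTop_nat 2)
      apply squeeze_zero (fun n => norm_nonneg _) _ h12
      intro n
      rw [Real.norm_eq_abs, abs_sub_comm]
      exact (hg n y).le
    rw [h10.tsum_eq]
    ring

end Pool.Agent.H5.KAn
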