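import Mathlib
import Pool.Agent.H5.KAn2

set_option autoImplicit false

open Set Filter Topology

namespace Pool.Agent.H5.KAn

/-- the map `C_p(Z) → C_p(Z')` induced by a homeomorphism. -/
def cpm {Z Z' : Type} [TopologicalSpace Z] [TopologicalSpace Z'] (h : Z ≃ₜ Z') (f : CP Z) : CP Z' :=
  ⟨fun z => f.1 (h.symm z), f.2.comp h.symm.continuous⟩

theorem cpm_cont {Z Z' : Type} [TopologicalSpace Z] [TopologicalSpace Z'] (h : Z ≃ₜ Z') :
    Continuous (cpm h) := by
  apply Continuous.subtype_mk
  apply continuous_pi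
  intro z
  exact (continuous_apply (h.symm z)).comp continuous_subtype_val

theorem cpm_surj {Z Z' : Type} [TopologicalSpace Z] [TopologicalSpace Z'] (h : Z ≃ₜ Z') :
    Function.Surjective (cpm h) := by
  intro f
  refine ⟨⟨fun z => f.1 (h z), f.2.comp h.continuous⟩, ?_⟩
  apply Subtype.ext
  funext z
  simp [cpm]

theorem KA_univ_map {Z Z' : Type} [TopologicalSpace Z] [TopologicalSpace Z']
    (h : KA (univ : Set Z)) (g : Z → Z') (hg : Continuous g) (hs : Function.Surjective g) :
    KA (univ : Set Z') := by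
  have := h.image g hg
  rwa [image_univ, hs.range_eq] at this

section

variable (B : ℕ → Type) [∀ k, TopologicalSpace (B k)] (e : ∀ k, B (k + 1) ≃ₜ CP (B k))

/-- the canonical map `B k → B (k+2)`. -/
def ii (k : ℕ) (b : B k) : B (k + 2) :=
  (e (k + 1)).symm ⟨fun w => (e k w).1 b,
    (continuous_apply b).comp (continuous_subtype_val.comp (e k).continuous)⟩

theorem ii_spec (k : ℕ) (b : B k) (w : B (k + 1)) : (e (k + 1) (ii B e k b)).1 w = (e k w).1 b := by
  unfold ii
  rw [Homeomorph.apply_symm_apply]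

theorem ii_cont (k : ℕ) : Continuous (ii B e k) := by
  apply (e (k + 1)).symm.continuous.comp
  apply Continuous.subtype_mk
  apply continuous_pi
  intro w
  exact (e k w).2

/-- the restriction map `B (k+3) → B (k+1)`. -/
def rr (k : ℕ) (φ : B (k + 3)) : B (k + 1) :=
  (e k).symm ⟨fun b => (e (k + 2) φ).1 (ii B e k b), (e (k + 2) φ).2.comp (ii_cont B e k)⟩

theorem rr_cont (k : ℕ) : Continuous (rr B e k) := by
  apply (e k).symm.continuous.comp
  apply Continuous.subtype_mk
  apply continuous_pi
  intro b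
  exact (continuous_apply _).comp (continuous_subtype_val.comp (e (k + 2)).continuous)

theorem rr_surj (k : ℕ) : Function.Surjective (rr B e k) := by
  intro u
  refine ⟨ii B e (k + 1) u, ?_⟩
  unfold rr
  rw [Homeomorph.symm_apply_eq]
  apply Subtype.ext
  funext b
  show (e (k + 2) (ii B e (k + 1) u)).1 (ii B e k b) = _
  rw [ii_spec B e (k + 1), ii_spec B e k]

include e in
theorem QQ_up (k : ℕ) (h : QQ (B (k + 1))) : QQ (B (k + 3)) := by
  have h2 : QQ (CP (B (k + 2))) := by
    apply h.step (fun z w => (e (k + 1) w).1 z)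
    · intro z
      exact (continuous_apply z).comp (continuous_subtype_val.comp (e (k + 1)).continuous)
    · intro w
      exact (e (k + 1) w).2
    · intro w w' hne
      by_contra hcon
      push Not at hcon
      apply hne
      apply (e (k + 1)).injective
      apply Subtype.ext
      funext z
      exact hcon z
  exact h2.map (e (k + 2)).symm (e (k + 2)).symm.continuous (e (k + 2)).symm.surjective

include e in
theorem QQ_up' (m : ℕ) (h : QQ (B 1)) : QQ (B (2 * m + 1)) := by
  induction m with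
  | zero => exact h
  | succ m ih => exact QQ_up B e (2 * m) ih

include e in
theorem QQ_down (m : ℕ) (h : QQ (B (2 * m + 1))) : QQ (B 1) := by
  induction m with
  | zero => exact h
  | succ m ih => exact ih (h.map (rr B e (2 * m)) (rr_cont B e _) (rr_surj B e _))

/-- continuous functions separate the points of `B k`. -/
theorem fs (h0 : ∀ b b' : B 0, b ≠ b' → ∃ w, (e 0 w).1 b ≠ (e 0 w).1 b') (k : ℕ) :
    ∀ b b' : B k, b ≠ b' → ∃ w, (e k w).1 b ≠ (e k w).1 b' := by
  cases k with
  | zero => exact h0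
  | succ k =>
    intro w w' hne
    have h1 : ∃ b, (e k w).1 b ≠ (e k w').1 b := by
      by_contra hcon
      push Not at hcon
      exact hne ((e k).injective (Subtype.ext (funext hcon)))
    obtain ⟨b, hb⟩ := h1
    refine ⟨ii B e k b, ?_⟩
    rw [ii_spec, ii_spec]
    exact hb

theorem ii_inj (h0 : ∀ b b' : B 0, b ≠ b' → ∃ w, (e 0 w).1 b ≠ (e 0 w).1 b') (k : ℕ) :
    Function.Injective (ii B e k) := by
  intro b b' h
  by_contra hne
  obtain ⟨w, hw⟩ := fs B e h0 k b b' hne
  apply hw
  rw [← ii_spec B e k b w, ← ii_spec B e k b' w, h]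

theorem emb (h0 : ∀ b b' : B 0, b ≠ b' → ∃ w, (e 0 w).1 b ≠ (e 0 w).1 b') (m : ℕ) :
    ∃ j : B 0 → B (2 * m), Continuous j ∧ Function.Injective j := by
  induction m with
  | zero => exact ⟨id, continuous_id, Function.injective_id⟩
  | succ m ih =>
    obtain ⟨j, hj1, hj2⟩ := ih
    exact ⟨ii B e (2 * m) ∘ j, (ii_cont B e _).comp hj1, (ii_inj B e h0 _).comp hj2⟩

end

theorem main (X Y : Type) [TopologicalSpace X] [TopologicalSpace Y]
    [CompactSpace X] [T2Space X] [CompactSpace Y] [T2Space Y] (n : ℕ) (A B : ℕ → Type)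
    [∀ k, TopologicalSpace (A k)] [∀ k, TopologicalSpace (B k)]
    (hA0 : Nonempty (A 0 ≃ₜ X)) (hA : ∀ k, Nonempty (A (k + 1) ≃ₜ CP (A k)))
    (hB0 : Nonempty (B 0 ≃ₜ Y)) (hB : ∀ k, Nonempty (B (k + 1) ≃ₜ CP (B k)))
    (hAB : Nonempty (A n ≃ₜ B n)) (hX : Usco (CP X)) : Usco (CP Y) := by
  obtain ⟨a0⟩ := hA0
  obtain ⟨b0⟩ := hB0
  obtain ⟨h⟩ := hAB
  have eA : ∀ k, A (k + 1) ≃ₜ CP (A k) := fun k => (hA k).some
  have eB : ∀ k, B (k + 1) ≃ₜ CP (B k) := fun k => (hB k).some
  apply Usco_of_KA
  have hK := KA_of_Usco hX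
  have hA1 : QQ (A 1) := by
    apply QQ_of_KA
    have h1 : KA (univ : Set (CP (A 0))) := KA_univ_map hK (cpm a0.symm) (cpm_cont _) (cpm_surj _)
    exact KA_univ_map h1 (eA 0).symm (eA 0).symm.continuous (eA 0).symm.surjective
  have hsepY : ∀ y y' : Y, y ≠ y' → ∃ f : CP Y, f.1 y ≠ f.1 y' := by
    intro y y' hne
    obtain ⟨f, hf, h0, h1⟩ := CompletelyRegularSpace.completely_regular y {y'} isClosed_singleton
      (by simpa using hne)
    refine ⟨⟨fun z => (f z : ℝ), by fun_prop⟩, ?_⟩
    show (f y : ℝ) ≠ f y'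
    rw [h0, h1 (mem_singleton y')]
    simp
  rcases Nat.eq_zero_or_pos n with rfl | hn
  · have g : X ≃ₜ Y := a0.symm.trans (h.trans b0)
    exact KA_univ_map hK (cpm g) (cpm_cont _) (cpm_surj _)
  · rcases Nat.even_or_odd' n with ⟨m, rfl | rfl⟩
    · -- even, `m = l + 1`
      obtain ⟨l, rfl⟩ : ∃ l, m = l + 1 := ⟨m - 1, by omega⟩
      have h0 : ∀ b b' : B 0, b ≠ b' → ∃ w, (eB 0 w).1 b ≠ (eB 0 w).1 b' := by
        intro b b' hne
        obtain ⟨f, hf⟩ := hsepY (b0 b) (b0 b') (fun hc => hne (b0.injective hc))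
        refine ⟨(eB 0).symm (cpm b0.symm f), ?_⟩
        rw [Homeomorph.apply_symm_apply]
        exact hf
      obtain ⟨j, hj1, hj2⟩ := emb B eB h0 (l + 1)
      obtain ⟨G, _, p, q, hp, hq, hr⟩ := QQ_up' A eA l hA1
      -- `E y` is a continuous function on `A (2l+1)`
      let E : Y → CP (A (2 * l + 1)) := fun y => eA (2 * l + 1) (h.symm (j (b0.symm y)))
      have hE : Continuous E :=
        (eA (2 * l + 1)).continuous.comp (h.symm.continuous.comp (hj1.comp b0.symm.continuous))
      have hEi : Function.Injective E :=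
        (eA (2 * l + 1)).injective.comp (h.symm.injective.comp (hj2.comp b0.symm.injective))
      apply final p (fun g y => (E y).1 (q g)) hp
      · apply continuous_pi
        intro y
        exact (E y).2.comp hq
      · intro g
        exact (continuous_apply (q g)).comp (continuous_subtype_val.comp hE)
      · intro y y' hne
        have h1 : ∃ z, (E y).1 z ≠ (E y').1 z := by
          by_contra hcon
          push Not at hcon
          exact hne (hEi (Subtype.ext (funext hcon)))
        exact hr.exists_mem_open (isOpen_ne_fun (E y).2 (E y').2) h1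
    · -- odd
      have h1 : QQ (A (2 * m + 1)) := QQ_up' A eA m hA1
      have h2 : QQ (B (2 * m + 1)) := h1.map h h.continuous h.surjective
      have h3 : QQ (B 1) := QQ_down B eB m h2
      have h4 : QQ (CP (B 0)) := h3.map (eB 0) (eB 0).continuous (eB 0).surjective
      obtain ⟨G, _, p, q, hp, hq, hr⟩ : QQ (CP Y) := h4.map (cpm b0) (cpm_cont _) (cpm_surj _)
      apply final p (fun g => (q g).1) hp (continuous_subtype_val.comp hq) (fun g => (q g).2)
      intro y y' hne
      have h5 : IsOpen {f : CP Y | f.1 y ≠ f.1 y'} :=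
        isOpen_ne_fun ((continuous_apply y).comp continuous_subtype_val)
          ((continuous_apply y').comp continuous_subtype_val)
      exact hr.exists_mem_open h5 (hsepY y y' hne)

end Pool.Agent.H5.KAn
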