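import Mathlib
set_option autoImplicit false
open Filter Topology Set

namespace Pool.Agent.H5.KOm

section Trunc
variable {ι : Type*} [Fintype ι]

open Classical in
/-- number of coordinates exceeding `t` in absolute value -/
noncomputable def cnt (t : ℝ) (x : ι → ℝ) : ℕ := (Finset.univ.filter (fun i => t < |x i|)).card

/-- the `(k+1)`-st largest absolute value -/
noncomputable def tau (k : ℕ) (x : ι → ℝ) : ℝ := sInf {t : ℝ | 0 ≤ t ∧ cnt t x ≤ k}

lemma tau_set_bdd (k : ℕ) (x : ι → ℝ) : BddBelow {t : ℝ | 0 ≤ t ∧ cnt t x ≤ k} :=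
  ⟨0, fun _ h => h.1⟩

lemma tau_set_ne (k : ℕ) (x : ι → ℝ) : {t : ℝ | 0 ≤ t ∧ cnt t x ≤ k}.Nonempty := by
  classical
  refine ⟨∑ i, |x i|, Finset.sum_nonneg (fun i _ => abs_nonneg _), ?_⟩
  have : cnt (∑ i, |x i|) x = 0 := by
    unfold cnt
    rw [Finset.card_eq_zero, Finset.filter_eq_empty_iff]
    intro i _ h
    have := Finset.single_le_sum (f := fun i => |x i|) (fun i _ => abs_nonneg (x i))
      (Finset.mem_univ i)
    exact absurd h (not_lt.2 this)
  omega

lemma tau_nonneg (k : ℕ) (x : ι → ℝ) : 0 ≤ tau k x := Real.sInf_nonneg (fun _ h => h.1)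

lemma tau_le {k : ℕ} {x : ι → ℝ} {t : ℝ} (ht : 0 ≤ t) (h : cnt t x ≤ k) : tau k x ≤ t :=
  csInf_le (tau_set_bdd k x) ⟨ht, h⟩

lemma cnt_tau (k : ℕ) (x : ι → ℝ) : cnt (tau k x) x ≤ k := by
  classical
  by_contra hcon
  push Not at hcon
  have hne : (Finset.univ.filter (fun i => tau k x < |x i|)).Nonempty := by
    rw [← Finset.card_pos]
    unfold cnt at hcon
    have : 0 < (Finset.univ.filter (fun i => tau k x < |x i|)).card := by
      refine lt_of_le_of_lt (Nat.zero_le k) ?_
      convert hcon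
    exact this
  obtain ⟨i0, hi0, hmin⟩ := Finset.exists_min_image _ (fun i => |x i|) hne
  have h1 : tau k x < |x i0| := (Finset.mem_filter.1 hi0).2
  obtain ⟨t, ⟨ht0, htk⟩, htlt⟩ := exists_lt_of_csInf_lt (tau_set_ne k x) h1
  have h2 : cnt (tau k x) x ≤ cnt t x := by
    unfold cnt
    apply Finset.card_le_card
    intro i hi
    refine Finset.mem_filter.2 ⟨Finset.mem_univ _, ?_⟩
    refine lt_of_lt_of_le htlt (hmin i ?_)
    exact Finset.mem_filter.2 ⟨Finset.mem_univ _, (Finset.mem_filter.1 hi).2⟩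
  omega

lemma cnt_mono_of {s t : ℝ} {x x' : ι → ℝ} (h : ∀ i, s < |x i| → t < |x' i|) :
    cnt s x ≤ cnt t x' := by
  classical
  unfold cnt
  apply Finset.card_le_card
  intro i hi
  exact Finset.mem_filter.2 ⟨Finset.mem_univ _, h i (Finset.mem_filter.1 hi).2⟩

lemma tau_lip {k : ℕ} {x x' : ι → ℝ} {ε : ℝ} (hε : 0 ≤ ε) (h : ∀ i, |x i - x' i| ≤ ε) :
    tau k x' ≤ tau k x + ε := by
  refine tau_le (add_nonneg (tau_nonneg _ _) hε) ?_
  refine le_trans (cnt_mono_of (fun i hi => ?_)) (cnt_tau k x)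
  have h1 := h i
  have h2 : |x' i| ≤ |x i| + |x i - x' i| := by
    have := abs_sub_abs_le_abs_sub (x' i) (x i)
    rw [abs_sub_comm] at this
    linarith
  linarith

/-- clamp to `[-t, t]` -/
noncomputable def cl (t a : ℝ) : ℝ := max (-t) (min a t)

lemma abs_cl_le {t : ℝ} (ht : 0 ≤ t) (a : ℝ) : |cl t a| ≤ t := by
  unfold cl
  rw [abs_le]
  exact ⟨le_max_left _ _, max_le (by linarith) (min_le_right _ _)⟩

lemma abs_cl_le' {t : ℝ} (ht : 0 ≤ t) (a : ℝ) : |cl t a| ≤ |a| := by
  unfold cl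
  rw [abs_le]
  constructor
  · refine le_trans ?_ (le_max_right _ _)
    refine le_min (neg_abs_le a) ?_
    have := abs_nonneg a
    linarith
  · refine max_le ?_ (le_trans (min_le_left _ _) (le_abs_self a))
    have := abs_nonneg a
    linarith

lemma abs_sub_cl_le {t : ℝ} (ht : 0 ≤ t) (a : ℝ) : |a - cl t a| ≤ |a| := by
  unfold cl
  rcases le_total 0 a with h | h
  · have h1 : max (-t) (min a t) = min a t := max_eq_right (le_trans (by linarith) (le_min h ht))
    rw [h1, abs_of_nonneg h, abs_of_nonneg (by linarith [min_le_left a t])]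
    have := le_min h ht
    linarith
  · have h1 : min a t = a := min_eq_left (by linarith)
    rw [h1, abs_of_nonpos h, abs_of_nonpos (by linarith [le_max_right (-t) a])]
    have : max (-t) a ≤ 0 := max_le (by linarith) h
    linarith

lemma cl_eq_of_abs_le {t a : ℝ} (h : |a| ≤ t) : cl t a = a := by
  unfold cl
  rw [abs_le] at h
  rw [min_eq_left h.2, max_eq_right h.1]

lemma cl_lip {t t' a a' ε : ℝ} (h1 : |t - t'| ≤ ε) (h2 : |a - a'| ≤ ε) :
    |cl t a - cl t' a'| ≤ ε := by
  unfold cl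
  refine le_trans (abs_max_sub_max_le_max _ _ _ _) (max_le ?_ ?_)
  · rw [neg_sub_neg, abs_sub_comm]; exact h1
  · exact le_trans (abs_min_sub_min_le_max _ _ _ _) (max_le h2 h1)

/-- soft thresholding leaving at most `k` nonzero coordinates -/
noncomputable def T (k : ℕ) (x : ι → ℝ) : ι → ℝ := fun i => x i - cl (tau k x) (x i)

lemma T_abs_le (k : ℕ) (x : ι → ℝ) (i : ι) : |T k x i| ≤ |x i| := abs_sub_cl_le (tau_nonneg _ _) _

lemma T_ne {k : ℕ} {x : ι → ℝ} {i : ι} (h : T k x i ≠ 0) : tau k x < |x i| := by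
  by_contra hcon
  push Not at hcon
  apply h
  unfold T
  rw [cl_eq_of_abs_le hcon, sub_self]

open Classical in
/-- number of nonzero coordinates -/
noncomputable def nz (z : ι → ℝ) : ℕ := (Finset.univ.filter (fun i => z i ≠ 0)).card

lemma card_T_ne (k : ℕ) (x : ι → ℝ) : nz (T k x) ≤ k := by
  classical
  refine le_trans ?_ (cnt_tau k x)
  unfold nz cnt
  apply Finset.card_le_card
  intro i hi
  exact Finset.mem_filter.2 ⟨Finset.mem_univ _, T_ne (Finset.mem_filter.1 hi).2⟩

lemma T_uc (k : ℕ) : UniformContinuous (T k : (ι → ℝ) → (ι → ℝ)) := by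
  rw [uniformContinuous_pi]
  intro i
  rw [Metric.uniformContinuous_iff]
  intro ε hε
  refine ⟨ε / 3, by positivity, fun x x' hx => ?_⟩
  have h0 : ∀ i, |x i - x' i| ≤ ε / 3 := fun i => by
    have := dist_le_pi_dist x x' i
    rw [Real.dist_eq] at this
    linarith
  have h1 : |tau k x - tau k x'| ≤ ε / 3 := by
    rw [abs_le]
    have a := tau_lip (k := k) (by positivity : (0:ℝ) ≤ ε / 3) h0
    have b := tau_lip (k := k) (x := x') (x' := x) (by positivity : (0:ℝ) ≤ ε / 3)
      (fun i => by rw [abs_sub_comm]; exact h0 i)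
    constructor <;> linarith
  have h2 := cl_lip h1 (h0 i)
  rw [Real.dist_eq]
  unfold T
  have : x i - cl (tau k x) (x i) - (x' i - cl (tau k x') (x' i))
      = (x i - x' i) - (cl (tau k x) (x i) - cl (tau k x') (x' i)) := by ring
  rw [this]
  have := abs_sub (x i - x' i) (cl (tau k x) (x i) - cl (tau k x') (x' i))
  have h3 := h0 i
  linarith

/-- adding a vector with few nonzero coordinates -/
lemma cnt_add_le {t : ℝ} {k : ℕ} {x x' z : ι → ℝ} (h : ∀ i, z i = 0 → |x' i| ≤ |x i|)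
    (hz : nz z ≤ k) :
    cnt t x' ≤ cnt t x + k := by
  classical
  unfold nz at hz
  unfold cnt
  have h1 : (Finset.univ.filter (fun i => t < |x' i|)) ⊆
      (Finset.univ.filter (fun i => t < |x i|)) ∪ (Finset.univ.filter (fun i => z i ≠ 0)) := by
    intro i hi
    rw [Finset.mem_union, Finset.mem_filter, Finset.mem_filter]
    by_cases hzi : z i = 0
    · left
      exact ⟨Finset.mem_univ _, lt_of_lt_of_le (Finset.mem_filter.1 hi).2 (h i hzi)⟩
    · right
      exact ⟨Finset.mem_univ _, hzi⟩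
  have h2 := Finset.card_le_card h1
  have h3 := Finset.card_union_le (Finset.univ.filter (fun i => t < |x i|))
    (Finset.univ.filter (fun i => z i ≠ 0))
  have h4 : (Finset.univ.filter (fun i => z i ≠ 0)).card ≤ k := by
    convert hz
  have e1 : (Finset.univ.filter (fun i => t < |x' i|)).card ≤
    (Finset.univ.filter (fun i => t < |x i|)).card + k := by omega
  convert e1

end Trunc

/-! ### one block -/

section Block
variable {n : ℕ}

abbrev V (n : ℕ) : Type := Fin (4 ^ n) → ℝ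

noncomputable def B (n : ℕ) (x : V n) (y : ℕ → V n) : ℕ → V n
  | 0 => x
  | m + 1 => fun i => B n x y m i - T (2 * 4 ^ m) (fun i => y (n - m) i + B n x y m i) i

noncomputable def Xs (n : ℕ) (w : ℕ → V n) : ℕ → V n
  | 0 => w 0
  | j + 1 => fun i => Xs n w j i + T (2 * 4 ^ (n - j)) (w (j + 1)) i

noncomputable def Phi (n : ℕ) (x : V n) (y : ℕ → V n) : ℕ → V n
  | 0 => B n x y (n + 1)
  | j + 1 => fun i => y j i + B n x y (n - j) i

noncomputable def Psi1 (n : ℕ) (w : ℕ → V n) : V n := Xs n w (n + 1)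

noncomputable def Psi2 (n : ℕ) (w : ℕ → V n) : ℕ → V n :=
  fun j i => w (j + 1) i - Xs n w (min (j + 1) (n + 1)) i

lemma Xs_Phi (x : V n) (y : ℕ → V n) : ∀ j, j ≤ n + 1 → Xs n (Phi n x y) j = B n x y (n + 1 - j)
  | 0, _ => rfl
  | j + 1, hj => by
      have ih := Xs_Phi x y j (by omega)
      have e1 : n + 1 - j = (n - j) + 1 := by omega
      have e2 : n + 1 - (j + 1) = n - j := by omega
      have e3 : n - (n - j) = j := by omega
      funext i
      show Xs n (Phi n x y) j i + T (2 * 4 ^ (n - j)) (Phi n x y (j + 1)) i = _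
      rw [ih, e1, e2]
      show B n x y (n - j) i - T (2 * 4 ^ (n - j)) (fun i => y (n - (n - j)) i + B n x y (n - j) i) i
        + T (2 * 4 ^ (n - j)) (fun i => y j i + B n x y (n - j) i) i = _
      rw [e3]
      ring

lemma Psi1_Phi (x : V n) (y : ℕ → V n) : Psi1 n (Phi n x y) = x := by
  unfold Psi1
  rw [Xs_Phi x y (n + 1) le_rfl, Nat.sub_self]
  rfl

lemma Psi2_Phi (x : V n) (y : ℕ → V n) : Psi2 n (Phi n x y) = y := by
  funext j i
  unfold Psi2
  rw [Xs_Phi x y _ (min_le_right _ _)]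
  have e : n + 1 - min (j + 1) (n + 1) = n - j := by omega
  rw [e]
  show y j i + B n x y (n - j) i - B n x y (n - j) i = y j i
  ring

lemma B_Psi (w : ℕ → V n) : ∀ m, m ≤ n + 1 → B n (Psi1 n w) (Psi2 n w) m = Xs n w (n + 1 - m)
  | 0, _ => rfl
  | m + 1, hm => by
      have ih := B_Psi w m (by omega)
      have e1 : n + 1 - m = (n - m) + 1 := by omega
      have e2 : n + 1 - (m + 1) = n - m := by omega
      have e3 : min (n - m + 1) (n + 1) = n - m + 1 := by omega
      have e4 : n - (n - m) = m := by omega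
      funext i
      show B n (Psi1 n w) (Psi2 n w) m i - T (2 * 4 ^ m)
        (fun i => Psi2 n w (n - m) i + B n (Psi1 n w) (Psi2 n w) m i) i = _
      rw [ih, e1, e2]
      have e5 : (fun i => Psi2 n w (n - m) i + Xs n w (n - m + 1) i) = w (n - m + 1) := by
        funext i
        unfold Psi2
        rw [e3]
        ring
      rw [e5]
      show Xs n w (n - m) i + T (2 * 4 ^ (n - (n - m))) (w (n - m + 1)) i
        - T (2 * 4 ^ m) (w (n - m + 1)) i = _
      rw [e4]
      ring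

lemma Phi_Psi (w : ℕ → V n) : Phi n (Psi1 n w) (Psi2 n w) = w := by
  funext j
  cases j with
  | zero =>
      show B n (Psi1 n w) (Psi2 n w) (n + 1) = w 0
      rw [B_Psi w _ le_rfl, Nat.sub_self]
      rfl
  | succ j =>
      funext i
      show Psi2 n w j i + B n (Psi1 n w) (Psi2 n w) (n - j) i = w (j + 1) i
      rw [B_Psi w _ (by omega)]
      have e : n + 1 - (n - j) = min (j + 1) (n + 1) := by omega
      rw [e]
      unfold Psi2
      ring

/-! estimates -/

lemma cnt_B {δ : ℝ} (x : V n) (y : ℕ → V n) :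
    ∀ m, cnt δ (B n x y m) * 3 + 2 ≤ cnt δ x * 3 + 2 * 4 ^ m
  | 0 => by
      show cnt δ x * 3 + 2 ≤ cnt δ x * 3 + 2 * 4 ^ 0
      simp
  | m + 1 => by
      have ih := cnt_B (δ := δ) x y m
      have h := cnt_add_le (t := δ) (k := 2 * 4 ^ m) (x := B n x y m) (x' := B n x y (m + 1))
        (z := T (2 * 4 ^ m) (fun i => y (n - m) i + B n x y m i))
        (fun i hi => by
          show |B n x y m i - T (2 * 4 ^ m) (fun i => y (n - m) i + B n x y m i) i| ≤ _
          rw [hi, sub_zero])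
        (card_T_ne _ _)
      rw [pow_succ]
      omega

lemma fwd1 {J : ℕ} (hJ : J ≤ n) {δ : ℝ} (hδ : 0 ≤ δ) {x : V n} {y : ℕ → V n}
    (hx : cnt δ x * 4 ^ J ≤ 4 ^ n) (hy : ∀ j ≤ J, ∀ i, |y j i| ≤ δ) :
    ∀ i, |B n x y (n - J + 1) i| ≤ 3 * δ := by
  have h4 : (4:ℕ) ^ n = 4 ^ J * 4 ^ (n - J) := by
    rw [← pow_add]; congr 1; omega
  have hx' : cnt δ x ≤ 4 ^ (n - J) := by
    have hx2 : 4 ^ J * cnt δ x ≤ 4 ^ J * 4 ^ (n - J) := by
      rw [← h4, mul_comm]; exact hx
    exact Nat.le_of_mul_le_mul_left hx2 (by positivity)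
  have h1 := cnt_B (δ := δ) x y (n - J)
  have hc : cnt δ (B n x y (n - J)) ≤ 2 * 4 ^ (n - J) := by omega
  have e3 : n - (n - J) = J := by omega
  set w : V n := fun i => y (n - (n - J)) i + B n x y (n - J) i with hw
  have hcw : cnt (2 * δ) w ≤ 2 * 4 ^ (n - J) := by
    refine le_trans (cnt_mono_of (fun i hi => ?_)) hc
    rw [hw] at hi
    simp only at hi
    rw [e3] at hi
    have := hy J le_rfl i
    have h2 := abs_add_le (y J i) (B n x y (n - J) i)
    linarith
  have ht := tau_le (k := 2 * 4 ^ (n - J)) (by positivity : (0:ℝ) ≤ 2 * δ) hcw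
  intro i
  show |B n x y (n - J) i - T (2 * 4 ^ (n - J)) w i| ≤ 3 * δ
  have : B n x y (n - J) i - T (2 * 4 ^ (n - J)) w i
      = -y J i + cl (tau (2 * 4 ^ (n - J)) w) (w i) := by
    unfold T
    rw [hw]
    simp only
    rw [e3]
    ring
  rw [this]
  have h2 := abs_add_le (-y J i) (cl (tau (2 * 4 ^ (n - J)) w) (w i))
  rw [abs_neg] at h2
  have h3 := abs_cl_le (tau_nonneg (2 * 4 ^ (n - J)) w) (w i)
  have := hy J le_rfl i
  linarith

lemma fwd2 {J : ℕ} (hJ : J ≤ n) {δ : ℝ} (hδ : 0 ≤ δ) {x : V n} {y : ℕ → V n}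
    (hx : cnt δ x * 4 ^ J ≤ 4 ^ n) (hy : ∀ j ≤ J, ∀ i, |y j i| ≤ δ) :
    ∀ r : ℕ, ∀ i, |B n x y (n - J + 1 + r) i| ≤ (3 + 2 * r) * δ
  | 0 => fun i => by
      have := fwd1 hJ hδ hx hy i
      simpa using this
  | r + 1 => fun i => by
      have ih := fwd2 hJ hδ hx hy r i
      set m := n - J + 1 + r with hm
      have hle : n - m ≤ J := by omega
      have hy' := hy (n - m) hle i
      set w : V n := fun i => y (n - m) i + B n x y m i with hw
      have e : B n x y (n - J + 1 + (r + 1)) i = -y (n - m) i + cl (tau (2 * 4 ^ m) w) (w i) := by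
        show B n x y m i - T (2 * 4 ^ m) w i = _
        unfold T
        rw [hw]
        ring
      rw [e]
      have h2 := abs_add_le (-y (n - m) i) (cl (tau (2 * 4 ^ m) w) (w i))
      rw [abs_neg] at h2
      have h3 := abs_cl_le' (tau_nonneg (2 * 4 ^ m) w) (w i)
      have h4 : |w i| ≤ |y (n - m) i| + |B n x y m i| := abs_add_le _ _
      push_cast
      nlinarith

lemma fwd {J : ℕ} (hJ : J ≤ n) {δ : ℝ} (hδ : 0 ≤ δ) {x : V n} {y : ℕ → V n}
    (hx : cnt δ x * 4 ^ J ≤ 4 ^ n) (hy : ∀ j ≤ J, ∀ i, |y j i| ≤ δ) :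
    ∀ j' ≤ J, ∀ i, |Phi n x y j' i| ≤ (4 + 2 * J) * δ := by
  intro j' hj' i
  cases j' with
  | zero =>
      have := fwd2 hJ hδ hx hy J i
      have e : n - J + 1 + J = n + 1 := by omega
      rw [e] at this
      show |B n x y (n + 1) i| ≤ _
      linarith
  | succ j =>
      have e : n - j = n - J + 1 + (J - 1 - j) := by omega
      have := fwd2 hJ hδ hx hy (J - 1 - j) i
      rw [← e] at this
      have h1 := hy j (by omega) i
      have h2 := abs_add_le (y j i) (B n x y (n - j) i)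
      show |y j i + B n x y (n - j) i| ≤ _
      have h3 : (((J - 1 - j : ℕ) : ℝ)) ≤ J := by
        have : J - 1 - j ≤ J := by omega
        exact_mod_cast this
      nlinarith

lemma Xs_bound {δ : ℝ} {w : ℕ → V n} : ∀ j : ℕ, (∀ j' ≤ j, ∀ i, |w j' i| ≤ δ) →
    ∀ i, |Xs n w j i| ≤ (j + 1) * δ
  | 0, h => fun i => by
      have := h 0 le_rfl i
      show |w 0 i| ≤ _
      simpa using this
  | j + 1, h => fun i => by
      have ih := Xs_bound j (fun j' hj' => h j' (by omega)) i
      have h1 := T_abs_le (2 * 4 ^ (n - j)) (w (j + 1)) i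
      have h2 := h (j + 1) le_rfl i
      have h3 := abs_add_le (Xs n w j i) (T (2 * 4 ^ (n - j)) (w (j + 1)) i)
      show |Xs n w j i + T (2 * 4 ^ (n - j)) (w (j + 1)) i| ≤ _
      push_cast
      linarith

lemma cnt_Xs {η : ℝ} {w : ℕ → V n} {J : ℕ} (hη : ∀ i, |Xs n w J i| ≤ η) :
    ∀ r : ℕ, J + r ≤ n + 1 →
      cnt η (Xs n w (J + r)) * 3 + 2 * 4 ^ (n + 1 - J - r) ≤ 2 * 4 ^ (n + 1 - J)
  | 0, _ => by
      have : cnt η (Xs n w (J + 0)) = 0 := by
        classical
        unfold cnt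
        rw [Finset.card_eq_zero, Finset.filter_eq_empty_iff]
        intro i _ h
        exact absurd h (not_lt.2 (hη i))
      rw [this]
      simp
  | r + 1, hr => by
      have ih := cnt_Xs hη r (by omega)
      have h := cnt_add_le (t := η) (k := 2 * 4 ^ (n - (J + r))) (x := Xs n w (J + r))
        (x' := Xs n w (J + (r + 1)))
        (z := T (2 * 4 ^ (n - (J + r))) (w (J + r + 1)))
        (fun i hi => by
          show |Xs n w (J + r) i + T (2 * 4 ^ (n - (J + r))) (w (J + r + 1)) i| ≤ _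
          rw [hi, add_zero])
        (card_T_ne _ _)
      have e1 : n + 1 - J - r = (n + 1 - J - (r + 1)) + 1 := by omega
      have e2 : n - (J + r) = n + 1 - J - (r + 1) := by omega
      rw [e1, pow_succ] at ih
      rw [e2] at h
      omega

lemma bwd1 {η : ℝ} {w : ℕ → V n} {J : ℕ} (hJ : J ≤ n) (hη : ∀ i, |Xs n w (J + 1) i| ≤ η) :
    cnt η (Psi1 n w) * 4 ^ J ≤ 4 ^ n := by
  have h := cnt_Xs hη (n - J) (by omega)
  have e1 : J + 1 + (n - J) = n + 1 := by omega
  have e2 : n + 1 - (J + 1) - (n - J) = 0 := by omega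
  have e3 : n + 1 - (J + 1) = n - J := by omega
  rw [e1, e2, e3] at h
  have h1 : cnt η (Psi1 n w) ≤ 4 ^ (n - J) := by
    unfold Psi1
    have : (0:ℕ) < 4 ^ (n - J) := by positivity
    omega
  calc cnt η (Psi1 n w) * 4 ^ J ≤ 4 ^ (n - J) * 4 ^ J := Nat.mul_le_mul_right _ h1
    _ = 4 ^ n := by rw [← pow_add]; congr 1; omega

lemma bwd2 {δ : ℝ} (hδ : 0 ≤ δ) {w : ℕ → V n} {j : ℕ} (hw : ∀ j' ≤ j + 1, ∀ i, |w j' i| ≤ δ) :
    ∀ i, |Psi2 n w j i| ≤ (j + 3) * δ := by
  intro i
  unfold Psi2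
  have h1 := hw (j + 1) le_rfl i
  have h2 := Xs_bound (n := n) (δ := δ) (w := w) (min (j + 1) (n + 1))
    (fun j' hj' => hw j' (by omega)) i
  have h3 := abs_sub (w (j + 1) i) (Xs n w (min (j + 1) (n + 1)) i)
  have h4 : ((min (j + 1) (n + 1) : ℕ) : ℝ) ≤ j + 1 := by
    have : min (j + 1) (n + 1) ≤ j + 1 := min_le_left _ _
    exact_mod_cast this
  nlinarith

/-! uniform continuity -/

lemma B_uc {α : Type*} [UniformSpace α] {x : α → V n} {y : α → ℕ → V n}
    (hx : UniformContinuous x) (hy : ∀ j, UniformContinuous (fun a => y a j)) :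
    ∀ m, UniformContinuous (fun a => B n (x a) (y a) m)
  | 0 => hx
  | m + 1 => by
      have ih := B_uc hx hy m
      have h1 : UniformContinuous (fun a => (fun i => y a (n - m) i + B n (x a) (y a) m i : V n)) := by
        rw [uniformContinuous_pi]
        intro i
        exact ((uniformContinuous_pi.1 (hy (n - m))) i).add ((uniformContinuous_pi.1 ih) i)
      have h2 := (T_uc (ι := Fin (4 ^ n)) (2 * 4 ^ m)).comp h1
      rw [uniformContinuous_pi]
      intro i
      exact ((uniformContinuous_pi.1 ih) i).sub ((uniformContinuous_pi.1 h2) i)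

lemma Phi_uc {α : Type*} [UniformSpace α] {x : α → V n} {y : α → ℕ → V n}
    (hx : UniformContinuous x) (hy : ∀ j, UniformContinuous (fun a => y a j)) (j : ℕ) :
    UniformContinuous (fun a => Phi n (x a) (y a) j) := by
  cases j with
  | zero => exact B_uc hx hy (n + 1)
  | succ j =>
      rw [uniformContinuous_pi]
      intro i
      exact ((uniformContinuous_pi.1 (hy j)) i).add
        ((uniformContinuous_pi.1 (B_uc hx hy (n - j))) i)

lemma Xs_uc {α : Type*} [UniformSpace α] {w : α → ℕ → V n}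
    (hw : ∀ j, UniformContinuous (fun a => w a j)) :
    ∀ j, UniformContinuous (fun a => Xs n (w a) j)
  | 0 => hw 0
  | j + 1 => by
      have ih := Xs_uc hw j
      have h2 := (T_uc (ι := Fin (4 ^ n)) (2 * 4 ^ (n - j))).comp (hw (j + 1))
      rw [uniformContinuous_pi]
      intro i
      exact ((uniformContinuous_pi.1 ih) i).add ((uniformContinuous_pi.1 h2) i)

lemma Psi2_uc {α : Type*} [UniformSpace α] {w : α → ℕ → V n}
    (hw : ∀ j, UniformContinuous (fun a => w a j)) (j : ℕ) :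
    UniformContinuous (fun a => Psi2 n (w a) j) := by
  rw [uniformContinuous_pi]
  intro i
  exact ((uniformContinuous_pi.1 (hw (j + 1))) i).sub
    ((uniformContinuous_pi.1 (Xs_uc hw (min (j + 1) (n + 1)))) i)

end Block

end Pool.Agent.H5.KOm
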