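import Pool.Agent.H5.KOmA
set_option autoImplicit false
open Filter Topology Set

namespace Pool.Agent.H5.KOm

abbrev D : Type := Σ n : ℕ, Fin (4 ^ n)

open Classical in
noncomputable def blk (A : Set D) (n : ℕ) : Finset (Fin (4 ^ n)) :=
  Finset.univ.filter (fun i : Fin (4 ^ n) => (⟨n, i⟩ : D) ∈ A)

lemma mem_blk {A : Set D} {n : ℕ} {i : Fin (4 ^ n)} : i ∈ blk A n ↔ (⟨n, i⟩ : D) ∈ A := by
  classical
  unfold blk
  rw [Finset.mem_filter]
  exact ⟨fun h => h.2, fun h => ⟨Finset.mem_univ _, h⟩⟩

noncomputable def cntS (A : Set D) (n : ℕ) : ℕ := (blk A n).card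

/-- density zero with respect to the blocks -/
def Small (A : Set D) : Prop := ∀ j : ℕ, ∀ᶠ n in atTop, cntS A n * 4 ^ j ≤ 4 ^ n

lemma cntS_mono {A A' : Set D} (h : A ⊆ A') (n : ℕ) : cntS A n ≤ cntS A' n := by
  unfold cntS
  apply Finset.card_le_card
  intro i hi
  exact mem_blk.2 (h (mem_blk.1 hi))

lemma Small.mono {A A' : Set D} (hA : Small A') (h : A ⊆ A') : Small A := fun j =>
  (hA j).mono (fun n hn => le_trans (Nat.mul_le_mul_right _ (cntS_mono h n)) hn)

lemma small_empty : Small (∅ : Set D) := fun j => by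
  refine Eventually.of_forall (fun n => ?_)
  have : cntS ∅ n = 0 := by
    unfold cntS
    rw [Finset.card_eq_zero, Finset.eq_empty_iff_forall_notMem]
    intro i hi
    exact mem_blk.1 hi
  rw [this]
  simp

lemma Small.union {A A' : Set D} (hA : Small A) (hA' : Small A') : Small (A ∪ A') := fun j => by
  classical
  filter_upwards [hA (j + 1), hA' (j + 1)] with n h1 h2
  have h3 : cntS (A ∪ A') n ≤ cntS A n + cntS A' n := by
    unfold cntS
    refine le_trans (Finset.card_le_card ?_) (Finset.card_union_le _ _)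
    intro i hi
    rw [Finset.mem_union, mem_blk, mem_blk]
    exact mem_blk.1 hi
  have h4 := Nat.mul_le_mul_right (4 ^ j) h3
  rw [pow_succ] at h1 h2
  have h5 : cntS A n * 4 ^ j * 4 ≤ 4 ^ n := by rw [mul_assoc]; exact h1
  have h6 : cntS A' n * 4 ^ j * 4 ≤ 4 ^ n := by rw [mul_assoc]; exact h2
  rw [add_mul] at h4
  omega

lemma small_of_sub_one {A : Set D} (h : ∀ n, cntS A n ≤ 1) : Small A := fun j => by
  filter_upwards [eventually_ge_atTop j] with n hn
  calc cntS A n * 4 ^ j ≤ 1 * 4 ^ j := Nat.mul_le_mul_right _ (h n)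
    _ = 4 ^ j := one_mul _
    _ ≤ 4 ^ n := Nat.pow_le_pow_right (by norm_num) hn

lemma not_small_univ : ¬ Small (Set.univ : Set D) := by
  intro h
  obtain ⟨n, hn⟩ := (h 1).exists
  have : cntS Set.univ n = 4 ^ n := by
    unfold cntS
    have : blk Set.univ n = Finset.univ := by
      rw [Finset.eq_univ_iff_forall]
      intro i
      exact mem_blk.2 (mem_univ _)
    rw [this, Finset.card_univ, Fintype.card_fin]
  rw [this] at hn
  have : 0 < 4 ^ n := by positivity
  omega

lemma fin_iff (A : Set D) : A.Finite ↔ ∀ᶠ n in atTop, ∀ i : Fin (4 ^ n), (⟨n, i⟩ : D) ∉ A := by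
  constructor
  · intro h
    obtain ⟨M, hM⟩ := (h.image Sigma.fst).bddAbove
    filter_upwards [eventually_gt_atTop M] with n hn i hi
    have : n ≤ M := hM ⟨⟨n, i⟩, hi, rfl⟩
    omega
  · intro h
    obtain ⟨N, hN⟩ := eventually_atTop.1 h
    refine Set.Finite.subset (s := ⋃ n ∈ Set.Iio N, Set.range (fun i : Fin (4 ^ n) => (⟨n, i⟩ : D)))
      ((Set.finite_Iio N).biUnion (fun n _ => Set.finite_range _)) ?_
    rintro ⟨n, i⟩ hni
    rw [mem_iUnion₂]
    refine ⟨n, ?_, i, rfl⟩
    by_contra hcon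
    exact hN n (not_lt.1 hcon) i hni

/-! ### the space -/

def XX : Type := ℝ ⊕ D

def inl (t : ℝ) : XX := Sum.inl t
def inr (d : D) : XX := Sum.inr d

instance : TopologicalSpace XX where
  IsOpen U := IsOpen {t : ℝ | inl t ∈ U} ∧ (inl 0 ∈ U → Small {d | inr d ∉ U})
  isOpen_univ := ⟨by simp, fun _ => by simpa using small_empty⟩
  isOpen_inter U V hU hV := by
    refine ⟨hU.1.inter hV.1, fun h => ((hU.2 h.1).union (hV.2 h.2)).mono ?_⟩
    intro d hd
    by_contra hcon
    rw [mem_union, not_or] at hcon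
    exact hd ⟨not_not.1 hcon.1, not_not.1 hcon.2⟩
  isOpen_sUnion S hS := by
    constructor
    · have : {t : ℝ | inl t ∈ ⋃₀ S} = ⋃ U ∈ S, {t : ℝ | inl t ∈ U} := by
        ext t; simp
      rw [this]
      exact isOpen_biUnion (fun U hU => (hS U hU).1)
    · rintro ⟨U, hU, h0⟩
      refine ((hS U hU).2 h0).mono ?_
      intro d hd hdU
      exact hd ⟨U, hU, hdU⟩

lemma isOpen_iff (U : Set XX) :
    IsOpen U ↔ IsOpen {t : ℝ | inl t ∈ U} ∧ (inl 0 ∈ U → Small {d | inr d ∉ U}) := Iff.rfl

lemma inr_ne_inl (d : D) (t : ℝ) : inr d ≠ inl t := by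
  intro h; cases h
lemma inl_inj {s t : ℝ} (h : inl s = inl t) : s = t := Sum.inl_injective h
lemma inr_inj {s t : D} (h : inr s = inr t) : s = t := Sum.inr_injective h

lemma XXcases (x : XX) : (∃ t, x = inl t) ∨ ∃ d, x = inr d := by
  rcases x with t | d
  · exact Or.inl ⟨t, rfl⟩
  · exact Or.inr ⟨d, rfl⟩

lemma small_singleton (d : D) : Small {d} := by
  apply small_of_sub_one
  intro n
  unfold cntS
  rw [Finset.card_le_one]
  intro i hi i' hi'
  have h1 := mem_blk.1 hi
  have h2 := mem_blk.1 hi'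
  rw [mem_singleton_iff] at h1 h2
  have h3 := h1.trans h2.symm
  simpa using h3

lemma inl_continuous : Continuous inl := continuous_def.2 (fun _ hU => hU.1)

lemma isOpen_inr (A : Set D) : IsOpen (inr '' A) := by
  rw [isOpen_iff]
  constructor
  · have : {t : ℝ | inl t ∈ inr '' A} = ∅ := by
      ext t
      simp only [mem_ofPred_eq, mem_image, mem_empty_iff_false, iff_false]
      rintro ⟨d, _, hd⟩
      exact inr_ne_inl d t hd
    rw [this]
    exact isOpen_empty
  · rintro ⟨d, _, hd⟩
    exact absurd hd (inr_ne_inl d 0)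

lemma isClosed_inr_of_small {A : Set D} (hA : Small A) : IsClosed (inr '' A) := by
  rw [← isOpen_compl_iff, isOpen_iff]
  constructor
  · have : {t : ℝ | inl t ∈ (inr '' A)ᶜ} = univ := by
      ext t
      simp only [mem_ofPred_eq, mem_compl_iff, mem_image, mem_univ, iff_true]
      rintro ⟨d, _, hd⟩
      exact inr_ne_inl d t hd
    rw [this]
    exact isOpen_univ
  · intro _
    refine hA.mono ?_
    intro d hd
    rw [mem_ofPred_eq, mem_compl_iff, not_not] at hd
    obtain ⟨d', hd', he⟩ := hd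
    rwa [← inr_inj he]

lemma cont_iff (g : XX → ℝ) : Continuous g ↔ Continuous (fun t => g (inl t)) ∧
    ∀ ε > 0, Small {d | ε < |g (inr d) - g (inl 0)|} := by
  constructor
  · intro h
    refine ⟨h.comp inl_continuous, fun ε hε => ?_⟩
    have hU : IsOpen (g ⁻¹' Metric.ball (g (inl 0)) ε) := Metric.isOpen_ball.preimage h
    refine (hU.2 (by simp [hε])).mono ?_
    intro d hd hd2
    rw [mem_preimage, Metric.mem_ball, Real.dist_eq] at hd2
    exact absurd hd (not_lt.2 hd2.le)
  · rintro ⟨h1, h2⟩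
    rw [continuous_def]
    intro U hU
    refine ⟨hU.preimage h1, fun h0 => ?_⟩
    obtain ⟨ε, hε, hb⟩ := Metric.isOpen_iff.1 hU _ h0
    refine (h2 (ε / 2) (by positivity)).mono ?_
    intro d hd
    rw [mem_ofPred_eq]
    by_contra hcon
    push Not at hcon
    apply hd
    apply hb
    rw [Metric.mem_ball, Real.dist_eq]
    linarith

instance : T1Space XX where
  t1 := by
    intro x
    rcases XXcases x with ⟨t, rfl⟩ | ⟨d, rfl⟩
    · rw [← isOpen_compl_iff, isOpen_iff]
      constructor
      · have : {s : ℝ | inl s ∈ ({inl t}ᶜ : Set XX)} = {t}ᶜ := by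
          ext s
          simp only [mem_ofPred_eq, mem_compl_iff, mem_singleton_iff]
          constructor
          · intro h h2; exact h (by rw [h2])
          · intro h h2; exact h (inl_inj h2)
        rw [this]
        exact isOpen_compl_singleton
      · intro _
        refine small_empty.mono ?_
        intro d hd
        exact hd (inr_ne_inl d t)
    · have : ({inr d} : Set XX) = inr '' {d} := by
        rw [image_singleton]
      rw [this]
      exact isClosed_inr_of_small (small_singleton d)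

open Classical in
/-- piecewise function -/
noncomputable def pw (f : ℝ → ℝ) (g : D → ℝ) : XX → ℝ := Sum.elim f g

lemma pw_inl (f : ℝ → ℝ) (g : D → ℝ) (t : ℝ) : pw f g (inl t) = f t := rfl
lemma pw_inr (f : ℝ → ℝ) (g : D → ℝ) (d : D) : pw f g (inr d) = g d := rfl

lemma pw_cont {f : ℝ → ℝ} {g : D → ℝ} (hf : Continuous f)
    (hg : ∀ ε > 0, Small {d | ε < |g d - f 0|}) : Continuous (pw f g) :=
  (cont_iff _).2 ⟨hf, hg⟩

/-- separation by real valued functions with values in `[0,1]` -/
lemma sep (x : XX) (K : Set XX) (hK : IsClosed K) (hx : x ∉ K) :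
    ∃ f : XX → ℝ, Continuous f ∧ (∀ y, f y ∈ Set.Icc (0:ℝ) 1) ∧ f x = 0 ∧ ∀ y ∈ K, f y = 1 := by
  classical
  have hKc : IsClosed {t : ℝ | inl t ∈ K} := hK.preimage inl_continuous
  rcases XXcases x with ⟨t, rfl⟩ | ⟨d, rfl⟩
  · by_cases ht : t = 0
    · subst ht
      obtain ⟨g, hg0, hg1, hg⟩ := exists_continuous_zero_one_of_isClosed
        (isClosed_singleton (x := (0:ℝ))) hKc (by
          rw [Set.disjoint_singleton_left]; exact hx)
      refine ⟨pw g (fun d => if inr d ∈ K then 1 else 0), ?_, ?_, hg0 rfl, ?_⟩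
      · refine pw_cont g.continuous (fun ε hε => ?_)
        have hop := (hK.isOpen_compl).2 hx
        refine hop.mono ?_
        intro d hd
        have hd' : ε < |(if inr d ∈ K then (1:ℝ) else 0) - g 0| := hd
        rw [show g 0 = 0 from hg0 rfl, sub_zero] at hd'
        intro hcon
        rw [if_neg hcon, abs_zero] at hd'
        linarith
      · intro y
        rcases XXcases y with ⟨s, rfl⟩ | ⟨d, rfl⟩
        · exact hg s
        · rw [pw_inr]
          split_ifs <;> simp
      · intro y hy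
        rcases XXcases y with ⟨s, rfl⟩ | ⟨d, rfl⟩
        · exact hg1 hy
        · rw [pw_inr, if_pos hy]
    · obtain ⟨g, hg0, hg1, hg⟩ := exists_continuous_zero_one_of_isClosed
        (isClosed_singleton (x := t)) (hKc.union (isClosed_singleton (x := (0:ℝ)))) (by
          rw [Set.disjoint_singleton_left, mem_union, not_or]
          exact ⟨hx, ht⟩)
      refine ⟨pw g (fun d => 1), ?_, ?_, hg0 rfl, ?_⟩
      · refine pw_cont g.continuous (fun ε hε => ?_)
        refine small_empty.mono ?_
        intro d hd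
        have hd' : ε < |(1:ℝ) - g 0| := hd
        rw [show g 0 = 1 from hg1 (Or.inr rfl), sub_self, abs_zero] at hd'
        exact absurd hd' (not_lt.2 hε.le)
      · intro y
        rcases XXcases y with ⟨s, rfl⟩ | ⟨d, rfl⟩
        · exact hg s
        · rw [pw_inr]; simp
      · intro y hy
        rcases XXcases y with ⟨s, rfl⟩ | ⟨d, rfl⟩
        · exact hg1 (Or.inl hy)
        · rfl
  · refine ⟨pw (fun _ => 1) (fun d' => if d' = d then 0 else 1), ?_, ?_, ?_, ?_⟩
    · refine pw_cont continuous_const (fun ε hε => ?_)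
      refine (small_singleton d).mono ?_
      intro d' hd'
      have hd2 : ε < |(if d' = d then (0:ℝ) else 1) - 1| := hd'
      rw [mem_singleton_iff]
      by_contra hcon
      rw [if_neg hcon, sub_self, abs_zero] at hd2
      linarith
    · intro y
      rcases XXcases y with ⟨s, rfl⟩ | ⟨d', rfl⟩
      · rw [pw_inl]; simp
      · rw [pw_inr]
        split_ifs <;> simp
    · rw [pw_inr]; simp
    · intro y hy
      rcases XXcases y with ⟨s, rfl⟩ | ⟨d', rfl⟩
      · rfl
      · rw [pw_inr, if_neg]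
        rintro rfl
        exact hx hy

instance : CompletelyRegularSpace XX where
  completely_regular := by
    intro x K hK hx
    obtain ⟨f, hf, h01, hfx, hfK⟩ := sep x K hK hx
    refine ⟨fun y => ⟨f y, h01 y⟩, Continuous.subtype_mk hf _, ?_, ?_⟩
    · exact Subtype.ext hfx
    · intro y hy
      exact Subtype.ext (hfK y hy)

instance : T35Space XX := {}

/-! ### `XX` is not a `k_ω`-space -/

lemma compact_fin {K : Set XX} (hK : IsCompact K) : {d | inr d ∈ K}.Finite := by
  classical
  by_contra hinf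
  have hb : ¬ ∀ᶠ n in atTop, ∀ i : Fin (4 ^ n), (⟨n, i⟩ : D) ∉ {d | inr d ∈ K} :=
    fun h => hinf ((fin_iff _).2 h)
  have hne : ∀ n : ℕ, ∃ d : D, n ≤ d.1 ∧ inr d ∈ K := by
    intro n
    by_contra hcon
    push Not at hcon
    apply hb
    filter_upwards [eventually_ge_atTop n] with m hm i hi
    exact hcon ⟨m, i⟩ hm hi
  -- one point in each nonempty block
  let A : Set D := {d | inr d ∈ K ∧ ∀ i : Fin (4 ^ d.1), inr ⟨d.1, i⟩ ∈ K → d.2 ≤ i}
  have hA1 : Small A := by
    apply small_of_sub_one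
    intro n
    unfold cntS
    rw [Finset.card_le_one]
    intro i hi i' hi'
    have h1 : (⟨n, i⟩ : D) ∈ A := mem_blk.1 hi
    have h2 : (⟨n, i'⟩ : D) ∈ A := mem_blk.1 hi'
    exact le_antisymm (h1.2 i' h2.1) (h2.2 i h1.1)
  have hA2 : ¬ A.Finite := by
    intro hf
    obtain ⟨N, hN⟩ := eventually_atTop.1 ((fin_iff _).1 hf)
    obtain ⟨⟨m, i⟩, hm, hi⟩ := hne N
    have hS : (Finset.univ.filter (fun i : Fin (4 ^ m) => inr ⟨m, i⟩ ∈ K)).Nonempty :=
      ⟨i, Finset.mem_filter.2 ⟨Finset.mem_univ _, hi⟩⟩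
    obtain ⟨i0, hi0, hmin⟩ := Finset.exists_min_image _ (fun i => i) hS
    refine hN m hm i0 ⟨(Finset.mem_filter.1 hi0).2, fun i' hi' => ?_⟩
    exact hmin i' (Finset.mem_filter.2 ⟨Finset.mem_univ _, hi'⟩)
  have hAK : inr '' A ⊆ K := by
    rintro _ ⟨d, hd, rfl⟩
    exact hd.1
  have hc : IsCompact (inr '' A) := hK.of_isClosed_subset (isClosed_inr_of_small hA1) hAK
  have hfin : (inr '' A).Finite := by
    have hcs := isCompact_iff_compactSpace.1 hc
    have hd : DiscreteTopology (inr '' A) := by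
      rw [discreteTopology_iff_forall_isOpen]
      intro s
      refine ⟨inr '' {d | ∃ h : d ∈ A, (⟨inr d, ⟨d, h, rfl⟩⟩ : (inr '' A : Set XX)) ∈ s},
        isOpen_inr _, ?_⟩
      ext ⟨y, d, hd, hy⟩
      subst hy
      constructor
      · rintro ⟨d', ⟨h', hs'⟩, he⟩
        have := inr_inj he
        subst this
        exact hs'
      · intro h
        exact ⟨d, ⟨hd, h⟩, rfl⟩
    have : Finite (inr '' A) := finite_of_compact_of_discrete
    exact Set.toFinite _
  exact hA2 (hfin.of_finite_image (fun a _ b _ h => inr_inj h))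

end Pool.Agent.H5.KOm
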