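import Pool.Agent.H5.KOmB
set_option autoImplicit false
open Filter Topology Set

namespace Pool.Agent.H5.KOm

/-! ### points and bumps on the line -/

noncomputable def hf (d : D) : ℝ := (1 / 2) ^ (Encodable.encode d + 1)

noncomputable def pa (j : ℕ) (d : D) : ℝ := j + hf d

noncomputable def bp (p : ℕ × D) (t : ℝ) : ℝ := max 0 (1 - |t - pa p.1 p.2| / (hf p.2 / 4))

lemma hf_pos (d : D) : 0 < hf d := by unfold hf; positivity

lemma hf_le (d : D) : hf d ≤ 1 / 2 := by
  unfold hf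
  rw [pow_succ]
  have : ((1:ℝ) / 2) ^ (Encodable.encode d) ≤ 1 := pow_le_one₀ (by norm_num) (by norm_num)
  linarith

lemma bp_cont (p : ℕ × D) : Continuous (bp p) := by
  unfold bp
  fun_prop

lemma bp_nonneg (p : ℕ × D) (t : ℝ) : 0 ≤ bp p t := le_max_left _ _

lemma bp_le_one (p : ℕ × D) (t : ℝ) : bp p t ≤ 1 := by
  unfold bp
  refine max_le zero_le_one ?_
  have := hf_pos p.2
  have : 0 ≤ |t - pa p.1 p.2| / (hf p.2 / 4) := by positivity
  linarith

lemma bp_ne {p : ℕ × D} {t : ℝ} (h : bp p t ≠ 0) : |t - pa p.1 p.2| < hf p.2 / 4 := by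
  have h0 := hf_pos p.2
  by_contra hcon
  push Not at hcon
  apply h
  unfold bp
  apply max_eq_left
  have : 1 ≤ |t - pa p.1 p.2| / (hf p.2 / 4) := by
    rw [le_div_iff₀ (by positivity)]
    linarith
  linarith

lemma bp_ne' {p : ℕ × D} {t : ℝ} (h : bp p t ≠ 0) : (p.1 : ℝ) < t ∧ t < p.1 + 1 := by
  have h1 := bp_ne h
  have h0 := hf_pos p.2
  have h2 := hf_le p.2
  rw [abs_lt] at h1
  unfold pa at h1
  constructor <;> linarith [h1.1, h1.2]

lemma bp_unique {p q : ℕ × D} {t : ℝ} (hp : bp p t ≠ 0) (hq : bp q t ≠ 0) : p = q := by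
  have e1 : p.1 = q.1 := by
    have a := bp_ne' hp
    have b := bp_ne' hq
    have h1 : (p.1 : ℝ) < q.1 + 1 := by linarith
    have h2 : (q.1 : ℝ) < p.1 + 1 := by linarith
    have h1' : p.1 < q.1 + 1 := by exact_mod_cast h1
    have h2' : q.1 < p.1 + 1 := by exact_mod_cast h2
    omega
  have a := bp_ne hp
  have b := bp_ne hq
  unfold pa at a b
  rw [abs_lt] at a b
  rw [e1] at a
  have key : ∀ u v : D, Encodable.encode u < Encodable.encode v → hf v ≤ hf u / 2 := by
    intro u v huv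
    unfold hf
    have : ((1:ℝ) / 2) ^ (Encodable.encode v + 1) ≤ (1 / 2) ^ (Encodable.encode u + 1 + 1) :=
      pow_le_pow_of_le_one (by norm_num) (by norm_num) (by omega)
    rw [pow_succ _ (Encodable.encode u + 1)] at this
    linarith
  have e2 : Encodable.encode p.2 = Encodable.encode q.2 := by
    rcases lt_trichotomy (Encodable.encode p.2) (Encodable.encode q.2) with h | h | h
    · have := key _ _ h
      have := hf_pos p.2
      have := hf_pos q.2
      exfalso
      linarith [a.1, a.2, b.1, b.2]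
    · exact h
    · have := key _ _ h
      have := hf_pos p.2
      have := hf_pos q.2
      exfalso
      linarith [a.1, a.2, b.1, b.2]
  exact Prod.ext e1 (Encodable.encode_injective e2)

lemma bp_self (j : ℕ) (d : D) : bp (j, d) (pa j d) = 1 := by
  unfold bp
  simp

lemma bp_nat (p : ℕ × D) (j : ℕ) : bp p (j : ℝ) = 0 := by
  by_contra h
  have := bp_ne' h
  have h1 : p.1 < j := by exact_mod_cast this.1
  have h2 : j < p.1 + 1 := by exact_mod_cast this.2
  omega

instance : Nonempty D := ⟨⟨0, ⟨0, by norm_num⟩⟩⟩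

open Classical in
noncomputable def pt (t : ℝ) : ℕ × D :=
  if h : ∃ p, bp p t ≠ 0 then h.choose else (0, Classical.arbitrary D)

lemma pt_eq {p : ℕ × D} {t : ℝ} (h : bp p t ≠ 0) : pt t = p := by
  have hex : ∃ p, bp p t ≠ 0 := ⟨p, h⟩
  unfold pt
  rw [dif_pos hex]
  exact bp_unique hex.choose_spec h

noncomputable def sec (z : ℕ → D → ℝ) (t : ℝ) : ℝ := z (pt t).1 (pt t).2 * bp (pt t) t

noncomputable def ext (f : ℝ → ℝ) (j : ℕ) (d : D) : ℝ := f (pa j d) - f j

lemma sec_pa (z : ℕ → D → ℝ) (j : ℕ) (d : D) : sec z (pa j d) = z j d := by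
  unfold sec
  have h : pt (pa j d) = (j, d) := pt_eq (by rw [bp_self]; norm_num)
  rw [h, bp_self, mul_one]

lemma sec_nat (z : ℕ → D → ℝ) (j : ℕ) : sec z (j : ℝ) = 0 := by
  unfold sec
  rw [bp_nat, mul_zero]

/-- the class `F` -/
def InF (z : ℕ → D → ℝ) : Prop := ∀ j, ∀ ε > 0, ∀ᶠ n in atTop, ∀ i : Fin (4 ^ n), |z j ⟨n, i⟩| ≤ ε

lemma InF.fin {z : ℕ → D → ℝ} (hz : InF z) (j : ℕ) {ε : ℝ} (hε : 0 < ε) :
    {d : D | ε < |z j d|}.Finite := by
  rw [fin_iff]
  exact (hz j ε hε).mono (fun n hn i hi => absurd (hn i) (not_le.2 hi))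

lemma sec_cont {z : ℕ → D → ℝ} (hz : InF z) : Continuous (sec z) := by
  classical
  rw [continuous_iff_continuousAt]
  intro t
  apply continuousAt_of_locally_uniform_approx_of_continuousAt
  intro u hu
  obtain ⟨ε, hε, hεu⟩ := Metric.mem_uniformity_dist.1 hu
  obtain ⟨M, hM⟩ := exists_nat_gt (t + 1)
  have hfin : {p : ℕ × D | p.1 < M ∧ ε / 2 < |z p.1 p.2|}.Finite := by
    have : {p : ℕ × D | p.1 < M ∧ ε / 2 < |z p.1 p.2|} ⊆
        ⋃ j ∈ Set.Iio M, (fun d => (j, d)) '' {d : D | ε / 2 < |z j d|} := by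
      rintro ⟨j, d⟩ ⟨hj, hd⟩
      rw [mem_iUnion₂]
      exact ⟨j, hj, d, hd, rfl⟩
    exact ((Set.finite_Iio M).biUnion (fun j _ => (hz.fin j (by positivity)).image _)).subset this
  refine ⟨Set.Ioo (t - 1) (t + 1), Ioo_mem_nhds (by linarith) (by linarith),
    fun s => ∑ p ∈ hfin.toFinset, z p.1 p.2 * bp p s, ?_, ?_⟩
  · exact (continuous_finsetSum _ (fun p _ => continuous_const.mul (bp_cont p))).continuousAt
  · intro s hs
    apply hεu
    show dist (sec z s) (∑ p ∈ hfin.toFinset, z p.1 p.2 * bp p s) < ε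
    by_cases hb : bp (pt s) s = 0
    · have h0 : ∀ p, bp p s = 0 := by
        intro p
        by_contra hp
        rw [pt_eq hp] at hb
        exact hp hb
      have h1 : ∑ p ∈ hfin.toFinset, z p.1 p.2 * bp p s = 0 :=
        Finset.sum_eq_zero (fun p _ => by rw [h0 p, mul_zero])
      rw [h1]
      unfold sec
      rw [hb, mul_zero, dist_self]
      exact hε
    · have hother : ∀ p, p ≠ pt s → bp p s = 0 := by
        intro p hp
        by_contra h
        exact hp (pt_eq h).symm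
      by_cases hmem : pt s ∈ hfin.toFinset
      · have h1 : ∑ p ∈ hfin.toFinset, z p.1 p.2 * bp p s
            = z (pt s).1 (pt s).2 * bp (pt s) s :=
          Finset.sum_eq_single_of_mem _ hmem (fun p _ hp => by rw [hother p hp, mul_zero])
        rw [h1]
        unfold sec
        rw [dist_self]
        exact hε
      · have h1 : ∑ p ∈ hfin.toFinset, z p.1 p.2 * bp p s = 0 :=
          Finset.sum_eq_zero (fun p hp => by
            rw [hother p (fun h => hmem (h ▸ hp)), mul_zero])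
        rw [h1, Real.dist_eq, sub_zero]
        unfold sec
        rw [Set.Finite.mem_toFinset] at hmem
        have hlt : (pt s).1 < M := by
          have h2 := (bp_ne' hb).1
          have : ((pt s).1 : ℝ) < M := by linarith [hs.2]
          exact_mod_cast this
        have h3 : |z (pt s).1 (pt s).2| ≤ ε / 2 := by
          by_contra hcon
          push Not at hcon
          exact hmem ⟨hlt, hcon⟩
        rw [abs_mul, abs_of_nonneg (bp_nonneg _ _)]
        have h4 := bp_le_one (pt s) s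
        have h5 := bp_nonneg (pt s) s
        have h6 := abs_nonneg (z (pt s).1 (pt s).2)
        nlinarith

lemma ext_inF {f : ℝ → ℝ} (hf' : Continuous f) : InF (ext f) := by
  intro j ε hε
  obtain ⟨δ, hδ, hδf⟩ := Metric.continuous_iff.1 hf' (j : ℝ) ε hε
  have h1 : Tendsto (fun d : D => hf d) cofinite (𝓝 0) := by
    have h2 : Tendsto (fun m : ℕ => ((1:ℝ) / 2) ^ (m + 1)) atTop (𝓝 0) :=
      (tendsto_pow_atTop_nhds_zero_of_lt_one (by norm_num) (by norm_num)).comp
        (tendsto_add_atTop_nat 1)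
    have h3 : Tendsto (fun d : D => Encodable.encode d) cofinite atTop := by
      rw [← Nat.cofinite_eq_atTop]
      exact Encodable.encode_injective.tendsto_cofinite
    exact h2.comp h3
  have h2 : ∀ᶠ d in cofinite, hf d < δ := h1.eventually (gt_mem_nhds hδ)
  have h3 := (fin_iff _).1 (Filter.eventually_cofinite.1 h2)
  filter_upwards [h3] with n hn i
  have h4 : hf ⟨n, i⟩ < δ := by
    by_contra hcon
    exact hn i hcon
  have h5 := hδf (pa j ⟨n, i⟩) (by
    unfold pa
    rw [Real.dist_eq, add_sub_cancel_left, abs_of_pos (hf_pos _)]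
    exact h4)
  rw [Real.dist_eq] at h5
  exact h5.le

/-! ### the global shears -/

def InE (x : D → ℝ) : Prop := ∀ ε > 0, Small {d | ε < |x d|}

noncomputable def Theta (x : D → ℝ) (y : ℕ → D → ℝ) (j : ℕ) (d : D) : ℝ :=
  Phi d.1 (fun i => x ⟨d.1, i⟩) (fun j i => y j ⟨d.1, i⟩) j d.2

noncomputable def PsiA (w : ℕ → D → ℝ) (d : D) : ℝ := Psi1 d.1 (fun j i => w j ⟨d.1, i⟩) d.2

noncomputable def PsiB (w : ℕ → D → ℝ) (j : ℕ) (d : D) : ℝ :=
  Psi2 d.1 (fun j i => w j ⟨d.1, i⟩) j d.2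

lemma PsiA_Theta (x : D → ℝ) (y : ℕ → D → ℝ) : PsiA (Theta x y) = x := by
  funext ⟨n, i⟩
  exact congrFun (Psi1_Phi (fun i => x ⟨n, i⟩) (fun j i => y j ⟨n, i⟩)) i

lemma PsiB_Theta (x : D → ℝ) (y : ℕ → D → ℝ) : PsiB (Theta x y) = y := by
  funext j ⟨n, i⟩
  exact congrFun (congrFun (Psi2_Phi (fun i => x ⟨n, i⟩) (fun j i => y j ⟨n, i⟩)) j) i

lemma Theta_Psi (w : ℕ → D → ℝ) : Theta (PsiA w) (PsiB w) = w := by
  funext j ⟨n, i⟩
  exact congrFun (congrFun (Phi_Psi (fun j i => w j ⟨n, i⟩)) j) i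

lemma cnt_eq (t : ℝ) (x : D → ℝ) (n : ℕ) :
    cnt t (fun i => x ⟨n, i⟩) = cntS {d | t < |x d|} n := by
  unfold cnt cntS
  congr 1

lemma Theta_inF {x : D → ℝ} {y : ℕ → D → ℝ} (hx : InE x) (hy : InF y) : InF (Theta x y) := by
  intro J ε hε
  set δ : ℝ := ε / (4 + 2 * J) with hδ
  have hδ0 : 0 < δ := by positivity
  have h1 := hx δ hδ0 J
  have h2 : ∀ᶠ n in atTop, ∀ j ≤ J, ∀ i : Fin (4 ^ n), |y j ⟨n, i⟩| ≤ δ :=
    (Set.finite_Iic J).eventually_all.2 (fun j _ => hy j δ hδ0)
  filter_upwards [h1, h2, eventually_ge_atTop J] with n hn1 hn2 hn3 i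
  have := fwd hn3 hδ0.le (x := fun i => x ⟨n, i⟩) (y := fun j i => y j ⟨n, i⟩)
    (by rw [cnt_eq]; exact hn1) (fun j hj i => hn2 j hj i) J le_rfl i
  refine le_trans this (le_of_eq ?_)
  rw [hδ]
  field_simp

lemma PsiA_inE {w : ℕ → D → ℝ} (hw : InF w) : InE (PsiA w) := by
  intro ε hε J
  set δ : ℝ := ε / (J + 2) with hδ
  have hδ0 : 0 < δ := by positivity
  have h2 : ∀ᶠ n in atTop, ∀ j ≤ J + 1, ∀ i : Fin (4 ^ n), |w j ⟨n, i⟩| ≤ δ :=
    (Set.finite_Iic (J + 1)).eventually_all.2 (fun j _ => hw j δ hδ0)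
  filter_upwards [h2, eventually_ge_atTop J] with n hn2 hn3
  have h3 := Xs_bound (n := n) (δ := δ) (w := fun j i => w j ⟨n, i⟩) (J + 1) (fun j hj i => hn2 j hj i)
  have h4 := bwd1 (n := n) (η := ε) (w := fun j i => w j ⟨n, i⟩) hn3 (fun i => by
    refine le_trans (h3 i) (le_of_eq ?_)
    rw [hδ]
    push_cast
    field_simp
    ring)
  have h5 := cnt_eq ε (PsiA w) n
  rw [← h5]
  exact h4

lemma PsiB_inF {w : ℕ → D → ℝ} (hw : InF w) : InF (PsiB w) := by
  intro j ε hε
  set δ : ℝ := ε / (j + 3) with hδ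
  have hδ0 : 0 < δ := by positivity
  have h2 : ∀ᶠ n in atTop, ∀ j' ≤ j + 1, ∀ i : Fin (4 ^ n), |w j' ⟨n, i⟩| ≤ δ :=
    (Set.finite_Iic (j + 1)).eventually_all.2 (fun j _ => hw j δ hδ0)
  filter_upwards [h2] with n hn2 i
  have := bwd2 (n := n) hδ0.le (w := fun j i => w j ⟨n, i⟩) (j := j) (fun j hj i => hn2 j hj i) i
  refine le_trans this (le_of_eq ?_)
  rw [hδ]
  field_simp

/-! ### the homeomorphism -/

noncomputable def toR (g : XX → ℝ) : ℝ → ℝ := fun t =>
  g (inl t) - sec (ext (fun t => g (inl t))) t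
    + sec (Theta (fun d => g (inr d) - g (inl 0)) (ext (fun t => g (inl t)))) t

noncomputable def lpart (f : ℝ → ℝ) : ℝ → ℝ := fun t => f t - sec (ext f) t + sec (PsiB (ext f)) t

noncomputable def toX (f : ℝ → ℝ) : XX → ℝ :=
  pw (lpart f) (fun d => PsiA (ext f) d + lpart f 0)

lemma ext_mod (f : ℝ → ℝ) (z : ℕ → D → ℝ) : ext (fun t => f t - sec (ext f) t + sec z t) = z := by
  funext j d
  unfold ext
  simp only [sec_pa, sec_nat]
  ring

lemma sec_zero (z : ℕ → D → ℝ) : sec z 0 = 0 := by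
  have := sec_nat z 0
  simpa using this

lemma lpart_toR (g : XX → ℝ) : lpart (toR g) = fun t => g (inl t) := by
  have h : ext (toR g) = Theta (fun d => g (inr d) - g (inl 0)) (ext (fun t => g (inl t))) :=
    ext_mod _ _
  funext t
  unfold lpart
  rw [h, PsiB_Theta]
  unfold toR
  ring

lemma toX_toR (g : XX → ℝ) : toX (toR g) = g := by
  have h : ext (toR g) = Theta (fun d => g (inr d) - g (inl 0)) (ext (fun t => g (inl t))) :=
    ext_mod _ _
  funext x
  rcases XXcases x with ⟨t, rfl⟩ | ⟨d, rfl⟩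
  · unfold toX
    rw [pw_inl, lpart_toR]
  · unfold toX
    rw [pw_inr, lpart_toR, h, PsiA_Theta]
    ring

lemma toR_toX (f : ℝ → ℝ) : toR (toX f) = f := by
  have h1 : (fun t => toX f (inl t)) = lpart f := rfl
  have h2 : (fun d => toX f (inr d) - toX f (inl 0)) = PsiA (ext f) := by
    funext d
    show PsiA (ext f) d + lpart f 0 - lpart f 0 = _
    ring
  have h3 : ext (lpart f) = PsiB (ext f) := ext_mod _ _
  funext t
  unfold toR
  rw [h1, h2, h3, Theta_Psi]
  show lpart f t - sec (PsiB (ext f)) t + sec (ext f) t = f t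
  unfold lpart
  ring

lemma toR_cont {g : XX → ℝ} (hg : Continuous g) : Continuous (toR g) := by
  obtain ⟨h1, h2⟩ := (cont_iff g).1 hg
  have h3 := ext_inF h1
  exact (h1.sub (sec_cont h3)).add (sec_cont (Theta_inF (fun ε hε => h2 ε hε) h3))

lemma toX_cont {f : ℝ → ℝ} (hf' : Continuous f) : Continuous (toX f) := by
  have h3 := ext_inF hf'
  have h4 : Continuous (lpart f) := (hf'.sub (sec_cont h3)).add (sec_cont (PsiB_inF h3))
  refine pw_cont h4 (fun ε hε => ?_)
  refine (PsiA_inE h3 ε hε).mono ?_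
  intro d hd
  have : ε < |PsiA (ext f) d + lpart f 0 - lpart f 0| := hd
  rw [add_sub_cancel_right] at this
  exact this

/-! uniform continuity -/

lemma sec_uc {α : Type*} [UniformSpace α] {z : α → ℕ → D → ℝ}
    (hz : ∀ j d, UniformContinuous (fun a => z a j d)) (t : ℝ) :
    UniformContinuous (fun a => sec (z a) t) := by
  unfold sec
  have h := hz (pt t).1 (pt t).2
  have : UniformContinuous (fun r : ℝ => r * bp (pt t) t) :=
    (LipschitzWith.of_dist_le_mul (K := ⟨|bp (pt t) t|, abs_nonneg _⟩) (fun x y => by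
      rw [Real.dist_eq, Real.dist_eq, ← sub_mul, abs_mul, mul_comm]
      rfl)).uniformContinuous
  exact this.comp h

lemma ext_uc {α : Type*} [UniformSpace α] {f : α → ℝ → ℝ}
    (hf' : ∀ t, UniformContinuous (fun a => f a t)) (j : ℕ) (d : D) :
    UniformContinuous (fun a => ext (f a) j d) := (hf' _).sub (hf' _)

lemma Theta_uc {α : Type*} [UniformSpace α] {x : α → D → ℝ} {y : α → ℕ → D → ℝ}
    (hx : ∀ d, UniformContinuous (fun a => x a d))
    (hy : ∀ j d, UniformContinuous (fun a => y a j d)) (j : ℕ) (d : D) :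
    UniformContinuous (fun a => Theta (x a) (y a) j d) := by
  have h := Phi_uc (n := d.1) (x := fun a => (fun i => x a ⟨d.1, i⟩))
    (y := fun a => (fun j i => y a j ⟨d.1, i⟩))
    (uniformContinuous_pi.2 (fun i => hx _)) (fun j => uniformContinuous_pi.2 (fun i => hy j _)) j
  exact (uniformContinuous_pi.1 h) d.2

lemma PsiA_uc {α : Type*} [UniformSpace α] {w : α → ℕ → D → ℝ}
    (hw : ∀ j d, UniformContinuous (fun a => w a j d)) (d : D) :
    UniformContinuous (fun a => PsiA (w a) d) := by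
  have h := Xs_uc (n := d.1) (w := fun a => (fun j i => w a j ⟨d.1, i⟩))
    (fun j => uniformContinuous_pi.2 (fun i => hw j _)) (d.1 + 1)
  exact (uniformContinuous_pi.1 h) d.2

lemma PsiB_uc {α : Type*} [UniformSpace α] {w : α → ℕ → D → ℝ}
    (hw : ∀ j d, UniformContinuous (fun a => w a j d)) (j : ℕ) (d : D) :
    UniformContinuous (fun a => PsiB (w a) j d) := by
  have h := Psi2_uc (n := d.1) (w := fun a => (fun j i => w a j ⟨d.1, i⟩))
    (fun j => uniformContinuous_pi.2 (fun i => hw j _)) j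
  exact (uniformContinuous_pi.1 h) d.2

lemma toR_uc {α : Type*} [UniformSpace α] {g : α → XX → ℝ}
    (hg : ∀ x, UniformContinuous (fun a => g a x)) (t : ℝ) :
    UniformContinuous (fun a => toR (g a) t) := by
  have h1 : ∀ j d, UniformContinuous (fun a => ext (fun t => g a (inl t)) j d) :=
    ext_uc (fun t => hg _)
  exact ((hg _).sub (sec_uc h1 t)).add
    (sec_uc (Theta_uc (fun d => (hg _).sub (hg _)) h1) t)

lemma lpart_uc {α : Type*} [UniformSpace α] {f : α → ℝ → ℝ}
    (hf' : ∀ t, UniformContinuous (fun a => f a t)) (t : ℝ) :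
    UniformContinuous (fun a => lpart (f a) t) := by
  have h1 : ∀ j d, UniformContinuous (fun a => ext (f a) j d) := ext_uc hf'
  exact ((hf' t).sub (sec_uc h1 t)).add (sec_uc (PsiB_uc h1) t)

lemma toX_uc {α : Type*} [UniformSpace α] {f : α → ℝ → ℝ}
    (hf' : ∀ t, UniformContinuous (fun a => f a t)) (x : XX) :
    UniformContinuous (fun a => toX (f a) x) := by
  have h1 : ∀ j d, UniformContinuous (fun a => ext (f a) j d) := ext_uc hf'
  rcases XXcases x with ⟨t, rfl⟩ | ⟨d, rfl⟩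
  · exact lpart_uc hf' t
  · exact (PsiA_uc h1 d).add (lpart_uc hf' 0)

noncomputable def ue : UniformEquiv {g : XX → ℝ // Continuous g} {g : ℝ → ℝ // Continuous g} where
  toFun g := ⟨toR g.1, toR_cont g.2⟩
  invFun f := ⟨toX f.1, toX_cont f.2⟩
  left_inv g := Subtype.ext (toX_toR g.1)
  right_inv f := Subtype.ext (toR_toX f.1)
  uniformContinuous_toFun := by
    refine UniformContinuous.subtype_mk ?_ _
    rw [uniformContinuous_pi]
    intro t
    exact toR_uc (fun x => (uniformContinuous_pi.1 uniformContinuous_subtype_val) x) t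
  uniformContinuous_invFun := by
    refine UniformContinuous.subtype_mk ?_ _
    rw [uniformContinuous_pi]
    intro t
    exact toX_uc (fun x => (uniformContinuous_pi.1 uniformContinuous_subtype_val) x) t

theorem main : ¬ (∀ (X : Type) [TopologicalSpace X] [T35Space X],
      Nonempty (UniformEquiv {g : X → ℝ // Continuous g} {g : ℝ → ℝ // Continuous g}) →
      ∃ K : ℕ → Set X, (∀ n, IsCompact (K n)) ∧ (⋃ n, K n) = Set.univ ∧
        ∀ F : Set X, (∀ n, IsClosed ((Subtype.val : ↥(K n) → X) ⁻¹' F)) → IsClosed F) := by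
  intro H
  obtain ⟨K, hK, _, hF⟩ := H XX ⟨ue⟩
  have h1 : IsClosed (Set.range inr) := by
    apply hF
    intro n
    apply Set.Finite.isClosed
    have h2 := (compact_fin (hK n)).image inr
    refine Set.Finite.of_finite_image (f := Subtype.val) (h2.subset ?_)
      (fun a _ b _ h => Subtype.ext h)
    rintro _ ⟨⟨y, hy⟩, ⟨d, hd⟩, rfl⟩
    exact ⟨d, by show inr d ∈ K n; rw [hd]; exact hy, hd⟩
  have h3 := (h1.isOpen_compl).2 (by
    rintro ⟨d, hd⟩
    exact inr_ne_inl d 0 hd)
  apply not_small_univ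
  refine h3.mono ?_
  intro d _ hd
  exact hd ⟨d, rfl⟩

end Pool.Agent.H5.KOm
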