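import Mathlib
set_option autoImplicit false
open Filter Topology Set

namespace Pool.Agent.H5.OPt

/-- an ideal of subsets of `D` containing all singletons -/
structure Idl (D : Type) where
  small : Set D → Prop
  empty : small ∅
  mono : ∀ {A B : Set D}, A ⊆ B → small B → small A
  union : ∀ {A B : Set D}, small A → small B → small (A ∪ B)
  single : ∀ d, small {d}

/-- the one point extension of the discrete set `D` -/
def Pt {D : Type} (_I : Idl D) : Type := Option D

variable {D : Type} {I : Idl D}

def pinf (I : Idl D) : Pt I := (none : Option D)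
def pin (I : Idl D) (d : D) : Pt I := (some d : Option D)

lemma Ptcases (x : Pt I) : x = pinf I ∨ ∃ d, x = pin I d := by
  rcases x with _ | d
  · exact Or.inl rfl
  · exact Or.inr ⟨d, rfl⟩

lemma pin_ne (d : D) : pin I d ≠ pinf I := by intro h; cases h
lemma pin_inj {d e : D} (h : pin I d = pin I e) : d = e := Option.some_injective _ h

/-- definition by cases -/
def pcase {α : Type*} (a : α) (f : D → α) (x : Pt I) : α := Option.elim x a f

@[simp] lemma pcase_inf {α : Type*} (a : α) (f : D → α) : pcase a f (pinf I) = a := rfl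
@[simp] lemma pcase_pin {α : Type*} (a : α) (f : D → α) (d : D) : pcase a f (pin I d) = f d := rfl

instance : TopologicalSpace (Pt I) where
  IsOpen U := pinf I ∈ U → I.small {d | pin I d ∉ U}
  isOpen_univ := fun _ => by simpa using I.empty
  isOpen_inter U V hU hV := fun h => by
    refine I.mono ?_ (I.union (hU h.1) (hV h.2))
    intro d hd
    by_contra hcon
    rw [mem_union, not_or] at hcon
    exact hd ⟨not_not.1 hcon.1, not_not.1 hcon.2⟩
  isOpen_sUnion S hS := by
    rintro ⟨U, hU, h0⟩
    refine I.mono ?_ (hS U hU h0)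
    intro d hd hdU
    exact hd ⟨U, hU, hdU⟩

lemma isOpen_iff (U : Set (Pt I)) : IsOpen U ↔ (pinf I ∈ U → I.small {d | pin I d ∉ U}) := Iff.rfl

lemma isOpen_image (A : Set D) : IsOpen (pin I '' A) := by
  rw [isOpen_iff]
  rintro ⟨d, _, hd⟩
  exact absurd hd (pin_ne d)

lemma isClosed_image {A : Set D} (hA : I.small A) : IsClosed (pin I '' A) := by
  rw [← isOpen_compl_iff, isOpen_iff]
  intro _
  refine I.mono ?_ hA
  intro d hd
  rw [mem_ofPred_eq, mem_compl_iff, not_not] at hd
  obtain ⟨d', hd', he⟩ := hd
  rwa [← pin_inj he]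

lemma cont_iff (g : Pt I → ℝ) :
    Continuous g ↔ ∀ ε > 0, I.small {d | ε < |g (pin I d) - g (pinf I)|} := by
  constructor
  · intro h ε hε
    have hU : IsOpen (g ⁻¹' Metric.ball (g (pinf I)) ε) := Metric.isOpen_ball.preimage h
    refine I.mono ?_ (hU (by simp [hε]))
    intro d hd hd2
    rw [mem_preimage, Metric.mem_ball, Real.dist_eq] at hd2
    exact absurd hd (not_lt.2 hd2.le)
  · intro h2
    rw [continuous_def]
    intro U hU h0
    obtain ⟨ε, hε, hb⟩ := Metric.isOpen_iff.1 hU _ h0
    refine I.mono ?_ (h2 (ε / 2) (by positivity))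
    intro d hd
    rw [mem_ofPred_eq]
    by_contra hcon
    push Not at hcon
    apply hd
    apply hb
    rw [Metric.mem_ball, Real.dist_eq]
    linarith

instance : T1Space (Pt I) where
  t1 := by
    intro x
    rcases Ptcases x with rfl | ⟨d, rfl⟩
    · rw [← isOpen_compl_iff, isOpen_iff]
      intro h
      exact absurd rfl h
    · rw [← image_singleton]
      exact isClosed_image (I.single d)

lemma sep (x : Pt I) (K : Set (Pt I)) (hK : IsClosed K) (hx : x ∉ K) :
    ∃ f : Pt I → ℝ, Continuous f ∧ (∀ y, f y ∈ Set.Icc (0:ℝ) 1) ∧ f x = 0 ∧ ∀ y ∈ K, f y = 1 := by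
  classical
  rcases Ptcases x with rfl | ⟨d, rfl⟩
  · refine ⟨pcase 0 (fun d => if pin I d ∈ K then 1 else 0), ?_, ?_, rfl, ?_⟩
    · rw [cont_iff]
      intro ε hε
      refine I.mono ?_ (hK.isOpen_compl hx)
      intro d hd
      have hd' : ε < |(if pin I d ∈ K then (1:ℝ) else 0) - 0| := hd
      intro hcon
      rw [if_neg hcon, sub_zero, abs_zero] at hd'
      linarith
    · intro y
      rcases Ptcases y with rfl | ⟨d, rfl⟩
      · simp
      · rw [pcase_pin]
        split_ifs <;> simp
    · intro y hy
      rcases Ptcases y with rfl | ⟨d, rfl⟩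
      · exact absurd hy hx
      · rw [pcase_pin, if_pos hy]
  · refine ⟨pcase 1 (fun d' => if d' = d then 0 else 1), ?_, ?_, ?_, ?_⟩
    · rw [cont_iff]
      intro ε hε
      refine I.mono ?_ (I.single d)
      intro d' hd'
      have hd2 : ε < |(if d' = d then (0:ℝ) else 1) - 1| := hd'
      rw [mem_singleton_iff]
      by_contra hcon
      rw [if_neg hcon, sub_self, abs_zero] at hd2
      linarith
    · intro y
      rcases Ptcases y with rfl | ⟨d', rfl⟩
      · simp
      · rw [pcase_pin]
        split_ifs <;> simp
    · rw [pcase_pin]; simp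
    · intro y hy
      rcases Ptcases y with rfl | ⟨d', rfl⟩
      · rfl
      · rw [pcase_pin, if_neg]
        rintro rfl
        exact hx hy

instance : CompletelyRegularSpace (Pt I) where
  completely_regular := by
    intro x K hK hx
    obtain ⟨f, hf, h01, hfx, hfK⟩ := sep x K hK hx
    refine ⟨fun y => ⟨f y, h01 y⟩, Continuous.subtype_mk hf _, ?_, ?_⟩
    · exact Subtype.ext hfx
    · intro y hy
      exact Subtype.ext (hfK y hy)

instance : T35Space (Pt I) := {}

/-- tall ideals give spaces all of whose compact subsets are finite -/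
lemma compact_finite (htall : ∀ A : Set D, A.Infinite → ∃ B ⊆ A, B.Infinite ∧ I.small B)
    {K : Set (Pt I)} (hK : IsCompact K) : K.Finite := by
  have h1 : {d | pin I d ∈ K}.Finite := by
    by_contra hinf
    obtain ⟨A, hAs, hAi, hA1⟩ := htall _ hinf
    have hAK : pin I '' A ⊆ K := by
      rintro _ ⟨d, hd, rfl⟩
      exact hAs hd
    have hc : IsCompact (pin I '' A) := hK.of_isClosed_subset (isClosed_image hA1) hAK
    have hfin : (pin I '' A).Finite := by
      have hcs := isCompact_iff_compactSpace.1 hc
      have hd : DiscreteTopology (pin I '' A) := by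
        rw [discreteTopology_iff_forall_isOpen]
        intro s
        refine ⟨pin I '' {d | ∃ h : d ∈ A, (⟨pin I d, ⟨d, h, rfl⟩⟩ : (pin I '' A : Set (Pt I))) ∈ s},
          isOpen_image _, ?_⟩
        ext ⟨y, d, hd, hy⟩
        subst hy
        constructor
        · rintro ⟨d', ⟨h', hs'⟩, he⟩
          have := pin_inj he
          subst this
          exact hs'
        · intro h
          exact ⟨d, ⟨hd, h⟩, rfl⟩
      have : Finite (pin I '' A) := finite_of_compact_of_discrete
      exact Set.toFinite _
    exact hAi (hfin.of_finite_image (fun a _ b _ h => pin_inj h))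
  refine ((h1.image (pin I)).union (Set.finite_singleton (pinf I))).subset ?_
  intro y hy
  rcases Ptcases y with rfl | ⟨d, rfl⟩
  · exact Or.inr rfl
  · exact Or.inl ⟨d, hy, rfl⟩

/-! ### medians -/

section Med
variable {ι : Type*} [Fintype ι]

open Classical in
noncomputable def above (t : ℝ) (x : ι → ℝ) : ℕ := (Finset.univ.filter (fun i => t < x i)).card

open Classical in
noncomputable def big (t : ℝ) (x : ι → ℝ) : ℕ := (Finset.univ.filter (fun i => t < |x i|)).card

lemma above_mono {s t : ℝ} {x x' : ι → ℝ} (h : ∀ i, s < x i → t < x' i) :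
    above s x ≤ above t x' := by
  classical
  unfold above
  apply Finset.card_le_card
  intro i hi
  exact Finset.mem_filter.2 ⟨Finset.mem_univ _, h i (Finset.mem_filter.1 hi).2⟩

/-- order statistic: the `(h+1)`-st largest value -/
noncomputable def med (h : ℕ) (x : ι → ℝ) : ℝ := sInf {t : ℝ | above t x ≤ h}

lemma med_ne (h : ℕ) (x : ι → ℝ) : {t : ℝ | above t x ≤ h}.Nonempty := by
  classical
  refine ⟨∑ i, |x i|, ?_⟩
  have : above (∑ i, |x i|) x = 0 := by
    unfold above
    rw [Finset.card_eq_zero, Finset.filter_eq_empty_iff]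
    intro i _ h
    have := Finset.single_le_sum (f := fun i => |x i|) (fun i _ => abs_nonneg (x i))
      (Finset.mem_univ i)
    exact absurd h (not_lt.2 (le_trans (le_abs_self _) this))
  show above (∑ i, |x i|) x ≤ h
  omega

lemma med_bdd {h : ℕ} (hh : h < Fintype.card ι) (x : ι → ℝ) :
    BddBelow {t : ℝ | above t x ≤ h} := by
  classical
  refine ⟨-∑ i, |x i| , ?_⟩
  intro t ht
  by_contra hcon
  push Not at hcon
  have : above t x = Fintype.card ι := by
    unfold above
    rw [Finset.card_eq_iff_eq_univ, Finset.eq_univ_iff_forall]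
    intro i
    refine Finset.mem_filter.2 ⟨Finset.mem_univ _, ?_⟩
    have := Finset.single_le_sum (f := fun i => |x i|) (fun i _ => abs_nonneg (x i))
      (Finset.mem_univ i)
    have h2 := neg_abs_le (x i)
    linarith
  rw [mem_ofPred_eq, this] at ht
  omega

lemma med_le_of {h : ℕ} (hh : h < Fintype.card ι) {x x' : ι → ℝ} {c : ℝ}
    (hx : ∀ i, x' i ≤ x i + c) : med h x' ≤ med h x + c := by
  have : med h x' - c ≤ med h x := by
    refine le_csInf (med_ne h x) (fun t ht => ?_)
    have : med h x' ≤ t + c := by
      refine csInf_le (med_bdd hh x') ?_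
      refine le_trans (above_mono (fun i hi => ?_)) ht
      have := hx i
      linarith
    linarith
  linarith

lemma med_add {h : ℕ} (hh : h < Fintype.card ι) (x : ι → ℝ) (c : ℝ) :
    med h (fun i => x i + c) = med h x + c := by
  apply le_antisymm
  · exact med_le_of hh (fun i => le_rfl)
  · have := med_le_of (h := h) hh (x := fun i => x i + c) (x' := x) (c := -c) (fun i => by simp)
    linarith

lemma med_abs_le {n : ℕ} (hc : Fintype.card ι = 2 * n + 1) {x : ι → ℝ} {ε : ℝ}
    (hx : big ε x ≤ n) : |med n x| ≤ ε := by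
  classical
  have hh : n < Fintype.card ι := by omega
  rw [abs_le]
  constructor
  · refine le_csInf (med_ne n x) (fun t ht => ?_)
    by_contra hcon
    push Not at hcon
    have h1 : (Finset.univ.filter (fun i => ¬ (ε < |x i|))) ⊆
        Finset.univ.filter (fun i => t < x i) := by
      intro i hi
      have h2 := (Finset.mem_filter.1 hi).2
      push Not at h2
      refine Finset.mem_filter.2 ⟨Finset.mem_univ _, ?_⟩
      have := neg_abs_le (x i)
      linarith
    have h2 := Finset.card_le_card h1
    have h3 := Finset.card_filter_add_card_filter_not (s := (Finset.univ : Finset ι))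
      (fun i => ε < |x i|)
    rw [Finset.card_univ, hc] at h3
    have h4 : (Finset.univ.filter (fun i => ε < |x i|)).card ≤ n := by
      unfold big at hx
      exact hx
    have h5 : (Finset.univ.filter (fun i => t < x i)).card ≤ n := by
      have : above t x ≤ n := ht
      unfold above at this
      exact this
    omega
  · refine csInf_le (med_bdd hh x) ?_
    refine le_trans ?_ hx
    unfold above big
    apply Finset.card_le_card
    intro i hi
    exact Finset.mem_filter.2 ⟨Finset.mem_univ _,
      lt_of_lt_of_le (Finset.mem_filter.1 hi).2 (le_abs_self _)⟩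

lemma med_zero {n : ℕ} (hc : Fintype.card ι = 2 * n + 1) : med n (fun _ : ι => (0:ℝ)) = 0 := by
  have : |med n (fun _ : ι => (0:ℝ))| ≤ 0 := by
    apply med_abs_le hc
    unfold big
    simp
  exact abs_nonpos_iff.1 this

lemma med_uc {h : ℕ} (hh : h < Fintype.card ι) : UniformContinuous (med h : (ι → ℝ) → ℝ) := by
  rw [Metric.uniformContinuous_iff]
  intro ε hε
  refine ⟨ε / 2, by positivity, fun x x' hx => ?_⟩
  have h0 : ∀ i, |x i - x' i| ≤ ε / 2 := fun i => by
    have := dist_le_pi_dist x x' i
    rw [Real.dist_eq] at this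
    linarith
  have h1 : med h x ≤ med h x' + ε / 2 := med_le_of hh (fun i => by
    have := (abs_le.1 (h0 i)).2; linarith)
  have h2 : med h x' ≤ med h x + ε / 2 := med_le_of hh (fun i => by
    have := (abs_le.1 (h0 i)).1; linarith)
  rw [Real.dist_eq, abs_lt]
  constructor <;> linarith

end Med

end Pool.Agent.H5.OPt
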